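import Pool.Agent.Y129.Asym
import Pool.Agent.H914R2.Core0

/-!
# The ratio law for modules over the category of correspondences

`H n` is the cohomology of the `n`-th power, `C m n` are the algebraic correspondences, and `M n` are
finite-dimensional spaces on which the correspondences act (`D m n` are the pairs of operators given
by the correspondences), such that numerically trivial correspondences act as nilpotent operators.
-/

open Module LinearMap Finset Filter Topology

namespace Pool.Agent.K1H14.CI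

open Pool.Agent.Y129

section Core

variable {K : Type*} [Field K] {H M : ℕ → Type*} [∀ n, AddCommGroup (H n)]
  [∀ n, Module K (H n)] [∀ n, AddCommGroup (M n)] [∀ n, Module K (M n)]

/-- The operators `D m n` on the spaces `H m × M m` lift the operators `C m n` on the spaces
`H m`. -/
structure IsLift (C : ∀ m n, Submodule K (H m →ₗ[K] H n))
    (D : ∀ m n, Submodule K ((H m × M m) →ₗ[K] (H n × M n))) : Prop where
  cat : IsCat D
  diag : ∀ m n, ∀ f ∈ D m n, ∃ g ∈ C m n, ∃ g' : M m →ₗ[K] M n, f = g.prodMap g'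
  surj : ∀ m n, ∀ g ∈ C m n, ∃ g' : M m →ₗ[K] M n, g.prodMap g' ∈ D m n
  nil : ∀ m, ∀ (g : Module.End K (H m)) (g' : Module.End K (M m)),
    g.prodMap g' ∈ D m m → g ∈ perp C m m → IsNilpotent g'

variable {C : ∀ m n, Submodule K (H m →ₗ[K] H n)}
  {D : ∀ m n, Submodule K ((H m × M m) →ₗ[K] (H n × M n))}
  [∀ n, Module.Finite K (H n)] [∀ n, Module.Finite K (M n)]
  [IsAlgClosed K] [CharZero K]

omit [∀ n, Module.Finite K (H n)] [∀ n, Module.Finite K (M n)] [IsAlgClosed K] [CharZero K] in
lemma prodMap_pow {m : ℕ} (g : Module.End K (H m)) (g' : Module.End K (M m)) (r : ℕ) :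
    (g.prodMap g' : Module.End K (H m × M m)) ^ r = (g ^ r).prodMap (g' ^ r) := by
  induction r with
  | zero =>
    apply LinearMap.ext
    rintro ⟨x, y⟩
    rfl
  | succ r ih =>
    rw [pow_succ, ih, pow_succ, pow_succ]
    apply LinearMap.ext
    rintro ⟨x, y⟩
    rfl

omit [IsAlgClosed K] in
lemma IsLift.mem_perp_iff (h : IsLift C D) (hC : IsCat C) {m n : ℕ} {g : H m →ₗ[K] H n}
    {g' : M m →ₗ[K] M n} (hg : g.prodMap g' ∈ D m n) :
    g.prodMap g' ∈ perp D m n ↔ g ∈ perp C m n := by
  constructor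
  · intro hp a ha
    obtain ⟨a', ha'⟩ := h.surj n m a ha
    have h1 : (a.prodMap a') ∘ₗ (g.prodMap g') ∈ D m m := h.cat.comp_mem ha' hg
    have h2 : (a.prodMap a') ∘ₗ (g.prodMap g') = (a ∘ₗ g).prodMap (a' ∘ₗ g') := by
      apply LinearMap.ext
      rintro ⟨x, y⟩
      rfl
    set f : Module.End K (H m × M m) := (a.prodMap a') ∘ₗ (g.prodMap g') with hf
    have hpow : ∀ r : ℕ, f ^ r ∈ D m m := by
      intro r
      induction r with
      | zero => exact h.cat.id_mem m
      | succ r ih => rw [pow_succ]; exact h.cat.comp_mem ih h1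
    have h3 : IsNilpotent f := by
      apply Pool.Agent.H914.isNilpotent_of_trace_pow
      intro r
      rw [pow_succ]
      exact hp ((f ^ r : Module.End K (H m × M m)) ∘ₗ (a.prodMap a'))
        (h.cat.comp_mem (hpow r) ha')
    obtain ⟨r, hr⟩ := h3
    have h4 : IsNilpotent (a ∘ₗ g : Module.End K (H m)) := by
      refine ⟨r, ?_⟩
      rw [h2, prodMap_pow] at hr
      apply LinearMap.ext
      intro x
      have h5 := congrArg (fun φ : Module.End K (H m × M m) => (φ (x, 0)).1) hr
      exact h5
    exact Y129.trace_nil h4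
  · intro hp a ha
    obtain ⟨b, hb, b', rfl⟩ := h.diag n m a ha
    have h1 : (b.prodMap b') ∘ₗ (g.prodMap g') ∈ D m m := h.cat.comp_mem ha hg
    have h2 : (b.prodMap b') ∘ₗ (g.prodMap g') = (b ∘ₗ g).prodMap (b' ∘ₗ g') := by
      apply LinearMap.ext
      rintro ⟨x, y⟩
      rfl
    rw [h2] at h1 ⊢
    have h3 : b ∘ₗ g ∈ perp C m m := perp_comp hC hp hb
    have h4 := h.nil m (b ∘ₗ g) (b' ∘ₗ g') h1 h3
    rw [LinearMap.trace_prodMap', hp b hb, Y129.trace_nil h4, add_zero]

/-- The projection of an operator to its first component. -/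
noncomputable def prj (K : Type*) [Field K] {H M : ℕ → Type*} [∀ n, AddCommGroup (H n)]
    [∀ n, Module K (H n)] [∀ n, AddCommGroup (M n)] [∀ n, Module K (M n)] (m n : ℕ) :
    ((H m × M m) →ₗ[K] (H n × M n)) →ₗ[K] (H m →ₗ[K] H n) :=
  (LinearMap.lcomp K (H n) (LinearMap.inl K (H m) (M m))) ∘ₗ
    (LinearMap.llcomp K (H m × M m) (H n × M n) (H n) (LinearMap.fst K (H n) (M n)))

omit [∀ n, Module.Finite K (H n)] [∀ n, Module.Finite K (M n)] [IsAlgClosed K] [CharZero K] in
lemma prj_prodMap {m n : ℕ} (g : H m →ₗ[K] H n) (g' : M m →ₗ[K] M n) :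
    prj K m n (g.prodMap g') = g := by
  apply LinearMap.ext
  intro x
  rfl

omit [IsAlgClosed K] in
/-- The dimensions of the spaces of operators modulo the trace forms agree. -/
lemma IsLift.nd_eq (h : IsLift C D) (hC : IsCat C) (m n : ℕ) {e : Module.End K (H m)}
    {e' : Module.End K (M m)} (he : e.prodMap e' ∈ D m m) :
    nd D m n (sand D m n LinearMap.id (e.prodMap e')) =
      nd C m n (sand C m n LinearMap.id e) := by
  have h1 : (sand D m n LinearMap.id (e.prodMap e')).map (prj K m n) =
      sand C m n LinearMap.id e := by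
    ext f
    rw [mem_sand]
    constructor
    · rintro ⟨_, ⟨c, hc, rfl⟩, rfl⟩
      obtain ⟨g, hg, g', rfl⟩ := h.diag m n c hc
      exact ⟨g, hg, rfl⟩
    · rintro ⟨g, hg, rfl⟩
      obtain ⟨g', hg'⟩ := h.surj m n g hg
      exact ⟨_, ⟨_, hg', rfl⟩, rfl⟩
  rw [nd, nd, ← h1, ← Submodule.map_comp]
  apply finrank_map_eq
  rintro _ ⟨c, hc, rfl⟩
  obtain ⟨g, hg, g', rfl⟩ := h.diag m n c hc
  have h2 : ((LinearMap.lcomp K (H n × M n) (e.prodMap e')) ∘ₗ
      (LinearMap.llcomp K (H m × M m) (H n × M n) (H n × M n) LinearMap.id)) (g.prodMap g') =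
        (g ∘ₗ e).prodMap (g' ∘ₗ e') := by
    apply LinearMap.ext
    rintro ⟨x, y⟩
    rfl
  rw [h2, LinearMap.comp_apply, prj_prodMap, Submodule.mkQ_apply, Submodule.mkQ_apply,
    Submodule.Quotient.mk_eq_zero, Submodule.Quotient.mk_eq_zero]
  apply h.mem_perp_iff hC
  have h3 : (g.prodMap g') ∘ₗ (e.prodMap e') ∈ D m n := h.cat.comp_mem hc he
  have h4 : (g.prodMap g') ∘ₗ (e.prodMap e') = (g ∘ₗ e).prodMap (g' ∘ₗ e') := by
    apply LinearMap.ext
    rintro ⟨x, y⟩
    rfl
  rw [h4] at h3
  exact h3

/-- The second factors. -/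
def secondPart (K : Type*) [Field K] (H M : ℕ → Type*) [∀ n, AddCommGroup (H n)]
    [∀ n, Module K (H n)] [∀ n, AddCommGroup (M n)] [∀ n, Module K (M n)] (n : ℕ) :
    Submodule K (H n × M n) :=
  LinearMap.range (LinearMap.inr K (H n) (M n))

omit [∀ n, Module.Finite K (H n)] [∀ n, Module.Finite K (M n)] [IsAlgClosed K] [CharZero K] in
lemma finrank_secondPart (n : ℕ) : finrank K (secondPart K H M n) = finrank K (M n) :=
  LinearMap.finrank_range_of_inj LinearMap.inr_injective

omit [∀ n, Module.Finite K (H n)] [∀ n, Module.Finite K (M n)] [IsAlgClosed K] [CharZero K] in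
lemma IsLift.stable (h : IsLift C D) : IsStable D (secondPart K H M) := by
  rintro m n f hf _ ⟨y, rfl⟩
  obtain ⟨g, -, g', rfl⟩ := h.diag m n f hf
  refine ⟨g' y, ?_⟩
  simp

variable {β : ℕ → ℕ} {b : ℕ}

/-- **The ratio law** for modules over the category of correspondences. -/
theorem IsLift.law (h : IsLift C D) (hP : IsPowers C β b) :
    (∃ N : ℕ, (∀ n, finrank K (M (2 * n + 1)) ≤ N * β (2 * n + 1)) ∧
      Tendsto (fun n => (finrank K (M n) : ℝ) / β n) atTop (𝓝 (N : ℝ))) ∨
    Tendsto (fun n => (finrank K (M n) : ℝ) / β n) atTop atTop := by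
  have hpos : ∀ n, (0 : ℝ) < cmp β b n := fun n => by exact_mod_cast hP.cmp_pos n
  have key := law_of_bounds (s := fun n => (finrank K (M (n + 1)) : ℝ) / cmp β b n) (by
    intro m
    obtain ⟨r, ε, hε, hε', hε'', hdec⟩ := exists_primitive h.cat (m + 1)
    choose e he e' hee using fun k => h.diag (m + 1) (m + 1) (ε k) (hε k)
    have hidem : ∀ k, IsIdempotentElem (e k : Module.End K (H (m + 1))) := by
      intro k
      have h1 := (hε' k).eq
      rw [hee k] at h1
      apply LinearMap.ext
      intro x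
      exact congrArg (fun φ : Module.End K (H (m + 1) × M (m + 1)) => (φ (x, 0)).1) h1
    have hnd : ∀ k n, nd D (m + 1) n (sand D (m + 1) n LinearMap.id (ε k)) =
        nd C (m + 1) n (sand C (m + 1) n LinearMap.id (e k)) := by
      intro k n
      have h1 := hε k
      rw [hee k] at h1 ⊢
      exact h.nd_eq hP.cat (m + 1) n h1
    have h𝒢 := h.stable
    refine ⟨∑ k, finrank K (range (e k)) * finrank K ((secondPart K H M (m + 1)).map (ε k)),
      ?_, ?_⟩
    · rw [div_le_iff₀ (hpos m), ← finrank_secondPart (H := H) (m + 1), hdec _ h𝒢]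
      have h1 : ∑ k, nd D (m + 1) (m + 1) (sand D (m + 1) (m + 1) LinearMap.id (ε k)) *
          finrank K ((secondPart K H M (m + 1)).map (ε k)) ≤
          (∑ k, finrank K (range (e k)) * finrank K ((secondPart K H M (m + 1)).map (ε k))) *
            cmp β b m := by
        rw [Finset.sum_mul]
        apply Finset.sum_le_sum
        intro k _
        rw [hnd]
        calc _ ≤ (finrank K (range (e k)) * cmp β b m) *
                finrank K ((secondPart K H M (m + 1)).map (ε k)) :=
              Nat.mul_le_mul_right _ (hP.nd_le_cmp (m + 1) m (he k) (hidem k))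
          _ = _ := by ring
      exact_mod_cast h1
    · intro δ hδ
      set g : ℕ := ∑ k, finrank K ((secondPart K H M (m + 1)).map (ε k)) with hg
      set δ' : ℝ := δ / (g + 1) with hδ'
      have hδ'0 : 0 < δ' := by positivity
      have h1 : ∀ᶠ n in atTop, ∀ k, ((finrank K (range (e k)) : ℝ) - δ') * cmp β b n ≤
          nd C (m + 1) (n + 1) (sand C (m + 1) (n + 1) LinearMap.id (e k)) :=
        eventually_all.2 (fun k => hP.eventually (m + 1) (he k) (hidem k) hδ'0)
      filter_upwards [h1] with n hn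
      rw [le_div_iff₀ (hpos n)]
      have h2 := sum_le_finrank h.cat (m + 1) (n + 1) hε hε' hε'' h𝒢
      rw [finrank_secondPart] at h2
      have h2' : (∑ k, (nd C (m + 1) (n + 1)
          (sand C (m + 1) (n + 1) LinearMap.id (e k)) : ℝ) *
          finrank K ((secondPart K H M (m + 1)).map (ε k))) ≤ finrank K (M (n + 1)) := by
        simp only [hnd] at h2
        exact_mod_cast h2
      refine le_trans ?_ h2'
      have h3 : ∑ k, (((finrank K (range (e k)) : ℝ) - δ') * cmp β b n) *
          (finrank K ((secondPart K H M (m + 1)).map (ε k)) : ℝ) ≤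
          ∑ k, (nd C (m + 1) (n + 1) (sand C (m + 1) (n + 1) LinearMap.id (e k)) : ℝ) *
          finrank K ((secondPart K H M (m + 1)).map (ε k)) := by
        apply Finset.sum_le_sum
        intro k _
        exact mul_le_mul_of_nonneg_right (hn k) (Nat.cast_nonneg _)
      refine le_trans ?_ h3
      have h4 : ∑ k, (((finrank K (range (e k)) : ℝ) - δ') * cmp β b n) *
          (finrank K ((secondPart K H M (m + 1)).map (ε k)) : ℝ) =
          ((∑ k, (finrank K (range (e k)) : ℝ) *
            finrank K ((secondPart K H M (m + 1)).map (ε k))) - δ' * g) * cmp β b n := by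
        rw [hg, Nat.cast_sum, Finset.mul_sum, ← Finset.sum_sub_distrib, Finset.sum_mul]
        apply Finset.sum_congr rfl
        intro k _
        ring
      rw [h4]
      apply mul_le_mul_of_nonneg_right _ (hpos n).le
      push_cast
      have h5 : δ' * g ≤ δ := by
        rw [hδ', div_mul_eq_mul_div, div_le_iff₀ (by positivity)]
        nlinarith
      linarith)
  -- from the comparison sequence to the numerical ranks
  have hcmp : Tendsto (fun n => (cmp β b n : ℝ) / β (n + 1)) atTop (𝓝 1) := by
    have h1 := (hP.tendsto_cmp 0).inv₀ (by simp)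
    rw [pow_zero, inv_one] at h1
    refine h1.congr ?_
    intro n
    rw [inv_div, add_zero]
  have hprod : ∀ n, ((finrank K (M (n + 1)) : ℝ) / cmp β b n) *
      ((cmp β b n : ℝ) / β (n + 1)) = (finrank K (M (n + 1)) : ℝ) / β (n + 1) := fun n =>
    div_mul_div_cancel₀ (hpos n).ne'
  rcases key with ⟨N, h1, h2⟩ | h1
  · left
    refine ⟨N, fun n => ?_, ?_⟩
    · have h3 := h1 (2 * n)
      rw [div_le_iff₀ (hpos _), cmp_even] at h3
      exact_mod_cast h3
    · rw [← tendsto_add_atTop_iff_nat 1]
      have h3 := h2.mul hcmp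
      rw [mul_one] at h3
      exact h3.congr hprod
  · right
    rw [← tendsto_add_atTop_iff_nat 1]
    have h3 := h1.atTop_mul_pos one_pos hcmp
    exact h3.congr hprod

end Core

end Pool.Agent.K1H14.CI
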