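import Pool.Agent.Y129.Half.Key

/-!
# Nil ideals of finite-dimensional algebras
-/

open Polynomial

namespace Pool.Agent.K1H14.CI

section Nil

variable {F A : Type*} [Field F] [Ring A] [Algebra F A] [Module.Finite F A]

/-- In a finite-dimensional algebra, an element all of whose multiples `b * a` which are idempotent
are zero is nilpotent. -/
lemma isNilpotent_of_no_idem (F : Type*) [Field F] [Algebra F A] [Module.Finite F A] {I : Ideal A}
    (h : ∀ e ∈ I, e * e = e → e = 0) {a : A} (ha : a ∈ I) :
    IsNilpotent a := by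
  have hinj : Function.Injective (Algebra.lmul F A) := Algebra.lmul_injective
  obtain ⟨q, hq1, hq2⟩ := Pool.Agent.Y129.Half.exists_fit (Algebra.lmul F A a)
  have h1 : aeval (Algebra.lmul F A a) q * Algebra.lmul F A a =
      Algebra.lmul F A (aeval a q * a) := by
    rw [map_mul, ← Polynomial.aeval_algHom_apply]
  have h2 : aeval a q * a ∈ I := I.mul_mem_left _ ha
  have h3 : (aeval a q * a) * (aeval a q * a) = aeval a q * a := by
    apply hinj
    rw [map_mul, ← h1]
    exact hq1
  have h4 := h _ h2 h3
  rw [h4, map_zero] at h1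
  obtain ⟨n, hn⟩ := hq2 h1
  refine ⟨n, hinj ?_⟩
  rw [map_pow, hn, map_zero]

/-- In a finite-dimensional algebra, a left ideal without nonzero idempotents is nilpotent. -/
theorem exists_pow_eq_bot (F : Type*) [Field F] [Algebra F A] [Module.Finite F A] {I : Ideal A}
    (h : ∀ e ∈ I, e * e = e → e = 0) :
    ∃ s : ℕ, I ^ s = ⊥ := by
  have hart : IsArtinianRing A := IsArtinianRing.of_finite F A
  obtain ⟨s, hs⟩ := IsArtinianRing.isNilpotent_jacobson_bot (R := A)
  refine ⟨s, ?_⟩
  rw [eq_bot_iff]
  have h1 : I ≤ Ideal.jacobson ⊥ := by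
    intro a ha
    rw [Ideal.mem_jacobson_iff]
    intro y
    have h2 : IsNilpotent (y * a) := isNilpotent_of_no_idem F h (I.mul_mem_left _ ha)
    have h3 : IsUnit (1 + y * a) := h2.isUnit_one_add
    obtain ⟨u, hu⟩ := h3
    refine ⟨(↑u⁻¹ : A), ?_⟩
    rw [Submodule.mem_bot]
    have h4 : (↑u⁻¹ : A) * (1 + y * a) = 1 := by rw [← hu]; exact u.inv_mul
    rw [mul_add, mul_one] at h4
    rw [mul_assoc, add_comm, h4, sub_self]
  exact (Ideal.pow_right_mono h1 s).trans hs.le

end Nil

section Span

variable {K A B : Type*} [Field K] [Ring A] [Ring B] [Algebra K B]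

/-- Linear combinations of the images of elements of a nilpotent ideal are nilpotent. -/
theorem isNilpotent_of_span {I : Ideal A} {s : ℕ} (hs : I ^ s = ⊥) (φ : A →+* B) {g : B}
    (hg : g ∈ Submodule.span K (φ '' (I : Set A))) : IsNilpotent g := by
  have key : ∀ n : ℕ, g ^ (n + 1) ∈ Submodule.span K (φ '' ((I ^ (n + 1) : Ideal A) : Set A)) := by
    intro n
    induction n with
    | zero =>
      have h0 : I ^ (0 + 1) = I := Submodule.pow_one I
      rw [h0, zero_add, pow_one]
      exact hg
    | succ n ih =>
      rw [pow_succ]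
      have h1 : ∀ y ∈ Submodule.span K (φ '' ((I ^ (n + 1) : Ideal A) : Set A)),
          ∀ x ∈ Submodule.span K (φ '' (I : Set A)),
          y * x ∈ Submodule.span K (φ '' ((I ^ (n + 1 + 1) : Ideal A) : Set A)) := by
        intro y hy x hx
        induction hx using Submodule.span_induction with
        | mem x hx =>
          obtain ⟨a, ha, rfl⟩ := hx
          induction hy using Submodule.span_induction with
          | mem y hy =>
            obtain ⟨b, hb, rfl⟩ := hy
            refine Submodule.subset_span ⟨b * a, ?_, map_mul _ _ _⟩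
            rw [SetLike.mem_coe, Submodule.pow_succ I]
            exact Ideal.mul_mem_mul hb ha
          | zero => rw [zero_mul]; exact Submodule.zero_mem _
          | add u v _ _ hu hv => rw [add_mul]; exact Submodule.add_mem _ hu hv
          | smul r u _ hu => rw [smul_mul_assoc]; exact Submodule.smul_mem _ _ hu
        | zero => rw [mul_zero]; exact Submodule.zero_mem _
        | add u v _ _ hu hv => rw [mul_add]; exact Submodule.add_mem _ hu hv
        | smul r u _ hu => rw [mul_smul_comm]; exact Submodule.smul_mem _ _ hu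
      exact h1 _ ih _ hg
  have h2 := key s
  have h3 : I ^ (s + 1) = ⊥ := by
    rw [Submodule.pow_succ I, hs]
    exact Ideal.bot_mul I
  rw [h3] at h2
  refine ⟨s + 1, ?_⟩
  have h4 : φ '' ((⊥ : Ideal A) : Set A) ⊆ {0} := by
    rintro _ ⟨a, ha, rfl⟩
    rw [SetLike.mem_coe, Submodule.mem_bot] at ha
    rw [ha, map_zero]
    rfl
  have h5 := Submodule.span_mono (R := K) h4 h2
  rw [Submodule.span_zero_singleton, Submodule.mem_bot] at h5
  exact h5

end Span

end Pool.Agent.K1H14.CI
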