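import Pool.Agent.K1H14.CI.Defs
import Pool.Agent.R903.Tensor
import Pool.Agent.R903.Coh
import Pool.Agent.Y129.Idx

/-!
# The Weil cohomology theory on cycles

The structure `WeilCohomology` of the starting files has its cycle class maps defined on cycles and
requires that the orientation of the class of a zero-cycle is the sum of its coefficients. We obtain
such a structure from a Weil cohomology theory with class maps on Chow groups, over any field, by a
modified class map `mcls` on cycles: a multiple of a fixed zero-cycle class is added to the classes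
of the closed points such that they all get degree one.
-/

open CategoryTheory AlgebraicGeometry

universe u v w

open scoped TensorProduct

namespace Pool.Agent.K1H14.CI

open Pool.Agent.H914 Pool.Agent.H914.VarClass Pool.Agent.H914.VarClass.Obj Pool.Agent.R903

variable {k : Type u} [Field k] {𝒱 : VarClass k} {C : ChowTheory.{u, v} 𝒱} {X Y Z : 𝒱.Obj}

/-- Finitely supported functions as cycles. -/
noncomputable def toCyc (X : 𝒱.Obj) : (X.V.X →₀ ℚ) →ₗ[ℚ] X.Cycles where
  toFun v := v
  map_add' _ _ := rfl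
  map_smul' _ _ := rfl

/-- The cycle given by a point. -/
noncomputable def pt (X : 𝒱.Obj) (x : X.V.X) : X.Cycles := toCyc X (Finsupp.single x 1)

lemma exists_toCyc (z : X.Cycles) : ∃ v : X.V.X →₀ ℚ, toCyc X v = z := ⟨z, rfl⟩

lemma linear_eq_sum {M : Type*} [AddCommGroup M] [Module ℚ M] (f : X.Cycles →ₗ[ℚ] M)
    (v : X.V.X →₀ ℚ) : f (toCyc X v) = ∑ x ∈ v.support, v x • f (pt X x) := by
  have h1 : f ∘ₗ toCyc X = Finsupp.linearCombination ℚ (fun x => f (pt X x)) := by
    apply Finsupp.lhom_ext'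
    intro x
    apply LinearMap.ext_ring
    rw [LinearMap.comp_apply, LinearMap.comp_apply, Finsupp.lsingle_apply, LinearMap.comp_apply,
      Finsupp.lsingle_apply, Finsupp.linearCombination_single, one_smul]
    rfl
  rw [← LinearMap.comp_apply, h1, Finsupp.linearCombination_apply, Finsupp.sum]

lemma isCyc_toCyc {v : X.V.X →₀ ℚ} {p : ℕ} (h : X.IsCyc p (toCyc X v)) {x : X.V.X}
    (hx : x ∈ v.support) : Order.coheight x = p :=
  h x (Finsupp.mem_support_iff.1 hx)

lemma degCycle_toCyc (v : X.V.X →₀ ℚ) : X.V.degCycle (toCyc X v) = ∑ x ∈ v.support, v x := rfl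

open Classical in
variable (C) in
/-- The defect of the degree: the sum of the coefficients minus the degree, for zero-cycles. -/
noncomputable def defect (X : 𝒱.Obj) : X.Cycles →ₗ[ℚ] ℚ :=
  (Finsupp.linearCombination ℚ (fun x : X.V.X =>
    if Order.coheight x = X.dim then 1 - C.deg X (C.cls X (pt X x)) else 0) :
    (X.V.X →₀ ℚ) →ₗ[ℚ] ℚ) ∘ₗ (LinearMap.id : X.Cycles →ₗ[ℚ] X.Cycles)

open Classical in
lemma defect_toCyc (v : X.V.X →₀ ℚ) : defect C X (toCyc X v) = ∑ x ∈ v.support,
    v x * if Order.coheight x = X.dim then 1 - C.deg X (C.cls X (pt X x)) else 0 := rfl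

lemma defect_zero_cycle {z : X.Cycles} (hz : X.IsCyc X.dim z) :
    defect C X z = X.V.degCycle z - C.deg X (C.cls X z) := by
  classical
  obtain ⟨v, rfl⟩ := exists_toCyc z
  have h1 := linear_eq_sum ((C.deg X) ∘ₗ (C.cls X)) v
  rw [LinearMap.comp_apply] at h1
  rw [h1, defect_toCyc, degCycle_toCyc, ← Finset.sum_sub_distrib]
  apply Finset.sum_congr rfl
  intro x hx
  rw [if_pos (isCyc_toCyc hz hx), LinearMap.comp_apply, smul_eq_mul]
  ring

lemma defect_eq_zero {z : X.Cycles} {p : ℕ} (hz : X.IsCyc p z) (hp : p ≠ X.dim) :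
    defect C X z = 0 := by
  classical
  obtain ⟨v, rfl⟩ := exists_toCyc z
  rw [defect_toCyc]
  apply Finset.sum_eq_zero
  intro x hx
  rw [if_neg, mul_zero]
  rw [isCyc_toCyc hz hx]
  exact_mod_cast hp

open Classical in
lemma defect_pt (x : X.V.X) : defect C X (pt X x) =
    if Order.coheight x = X.dim then 1 - C.deg X (C.cls X (pt X x)) else 0 := by
  rw [pt, defect_toCyc, Finsupp.support_single _ one_ne_zero, Finset.sum_singleton,
    Finsupp.single_eq_same, one_mul]
  rfl

lemma isCyc_pt {x : X.V.X} {p : ℕ} (h : Order.coheight x = p) : X.IsCyc p (pt X x) := by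
  classical
  intro y hy
  by_cases hxy : x = y
  · subst hxy
    exact h
  · exfalso
    apply hy
    exact Finsupp.single_eq_of_ne (M := ℚ) (α := X.V.X) (Ne.symm hxy)

/-- There is a closed point whose class has nonzero degree. -/
lemma exists_point (hC : HasDegree C) (X : 𝒱.Obj) : ∃ x : X.V.X, Order.coheight x = X.dim ∧
    C.deg X (C.cls X (pt X x)) ≠ 0 := by
  obtain ⟨y, hy, hy0⟩ := hC.exists_ne X
  obtain ⟨z, hz, rfl⟩ := C.mem_gr.1 hy
  by_contra hcon
  push Not at hcon
  apply hy0
  obtain ⟨v, rfl⟩ := exists_toCyc z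
  have h1 := linear_eq_sum ((C.deg X) ∘ₗ (C.cls X)) v
  rw [LinearMap.comp_apply] at h1
  rw [h1]
  apply Finset.sum_eq_zero
  intro x hx
  rw [LinearMap.comp_apply, hcon x (isCyc_toCyc hz hx), smul_zero]

/-- The chosen closed point. -/
noncomputable def basePt (hC : HasDegree C) (X : 𝒱.Obj) : X.V.X := (exists_point hC X).choose

lemma basePt_coheight (hC : HasDegree C) (X : 𝒱.Obj) :
    Order.coheight (basePt hC X) = X.dim := (exists_point hC X).choose_spec.1

lemma basePt_deg (hC : HasDegree C) (X : 𝒱.Obj) :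
    C.deg X (C.cls X (pt X (basePt hC X))) ≠ 0 := (exists_point hC X).choose_spec.2

/-- The class of degree one. -/
noncomputable def baseCl (hC : HasDegree C) (X : 𝒱.Obj) : C.CH X :=
  (C.deg X (C.cls X (pt X (basePt hC X))))⁻¹ • C.cls X (pt X (basePt hC X))

lemma deg_baseCl (hC : HasDegree C) (X : 𝒱.Obj) : C.deg X (baseCl hC X) = 1 := by
  rw [baseCl, map_smul, smul_eq_mul, inv_mul_cancel₀ (basePt_deg hC X)]

lemma baseCl_mem (hC : HasDegree C) (X : 𝒱.Obj) : baseCl hC X ∈ C.gr X X.dim :=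
  Submodule.smul_mem _ _ (C.mem_gr.2 ⟨_, isCyc_pt (basePt_coheight hC X), rfl⟩)

/-- The modified class of a cycle. -/
noncomputable def mcls (hC : HasDegree C) (X : 𝒱.Obj) : X.Cycles →ₗ[ℚ] C.CH X :=
  C.cls X + (defect C X).smulRight (baseCl hC X)

lemma mcls_apply (hC : HasDegree C) (z : X.Cycles) :
    mcls hC X z = C.cls X z + defect C X z • baseCl hC X := rfl

lemma mcls_mem (hC : HasDegree C) {z : X.Cycles} {p : ℕ} (h : X.IsCyc p z) :
    mcls hC X z ∈ C.gr X p := by
  rw [mcls_apply]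
  refine Submodule.add_mem _ (C.mem_gr.2 ⟨z, h, rfl⟩) ?_
  by_cases hp : p = X.dim
  · subst hp
    exact Submodule.smul_mem _ _ (baseCl_mem hC X)
  · rw [defect_eq_zero h hp, zero_smul]
    exact Submodule.zero_mem _

lemma deg_mcls (hC : HasDegree C) {z : X.Cycles} (h : X.IsCyc X.dim z) :
    C.deg X (mcls hC X z) = X.V.degCycle z := by
  rw [mcls_apply, map_add, map_smul, deg_baseCl, smul_eq_mul, mul_one, defect_zero_cycle h,
    add_sub_cancel]

lemma mcls_fund (hC : HasDegree C) (X : 𝒱.Obj) : mcls hC X X.V.fundCycle = 1 := by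
  rw [mcls_apply, C.cls_fund]
  have h1 : defect C X X.V.fundCycle = 0 := by
    by_cases h : 0 = X.dim
    · have h2 : X.IsCyc X.dim X.V.fundCycle := by
        rw [← h]
        exact X.V.fundCycle_mem
      rw [defect_zero_cycle h2, C.cls_fund, hC.deg_one X h.symm]
      have h3 : X.V.degCycle X.V.fundCycle = 1 := by
        have h4 : X.V.degCycle X.V.fundCycle =
          Finsupp.sum (Finsupp.single (genericPoint X.V.X) (1 : ℚ)) (fun _ c => c) := rfl
        rw [h4, Finsupp.sum_single_index rfl]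
      rw [h3, sub_self]
    · exact defect_eq_zero X.V.fundCycle_mem h
  rw [h1, zero_smul, add_zero]

lemma exists_mcls_gr (hC : HasDegree C) {x : C.CH X} {p : ℕ} (hx : x ∈ C.gr X p) :
    ∃ z, X.IsCyc p z ∧ mcls hC X z = x := by
  obtain ⟨z, hz, hzx⟩ := C.mem_gr.1 hx
  by_cases hp : p = X.dim
  · subst hp
    refine ⟨z + (-(defect C X z)) • pt X (basePt hC X), ?_, ?_⟩
    · exact hz.add (SmVar.IsCyc.smul _ (isCyc_pt (basePt_coheight hC X)))
    · rw [map_add, map_smul, mcls_apply, mcls_apply, hzx, defect_pt,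
        if_pos (basePt_coheight hC X)]
      have h1 : C.cls X (pt X (basePt hC X)) =
          C.deg X (C.cls X (pt X (basePt hC X))) • baseCl hC X := by
        rw [baseCl, smul_smul, mul_inv_cancel₀ (basePt_deg hC X), one_smul]
      set D := C.deg X (C.cls X (pt X (basePt hC X))) with hD
      rw [h1, ← add_smul, smul_smul, add_assoc, ← add_smul]
      have h2 : defect C X z + -(defect C X z) * (D + (1 - D)) = 0 := by ring
      rw [h2, zero_smul, add_zero]
  · refine ⟨z, hz, ?_⟩
    rw [mcls_apply, defect_eq_zero hz hp, zero_smul, add_zero, hzx]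

lemma exists_cls (hC : HasDegree C) (x : C.CH X) : ∃ z, mcls hC X z = x := by
  have h1 : x ∈ ⨆ i, C.gr X i := by
    rw [(C.isInternal X).submodule_iSup_eq_top]
    exact Submodule.mem_top
  refine Submodule.iSup_induction (fun i : ℕ => C.gr X i)
    (motive := fun x => ∃ z, mcls hC X z = x) h1 ?_ ?_ ?_
  · intro i x hx
    obtain ⟨z, -, hz⟩ := exists_mcls_gr hC hx
    exact ⟨z, hz⟩
  · exact ⟨0, map_zero _⟩
  · rintro x y ⟨z, rfl⟩ ⟨w, rfl⟩
    exact ⟨z + w, map_add _ _ _⟩

lemma exists_rep (hC : HasDegree C) (x : C.CH X) :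
    ∃ z, mcls hC X z = x ∧ ∀ p, x ∈ C.gr X p → X.IsCyc p z := by
  by_cases h0 : x = 0
  · subst h0
    exact ⟨0, map_zero _, fun p _ => Pool.Agent.H914.SmVar.IsCyc.zero X.V p⟩
  by_cases h : ∃ p, x ∈ C.gr X p
  · obtain ⟨p, hp⟩ := h
    obtain ⟨z, hz, hzx⟩ := exists_mcls_gr hC hp
    refine ⟨z, hzx, fun q hq => ?_⟩
    by_cases hpq : p = q
    · subst hpq
      exact hz
    · exfalso
      have h1 := (C.isInternal X).submodule_iSupIndep.pairwiseDisjoint hpq
      exact h0 (Submodule.disjoint_def.1 h1 x hp hq)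
  · obtain ⟨z, hz⟩ := exists_cls hC x
    exact ⟨z, hz, fun p hp => absurd ⟨p, hp⟩ h⟩

/-- A cycle which represents a given class. -/
noncomputable def rep (hC : HasDegree C) (x : C.CH X) : X.Cycles := (exists_rep hC x).choose

lemma cls_rep (hC : HasDegree C) (x : C.CH X) : mcls hC X (rep hC x) = x :=
  (exists_rep hC x).choose_spec.1

lemma rep_mem (hC : HasDegree C) {x : C.CH X} {p : ℕ} (h : x ∈ C.gr X p) :
    X.IsCyc p (rep hC x) :=
  (exists_rep hC x).choose_spec.2 p h

/-- The operations on cycles given by the intersection theory. -/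
noncomputable def opsOf (hC : HasDegree C) : CycleOps 𝒱 where
  mul {X} z w := rep hC (mcls hC X z * mcls hC X w)
  pull {X Y} f z := rep hC (C.pull f (mcls hC Y z))
  push {X Y} f z := rep hC (C.push f (mcls hC X z))
  mul_mem hz hw := rep_mem hC (C.mul_mem (mcls_mem hC hz) (mcls_mem hC hw))
  pull_mem f _ _ hz := rep_mem hC (C.pull_mem f (mcls_mem hC hz))
  push_mem f _ _ _ hz h := rep_mem hC (C.push_mem f (mcls_mem hC hz) h)

/-- The Weil cohomology theory, with the class map defined on cycles. -/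
noncomputable def cohOf (hC : HasDegree C) (W : WeilTheory.{u, v, w} C) :
    WeilCohomology.{u, w} (opsOf hC) where
  K := W.K
  H := W.H
  gr := W.gr
  map := W.map
  tr := W.tr
  push := W.push
  cl X := (W.cl X).toAddMonoidHom.comp (mcls hC X).toAddMonoidHom
  isPoincareAlgebra := W.isPoincareAlgebra
  isFunctorial :=
    { map_id := W.mapFunctorial.map_id
      map_comp := W.mapFunctorial.map_comp
      isPullPush := W.isPullPush }
  isKunneth := W.isKunneth
  isCycleMap X :=
    { cl_mem := fun hz => W.cl_mem (mcls_mem hC hz)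
      cl_fund := by
        change W.cl X (mcls hC X X.V.fundCycle) = 1
        rw [mcls_fund, map_one]
      tr_cl := by
        intro z hz
        change W.tr X (W.cl X (mcls hC X z)) = _
        rw [W.tr_cl, deg_mcls hC hz] }
  isCompatible :=
    { cl_mul := by
        intro X z w
        change W.cl X (mcls hC X (rep hC (mcls hC X z * mcls hC X w))) = _
        rw [cls_rep, map_mul]
        rfl
      cl_pull := by
        intro X Y f z
        change W.cl X (mcls hC X (rep hC (C.pull f (mcls hC Y z)))) = _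
        rw [cls_rep, W.cl_pull]
        rfl
      cl_push := by
        intro X Y f z
        change W.cl Y (mcls hC Y (rep hC (C.push f (mcls hC X z)))) = _
        rw [cls_rep, W.cl_push]
        rfl }

/-- A cycle class map on the Chow groups which is compatible with the class map on cycles. -/
structure ClassMap (C : ChowTheory.{u, v} 𝒱) {ops : CycleOps 𝒱}
    (W : WeilCohomology.{u, w} ops) where
  /-- the class map -/
  cl : ∀ X : 𝒱.Obj, C.CH X →+* W.H X
  exists_cyc : ∀ (X : 𝒱.Obj) (p : ℕ) (x : C.CH X), x ∈ C.gr X p →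
    ∃ z : X.Cycles, X.IsCyc p z ∧ W.cl X z = cl X x
  exists_cl : ∀ (X : 𝒱.Obj) (z : X.Cycles), ∃ x : C.CH X, cl X x = W.cl X z
  cl_pull : ∀ {X Y : 𝒱.Obj} (f : X ⟶ Y) (y : C.CH Y), cl X (C.pull f y) = W.map f (cl Y y)
  cl_push : ∀ {X Y : 𝒱.Obj} (f : X ⟶ Y) (x : C.CH X), cl Y (C.push f x) = W.push f (cl X x)
  tr_cl : ∀ (X : 𝒱.Obj) (x : C.CH X), W.tr X (cl X x) = (C.deg X x : W.K)

/-- The class map of a Weil cohomology theory. -/
noncomputable def classMapOf (hC : HasDegree C) (W : WeilTheory.{u, v, w} C) :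
    ClassMap C (cohOf hC W) where
  cl := W.cl
  exists_cyc X p x hx := by
    obtain ⟨z, hz, rfl⟩ := exists_mcls_gr hC hx
    exact ⟨z, hz, rfl⟩
  exists_cl X z := ⟨mcls hC X z, rfl⟩
  cl_pull f y := W.cl_pull f y
  cl_push f x := W.cl_push f x
  tr_cl _ x := W.tr_cl x

/-- Extension of the coefficients. -/
noncomputable def ClassMap.base {ops : CycleOps 𝒱} {W : WeilCohomology.{u, w} ops}
    (κ : ClassMap C W) (L : Type w) [Field L] [Algebra W.K L] : ClassMap C (baseW W L) where
  cl X := (Algebra.TensorProduct.includeRight : W.H X →ₐ[W.K] L ⊗[W.K] W.H X).toRingHom.comp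
    (κ.cl X)
  exists_cyc X p x hx := by
    obtain ⟨z, hz, hzx⟩ := κ.exists_cyc X p x hx
    refine ⟨z, hz, ?_⟩
    change (1 : L) ⊗ₜ[W.K] (W.cl X z) = (1 : L) ⊗ₜ[W.K] (κ.cl X x)
    rw [hzx]
  exists_cl X z := by
    obtain ⟨x, hx⟩ := κ.exists_cl X z
    refine ⟨x, ?_⟩
    change (1 : L) ⊗ₜ[W.K] (κ.cl X x) = (1 : L) ⊗ₜ[W.K] (W.cl X z)
    rw [hx]
  cl_pull {X Y} f y := by
    change (1 : L) ⊗ₜ[W.K] (κ.cl X (C.pull f y)) = mapBase L (W.map f)
      ((1 : L) ⊗ₜ[W.K] (κ.cl Y y))
    rw [κ.cl_pull, Algebra.TensorProduct.map_tmul]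
    rfl
  cl_push {X Y} f x := by
    change (1 : L) ⊗ₜ[W.K] (κ.cl Y (C.push f x)) = (W.push f).baseChange L
      ((1 : L) ⊗ₜ[W.K] (κ.cl X x))
    rw [κ.cl_push, LinearMap.baseChange_tmul]
  tr_cl X x := by
    have : CharZero L := charZero_of_injective_algebraMap (algebraMap W.K L).injective
    change formBase L (W.tr X) ((1 : L) ⊗ₜ[W.K] (κ.cl X x)) = ((C.deg X x : ℚ) : L)
    rw [formBase_tmul, κ.tr_cl, one_mul, map_ratCast]

end Pool.Agent.K1H14.CI
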