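import Pool.Agent.R903.Corr
import Pool.Agent.Y129.Defs

/-!
# Chow groups and cycles modulo numerical equivalence: definitions
-/

open CategoryTheory AlgebraicGeometry

universe u v w

namespace Pool.Agent.K1H14.CI

open Pool.Agent.H914 Pool.Agent.H914.VarClass Pool.Agent.H914.VarClass.Obj Pool.Agent.R903

variable {k : Type u} [Field k] {𝒱 : VarClass k}

/-- Normalization of the degree of zero-cycles: every variety carries a zero-cycle of nonzero degree
(for instance a closed point), and the degree of a variety of dimension zero (a rational point) is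
one. -/
structure HasDegree (C : ChowTheory.{u, v} 𝒱) : Prop where
  exists_ne : ∀ X : 𝒱.Obj, ∃ z ∈ C.gr X X.dim, C.deg X z ≠ 0
  deg_one : ∀ X : 𝒱.Obj, X.dim = 0 → C.deg X 1 = 1

/-- The space of the numerically trivial classes: those whose intersection numbers with all classes
are zero. (These classes form a subspace, see `mem_numTriv`.) -/
noncomputable def numTriv (C : ChowTheory.{u, v} 𝒱) (X : 𝒱.Obj) : Submodule ℚ (C.CH X) :=
  Submodule.span ℚ {x | ∀ y, C.deg X (x * y) = 0}

lemma mem_numTriv {C : ChowTheory.{u, v} 𝒱} {X : 𝒱.Obj} {x : C.CH X} :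
    x ∈ numTriv C X ↔ ∀ y, C.deg X (x * y) = 0 := by
  constructor
  · intro h
    induction h using Submodule.span_induction with
    | mem x hx => exact hx
    | zero => intro y; rw [zero_mul, map_zero]
    | add a b _ _ ha hb => intro y; rw [add_mul, map_add, ha, hb, add_zero]
    | smul c a _ ha => intro y; rw [smul_mul_assoc, map_smul, ha, smul_zero]
  · intro h
    exact Submodule.subset_span h

/-- The dimension of `CH(X)` (rational coefficients, all codimensions), an element of
`ℕ ∪ {∞}`. -/
noncomputable def chowDim (C : ChowTheory.{u, v} 𝒱) (X : 𝒱.Obj) : ℕ∞ :=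
  Cardinal.toENat (Module.rank ℚ (C.CH X))

/-- The dimension of the space of cycles on `X` (rational coefficients, all codimensions) modulo
numerical equivalence. -/
noncomputable def numDim (C : ChowTheory.{u, v} 𝒱) (X : 𝒱.Obj) : ℕ :=
  Module.finrank ℚ (C.CH X ⧸ numTriv C X)

/-- Some power of the two-sided ideal of the numerically trivial correspondences from `X` to `X`
(of all degrees) is zero: there is `s` such that all compositions of `s` of them are zero. -/
inductive IsComposite (C : ChowTheory.{u, v} 𝒱) (X : 𝒱.Obj) : ℕ → C.CH (X.prod X) → Prop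
  | one (γ : C.CH (X.prod X)) (h : γ ∈ numTriv C (X.prod X)) : IsComposite C X 1 γ
  | cons (s : ℕ) (γ δ : C.CH (X.prod X)) (h : γ ∈ numTriv C (X.prod X))
      (hδ : IsComposite C X s δ) : IsComposite C X (s + 1) (C.comp γ δ)

end Pool.Agent.K1H14.CI
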