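import Pool.Agent.K1H14.CI.Gap

/-!
# Finite fields: Frobenius, the conjecture of Tate and nilpotence
-/

open CategoryTheory CategoryTheory.Limits AlgebraicGeometry Finset Filter Topology Polynomial

open scoped TensorProduct ENNReal

universe u v w

namespace Pool.Agent.K1H14.CI

open Pool.Agent.H914 Pool.Agent.H914.VarClass Pool.Agent.H914.VarClass.Obj Pool.Agent.R903
  Pool.Agent.H281R3.HT Pool.Agent.Y129 Pool.Agent.H914.WeilCohomology

variable {k : Type u} [Field k] {𝒱 : VarClass k} {C : ChowTheory.{u, v} 𝒱} {X Y Z : 𝒱.Obj}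

section Coh

variable {ops : CycleOps 𝒱} {W : WeilCohomology.{u, w} ops} (κ : ClassMap C W)

lemma ClassMap.cl_mem_gr {x : C.CH Y} {p : ℕ} (hx : x ∈ C.gr Y p) :
    κ.cl Y x ∈ W.gr Y (2 * p) := by
  obtain ⟨z, hz, hzx⟩ := κ.exists_cyc Y p x hx
  rw [← hzx]
  exact W.cl_mem hz

include κ in
lemma ClassMap.deg_eq_zero {x : C.CH Y} {p : ℕ} (hx : x ∈ C.gr Y p) (hp : p ≠ Y.dim) :
    C.deg Y x = 0 := by
  have h1 := κ.tr_cl Y x
  rw [W.tr_eq_zero (κ.cl_mem_gr hx) (by omega)] at h1
  exact_mod_cast h1.symm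

/-- The decomposition of a class into homogeneous classes. -/
lemma exists_decomp (x : C.CH Y) : ∃ f : ℕ → C.CH Y, (∀ i, f i ∈ C.gr Y i) ∧
    x = ∑ i ∈ range (Y.dim + 1), f i := by
  have h1 : x ∈ ⨆ i, C.gr Y i := by
    rw [(C.isInternal Y).submodule_iSup_eq_top]
    exact Submodule.mem_top
  refine Submodule.iSup_induction (fun i : ℕ => C.gr Y i)
    (motive := fun x => ∃ f : ℕ → C.CH Y, (∀ i, f i ∈ C.gr Y i) ∧
      x = ∑ i ∈ range (Y.dim + 1), f i) h1 ?_ ?_ ?_
  · intro i x hx
    by_cases hi : i ≤ Y.dim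
    · refine ⟨fun l => if l = i then x else 0, fun l => ?_, ?_⟩
      · by_cases hl : l = i
        · subst hl
          simpa using hx
        · simp only [if_neg hl]
          exact Submodule.zero_mem _
      · rw [Finset.sum_ite_eq', if_pos (Finset.mem_range.2 (by omega))]
    · rw [C.gr_eq_bot Y i (by omega), Submodule.mem_bot] at hx
      exact ⟨0, fun l => Submodule.zero_mem _, by simp [hx]⟩
  · exact ⟨0, fun l => Submodule.zero_mem _, by simp⟩
  · rintro x y ⟨f, hf, rfl⟩ ⟨g, hg, rfl⟩
    exact ⟨f + g, fun l => Submodule.add_mem _ (hf l) (hg l), by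
      simp only [Pi.add_apply, Finset.sum_add_distrib]⟩

include κ in
/-- The homogeneous components of numerically trivial classes are numerically trivial. -/
lemma numTriv_component {f : ℕ → C.CH Y} (hf : ∀ i, f i ∈ C.gr Y i)
    (h : ∑ i ∈ range (Y.dim + 1), f i ∈ numTriv C Y) {i : ℕ} (hi : i ∈ range (Y.dim + 1)) :
    f i ∈ numTriv C Y := by
  rw [mem_numTriv]
  intro y
  obtain ⟨g, hg, rfl⟩ := exists_decomp y
  have hi' : i ≤ Y.dim := by
    have := Finset.mem_range.1 hi
    omega
  have h0 : ∀ a b, a + b ≠ Y.dim → C.deg Y (f a * g b) = 0 := fun a b hab =>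
    κ.deg_eq_zero (C.mul_mem (hf a) (hg b)) hab
  have h1 := mem_numTriv.1 h (g (Y.dim - i))
  rw [Finset.sum_mul, map_sum, Finset.sum_eq_single_of_mem i hi (fun a _ ha =>
    h0 a _ (by omega))] at h1
  rw [Finset.mul_sum, map_sum, Finset.sum_eq_single_of_mem (Y.dim - i)
    (Finset.mem_range.2 (by omega)) (fun b hb' hb => h0 i b (by
      have := Finset.mem_range.1 hb'
      omega))]
  exact h1

/-- The operator on the cohomology given by the transposed graph of a morphism. -/
lemma corr_cograph (F : Y ⟶ Y) : W.corr (κ.cl _ (C.cograph F)) = (W.map F).toLinearMap := by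
  apply LinearMap.ext
  intro a
  have h1 : κ.cl _ (C.cograph F) = W.push (lift F (𝟙 Y)) 1 := by
    rw [ChowTheory.cograph, ChowTheory.span, κ.cl_push, _root_.map_one]
  rw [h1, corr_apply, ← W.push_mul, one_mul, ← W.push_comp, ← W.map_comp, lift_fst, lift_snd,
    W.push_id]
  rfl

/-- The ring homomorphism from correspondences to operators on the cohomology. -/
noncomputable def corrHom (Y : 𝒱.Obj) : CorrRing C Y →+* Module.End W.K (W.H Y) where
  toFun a := W.corr (κ.cl _ ((CorrRing.of C Y).symm a))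
  map_one' := κ.corr_diagC
  map_mul' a b := κ.corr_comp _ _
  map_zero' := by
    change W.corr (κ.cl _ 0) = 0
    rw [map_zero, W.corr_zero]
  map_add' a b := by
    change W.corr (κ.cl _ ((CorrRing.of C Y).symm a + (CorrRing.of C Y).symm b)) = _
    rw [map_add, W.corr_add]

lemma corrHom_apply (a : CorrRing C Y) :
    corrHom κ Y a = W.corr (κ.cl _ ((CorrRing.of C Y).symm a)) := rfl

lemma corrHom_smul (c : ℚ) (a : CorrRing C Y) : corrHom κ Y (c • a) = (c : W.K) • corrHom κ Y a := by
  rw [corrHom_apply, map_smul, κ.cl_smul, W.corr_smul]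
  rfl

/-! ### Frobenius -/

variable {F : Y ⟶ Y} {q : ℕ}

lemma map_frob (hF : ∀ j, ∀ x ∈ C.gr Y j, C.pull F x = ((q : ℚ) ^ j) • x) {j : ℕ} {x : C.CH Y}
    (hx : x ∈ C.gr Y j) : W.map F (κ.cl Y x) = ((q : W.K) ^ j) • κ.cl Y x := by
  rw [← κ.cl_pull, hF j x hx, κ.cl_smul]
  push_cast
  rfl

include κ in
/-- Frobenius multiplies the orientation by `q ^ dim`. -/
lemma tr_frob (hF : ∀ j, ∀ x ∈ C.gr Y j, C.pull F x = ((q : ℚ) ^ j) • x) {p : C.CH Y}
    (hp : p ∈ C.gr Y Y.dim) (hp1 : C.deg Y p = 1) (a : W.H Y) :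
    W.tr Y (W.map F a) = (q : W.K) ^ Y.dim * W.tr Y a := by
  refine gr_induction (W.isInternal Y)
    (p := fun a => W.tr Y (W.map F a) = (q : W.K) ^ Y.dim * W.tr Y a) ?_ ?_ a
  · intro i a ha
    by_cases hi : i = 2 * Y.dim
    · subst hi
      have h1 : a = W.tr Y a • κ.cl Y p := by
        rw [← sub_eq_zero]
        apply W.nondeg
        intro b
        have hmem : a - W.tr Y a • κ.cl Y p ∈ W.gr Y (2 * Y.dim) :=
          Submodule.sub_mem _ ha (Submodule.smul_mem _ _ (κ.cl_mem_gr hp))
        refine gr_induction (W.isInternal Y)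
          (p := fun b => W.tr Y ((a - W.tr Y a • κ.cl Y p) * b) = 0) ?_ ?_ b
        · intro l b hb
          by_cases hl : l = 0
          · subst hl
            rw [W.gr_zero, Submodule.mem_span_singleton] at hb
            obtain ⟨c, rfl⟩ := hb
            rw [mul_smul_comm, mul_one, map_smul, map_sub, map_smul, κ.tr_cl, hp1, Rat.cast_one,
              smul_eq_mul, smul_eq_mul, mul_one, sub_self, mul_zero]
          · exact W.tr_eq_zero (W.mul_mem hmem hb) (by omega)
        · intro b b' hb hb'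
          rw [mul_add, map_add, hb, hb', add_zero]
      have h2 : W.map F a = ((q : W.K) ^ Y.dim) • a := by
        conv_lhs => rw [h1]
        rw [map_smul, map_frob κ hF hp, smul_comm, ← h1]
      rw [h2, map_smul, smul_eq_mul]
    · rw [W.tr_eq_zero (W.map_mem F ha) hi, W.tr_eq_zero ha hi, mul_zero]
  · intro a b ha hb
    rw [map_add, map_add, map_add, ha, hb, mul_add]

/-- The generalized eigenspaces of Frobenius for the eigenvalues `q ^ j` are eigenspaces, if
eigenvectors are algebraic and homological and numerical equivalence agree. -/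
lemma semisimple (hF : ∀ j, ∀ x ∈ C.gr Y j, C.pull F x = ((q : ℚ) ^ j) • x) (hq : q ≠ 0)
    {p : C.CH Y} (hp : p ∈ C.gr Y Y.dim) (hp1 : C.deg Y p = 1) (hD : HomEqNum W Y)
    (hT : ∀ j, ∀ a : W.H Y, W.map F a = ((q : W.K) ^ j) • a →
      a ∈ Submodule.span W.K (κ.cl Y '' (C.gr Y j : Set (C.CH Y))))
    {j m : ℕ} {a : W.H Y}
    (ha : (((W.map F).toLinearMap - ((q : W.K) ^ j) • 1 : Module.End W.K (W.H Y)) ^ m) a = 0) :
    W.map F a = ((q : W.K) ^ j) • a := by
  set T : Module.End W.K (W.H Y) := (W.map F).toLinearMap - ((q : W.K) ^ j) • 1 with hTdef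
  have hTa : ∀ a, T a = W.map F a - ((q : W.K) ^ j) • a := fun a => rfl
  have hq0 : (q : W.K) ≠ 0 := by exact_mod_cast hq
  -- algebraic classes
  have hle : Submodule.span W.K (κ.cl Y '' (C.gr Y j : Set (C.CH Y))) ≤ algSpan W Y := by
    rw [Submodule.span_le]
    rintro _ ⟨x, -, rfl⟩
    exact cl_mem_algSpan κ x
  have hgr : Submodule.span W.K (κ.cl Y '' (C.gr Y j : Set (C.CH Y))) ≤ W.gr Y (2 * j) := by
    rw [Submodule.span_le]
    rintro _ ⟨x, hx, rfl⟩
    exact κ.cl_mem_gr hx
  -- the step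
  have step : ∀ a, T (T a) = 0 → T a = 0 := by
    intro a h2
    have h3 : W.map F (T a) = ((q : W.K) ^ j) • T a := by
      rw [hTa (T a), sub_eq_zero] at h2
      exact h2
    have h4 := hT j (T a) h3
    apply homEqNum_algSpan hD (hle h4)
    rw [mem_transcendental_cl κ]
    intro c
    obtain ⟨g, hg, rfl⟩ := exists_decomp c
    rw [map_sum, Finset.sum_mul, map_sum]
    refine Finset.sum_eq_zero fun i hi => ?_
    have hi' : i ≤ Y.dim := by
      have := Finset.mem_range.1 hi
      omega
    by_cases hij : i + j = Y.dim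
    · -- complementary degrees
      have h5 : (q : W.K) ^ i * W.tr Y (κ.cl Y (g i) * W.map F a) =
          (q : W.K) ^ i * ((q : W.K) ^ j * W.tr Y (κ.cl Y (g i) * a)) := by
        have h6 := tr_frob κ hF hp hp1 (κ.cl Y (g i) * a)
        rw [map_mul, map_frob κ hF (hg i), smul_mul_assoc, map_smul, smul_eq_mul, ← hij, pow_add,
          mul_assoc] at h6
        exact h6
      have h7 := mul_left_cancel₀ (pow_ne_zero i hq0) h5
      rw [hTa, mul_sub, map_sub, mul_smul_comm, map_smul, smul_eq_mul, h7, sub_self]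
    · exact W.tr_eq_zero (W.mul_mem (κ.cl_mem_gr (hg i)) (hgr h4)) (by omega)
  -- induction
  have key : ∀ m : ℕ, ∀ a, (T ^ (m + 1)) a = 0 → T a = 0 := by
    intro m
    induction m with
    | zero =>
      intro a h
      rwa [zero_add, pow_one] at h
    | succ m ih =>
      intro a h
      have h1 : (T ^ (m + 1)) (T a) = 0 := by
        rw [← Module.End.mul_apply, ← pow_succ]
        exact h
      exact step a (ih (T a) h1)
  have h1 : T a = 0 := by
    apply key m
    rw [pow_succ', Module.End.mul_apply, ha, map_zero]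
  rw [hTa, sub_eq_zero] at h1
  exact h1

/-- **Nilpotence and the conjecture of Tate imply that numerically trivial classes are zero.** -/
theorem numTriv_eq_bot_of_tate (hF : ∀ j, ∀ x ∈ C.gr Y j, C.pull F x = ((q : ℚ) ^ j) • x)
    (hq : q ≠ 0) {p : C.CH Y} (hp : p ∈ C.gr Y Y.dim) (hp1 : C.deg Y p = 1) (hD : HomEqNum W Y)
    (hT : ∀ j, ∀ a : W.H Y, W.map F a = ((q : W.K) ^ j) • a →
      a ∈ Submodule.span W.K (κ.cl Y '' (C.gr Y j : Set (C.CH Y))))
    [Module.Finite ℚ (CorrRing C Y)] {m : ℕ} (hm : numIdeal κ Y ^ m = ⊥) :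
    numTriv C Y = ⊥ := by
  rw [eq_bot_iff]
  intro x hx
  rw [Submodule.mem_bot]
  obtain ⟨f, hf, rfl⟩ := exists_decomp x
  refine Finset.sum_eq_zero fun j hj => ?_
  have hfj := numTriv_component κ hf hx hj
  set x := f j with hxdef
  have hxj : x ∈ C.gr Y j := hf j
  -- the minimal polynomial of Frobenius
  set φ : CorrRing C Y := CorrRing.of C Y (C.cograph F) with hφ
  have hint : IsIntegral ℚ φ := IsIntegral.of_finite ℚ φ
  set μ := minpoly ℚ φ with hμ
  have hμ0 : μ ≠ 0 := minpoly.ne_zero hint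
  set l : ℚ := (q : ℚ) ^ j with hl
  obtain ⟨m1, hm1, hm1'⟩ := Polynomial.exists_eq_pow_rootMultiplicity_mul_and_not_dvd μ hμ0 l
  set a := μ.rootMultiplicity l with ha
  have hcop : IsCoprime ((X - Polynomial.C l) ^ (a + 1)) m1 := by
    apply IsCoprime.pow_left
    rw [(Polynomial.irreducible_X_sub_C l).coprime_iff_not_dvd]
    exact hm1'
  obtain ⟨u, v, huv⟩ := hcop
  set P := v * m1 with hP
  set e : CorrRing C Y := aeval φ P with he
  -- `e` acts as the identity on `x`
  have hex : C.act ((CorrRing.of C Y).symm e) x = x := by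
    have h1 : C.act ((CorrRing.of C Y).symm e) = CorrRing.actH C Y e := by
      rw [← CorrRing.actH_of, LinearEquiv.apply_symm_apply]
    have h2 : e = 1 - aeval φ (u * (X - Polynomial.C l) ^ a) * aeval φ (X - Polynomial.C l) := by
      rw [he, ← map_mul, ← map_one (aeval (R := ℚ) φ), ← map_sub]
      congr 1
      rw [← huv]
      ring
    have h3 : CorrRing.actH C Y (aeval φ (X - Polynomial.C l)) x = 0 := by
      rw [map_sub, aeval_X, aeval_C, map_sub, LinearMap.sub_apply, hφ, CorrRing.actH_of,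
        C.act_cograph, hF j x hxj, AlgHom.commutes, Module.algebraMap_end_apply, sub_self]
    rw [h1, h2, map_sub, _root_.map_one, map_mul, LinearMap.sub_apply, Module.End.one_apply,
      Module.End.mul_apply, h3, map_zero, sub_zero]
  -- the image of `e` on the cohomology
  have hH : corrHom κ Y φ = (W.map F).toLinearMap := corr_cograph κ F
  have heH : ∀ b : W.H Y, W.map F (corrHom κ Y e b) = ((q : W.K) ^ j) • corrHom κ Y e b := by
    intro b
    apply semisimple κ hF hq hp hp1 hD hT (m := a)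
    have h1 : (φ - l • 1) ^ a * e = 0 := by
      have h2 : (φ - l • 1) ^ a * e = aeval φ (v * μ) := by
        have h3 : v * μ = (X - Polynomial.C l) ^ a * P := by
          rw [hP, hm1]
          ring
        rw [h3, map_mul, map_pow, map_sub, aeval_X, aeval_C, Algebra.algebraMap_eq_smul_one]
      rw [h2, map_mul, hμ, minpoly.aeval, mul_zero]
    have h2 := congrArg (corrHom κ Y) h1
    rw [map_mul, map_pow, map_sub, corrHom_smul, _root_.map_one, hH, map_zero] at h2
    have h3 := congrArg (fun T : Module.End W.K (W.H Y) => T b) h2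
    rw [hl] at h3
    push_cast at h3
    exact h3
  -- the numerically trivial correspondence
  obtain ⟨r, y, z, hyz⟩ := exists_dualBases κ Y
  set ν := C.comp ((CorrRing.of C Y).symm e) (piTr y z) with hν
  have hνx : C.act ν x = x := by
    rw [hν, C.act_comp, hex, piTr, C.act_sub, LinearMap.sub_apply, C.act_diagC, C.act_sum,
      LinearMap.sum_apply]
    simp only [C.act_ext, mem_numTriv.1 hfj, zero_smul, Finset.sum_const_zero, sub_zero]
  have hpi : ∀ c ∈ algSpan W Y, W.corr (κ.cl _ (piTr y z)) c = 0 := by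
    intro c hc
    rw [algSpan_eq κ] at hc
    induction hc using Submodule.span_induction with
    | mem c hc =>
      obtain ⟨w, rfl⟩ := hc
      rw [corr_piTr]
      have h1 := homEqNum_algSpan hD (cl_mem_algSpan κ _) (cl_transcendental κ (hyz.span w))
      rw [map_sub, map_sum] at h1
      simp only [κ.cl_smul] at h1
      rw [← h1]
      congr 1
      apply Finset.sum_congr rfl
      intro i _
      rw [κ.tr_mul, mul_comm]
    | zero => rw [map_zero]
    | add a b _ _ ha hb => rw [map_add, ha, hb, add_zero]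
    | smul r a _ ha => rw [map_smul, ha, smul_zero]
  have hν0 : W.corr (κ.cl _ ν) = 0 := by
    rw [hν, κ.corr_comp]
    apply LinearMap.ext
    intro b
    rw [LinearMap.comp_apply, LinearMap.zero_apply]
    apply hpi
    have h1 := hT j _ (heH b)
    refine (Submodule.span_le.2 ?_) h1
    rintro _ ⟨w, -, rfl⟩
    exact cl_mem_algSpan κ w
  have hνn : ν ∈ numTriv C (Y.prod Y) := by
    apply mem_numTriv_of_cl κ
    rw [corr_inj hν0]
    exact Submodule.zero_mem _
  exact zero_of_nilpotent κ hm (s := 1) (z := fun _ => x) (ν := fun _ _ => -ν)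
    (fun _ _ => Submodule.neg_mem _ hνn) (fun _ => by
      rw [Finset.univ_unique, Finset.sum_singleton]
      have h1 : C.act (-ν) x = - C.act ν x := by
        rw [← neg_one_smul ℚ ν, C.act_smul, LinearMap.smul_apply, neg_one_smul]
      rw [h1, neg_neg, hνx]) 0

end Coh

end Pool.Agent.K1H14.CI
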