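import Pool.Agent.K1H14.CI.Defs

/-!
# Finite fields: definitions
-/

open CategoryTheory AlgebraicGeometry

universe u v w

namespace Pool.Agent.K1H14.CI

open Pool.Agent.H914 Pool.Agent.H914.VarClass Pool.Agent.H914.VarClass.Obj Pool.Agent.R903

variable {k : Type u} [Field k] {𝒱 : VarClass k}

/-- The pull-back along `F` is the multiplication by `q ^ j` on `CH^j(Y)`, where `q` is the number
of elements of `k`: this is the case for the Frobenius endomorphism of `Y` over the finite
field `k`. -/
def IsFrobenius (C : ChowTheory.{u, v} 𝒱) {Y : 𝒱.Obj} (F : Y ⟶ Y) : Prop :=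
  ∀ j, ∀ x ∈ C.gr Y j, C.pull F x = (Nat.card k : ℚ) ^ j • x

/-- **The conjecture of Tate** for `Y` (in all codimensions): the cohomology classes `a` with
`F^* a = q ^ j a` are linear combinations of classes of algebraic cycles of codimension `j`. (By
the theorem of Deligne on the absolute values of the eigenvalues of Frobenius such classes have
degree `2j`.) -/
def TateConjecture {C : ChowTheory.{u, v} 𝒱} (W : WeilTheory.{u, v, w} C) {Y : 𝒱.Obj}
    (F : Y ⟶ Y) : Prop :=
  ∀ j, ∀ a : W.H Y, W.map F a = (Nat.card k : W.K) ^ j • a →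
    a ∈ Submodule.span W.K (W.cl Y '' (C.gr Y j : Set (C.CH Y)))

end Pool.Agent.K1H14.CI
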