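import Pool.Agent.K1H14.CI.FF
import Pool.Agent.K1H14.CI.FFDefs

/-!
# Finite fields: the growth of the Chow groups of the powers, and the conjectures of Tate and
Beilinson
-/

open CategoryTheory CategoryTheory.Limits AlgebraicGeometry Finset Filter Topology

open scoped TensorProduct ENNReal

universe u v w

namespace Pool.Agent.K1H14.CI

open Pool.Agent.H914 Pool.Agent.H914.VarClass Pool.Agent.H914.VarClass.Obj Pool.Agent.R903
  Pool.Agent.H281R3.HT Pool.Agent.Y129 Pool.Agent.H914.WeilCohomology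

variable {k : Type u} [Field k] {𝒱 : VarClass k} {C : ChowTheory.{u, v} 𝒱} {X Y Z : 𝒱.Obj}

/-- **Growth, Tate and Beilinson.** -/
theorem growth_tate [Finite k] (hC : HasDegree C) (W : WeilTheory.{u, v, w} C) (X : 𝒱.Obj)
    (F : ∀ n, pw X n ⟶ pw X n) (hF : ∀ n, IsFrobenius C (F n)) :
    Tendsto (fun n => (chowDim C (pw X n) : ℝ≥0∞) / numDim C (pw X n)) atTop (𝓝 ⊤) ∨
    ∀ n, TateConjecture W (F n) → numTriv C (pw X n) = ⊥ := by
  obtain ⟨y, -, hy⟩ := hC.exists_ne X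
  obtain ⟨z, hz⟩ := exists_deg_one ⟨y, hy⟩
  set W1 := cohOf hC W with hW1
  set κ1 : ClassMap C W1 := classMapOf hC W with hκ1
  set L := AlgebraicClosure W1.K with hL
  set κ2 := κ1.base L with hκ2
  have : IsAlgClosed (baseW W1 L).K := inferInstanceAs (IsAlgClosed L)
  obtain ⟨N, h1, -, h3⟩ := law_closed κ2 hz
  by_cases hN : N = ⊤
  · left
    rw [hN, ENat.toENNReal_top] at h1
    exact h1
  right
  obtain ⟨hfin, hD, hnil⟩ := h3 hN
  intro n hT
  obtain ⟨p', hp', hp0'⟩ := hC.exists_ne (pw X n)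
  obtain ⟨m, hm⟩ := hnil n
  have hm' : numIdeal κ1 (pw X n) ^ m = ⊥ := hm
  have hfin1 : Module.Finite ℚ (CorrRing C (pw X n)) := by
    obtain ⟨i⟩ := pw_iso X n n (2 * n + 1) (by ring)
    exact finite_of_iso i (hfin (2 * n + 1))
  refine numTriv_eq_bot_of_tate κ1 (F := F n) (q := Nat.card k) (hF n) Nat.card_pos.ne'
    (p := (C.deg _ p')⁻¹ • p') (Submodule.smul_mem _ _ hp') ?_ (homEqNum_base (hD n)) hT hm'
  rw [map_smul, smul_eq_mul, inv_mul_cancel₀ hp0']

end Pool.Agent.K1H14.CI
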