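import Pool.Agent.K1H14.CI.Main

/-!
# The index of the Chow groups of the powers of a variety: the general case
-/

open CategoryTheory CategoryTheory.Limits AlgebraicGeometry Finset Filter Topology

open scoped TensorProduct ENNReal

universe u v w

namespace Pool.Agent.K1H14.CI

open Pool.Agent.H914 Pool.Agent.H914.VarClass Pool.Agent.H914.VarClass.Obj Pool.Agent.R903
  Pool.Agent.H281R3.HT Pool.Agent.Y129 Pool.Agent.H914.WeilCohomology

variable {k : Type u} [Field k] {𝒱 : VarClass k} {C : ChowTheory.{u, v} 𝒱} {X Y Z : 𝒱.Obj}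

section General

variable {ops : CycleOps 𝒱} {W : WeilCohomology.{u, w} ops} (κ : ClassMap C W)

include κ in
lemma finrank_algSpan_le (h : Module.Finite ℚ (C.CH X)) :
    Module.finrank W.K (algSpan W X) ≤ Module.finrank ℚ (C.CH X) := by
  set b := Module.finBasis ℚ (C.CH X) with hb
  have h1 : algSpan W X = Submodule.span W.K (Set.range fun i => κ.cl X (b i)) := by
    rw [algSpan_eq κ]
    apply le_antisymm
    · rw [Submodule.span_le]
      rintro _ ⟨c, rfl⟩
      rw [← b.sum_repr c, map_sum]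
      simp only [κ.cl_smul]
      exact Submodule.sum_mem _ fun i _ => Submodule.smul_mem _ _ (Submodule.subset_span ⟨i, rfl⟩)
    · apply Submodule.span_mono
      rintro _ ⟨i, rfl⟩
      exact ⟨_, rfl⟩
  rw [h1]
  exact (finrank_range_le_card _).trans (by simp)

include κ in
lemma nontrivial_of_deg {z : C.CH X} (hz : C.deg X z = 1) : Nontrivial (W.H X) := by
  refine ⟨⟨κ.cl X z, 0, fun h => ?_⟩⟩
  have h1 := κ.tr_cl X z
  rw [h, map_zero, hz, Rat.cast_one] at h1
  exact zero_ne_one h1

include κ in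
lemma deg_pw {z : C.CH X} (hz : C.deg X z = 1) (n : ℕ) : ∃ w : C.CH (pw X n), C.deg _ w = 1 := by
  induction n with
  | zero => exact ⟨z, hz⟩
  | succ n ih =>
    obtain ⟨w, hw⟩ := ih
    refine ⟨C.pull (fst X (pw X n)) z * C.pull (snd X (pw X n)) w, ?_⟩
    have h1 := κ.deg_push (snd X (pw X n)) (C.pull (fst X (pw X n)) z * C.pull (snd X (pw X n)) w)
    rw [push_snd_section hz, hw] at h1
    exact h1.symm

include κ in
lemma numDim_pos {z : C.CH X} (hz : C.deg X z = 1) : 0 < numDim C X := by
  obtain ⟨r, x, y, h⟩ := exists_dualBases κ X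
  rw [h.numDim_eq]
  by_contra h0
  have hr : r = 0 := by omega
  subst hr
  have h1 := h.span z
  simp only [Finset.univ_eq_empty, Finset.sum_empty, sub_zero] at h1
  have h2 := mem_numTriv.1 h1 1
  rw [mul_one, hz] at h2
  exact one_ne_zero h2

include κ in
/-- The quotients are at least one. -/
lemma one_le_ratio {z : C.CH X} (hz : C.deg X z = 1) :
    1 ≤ (chowDim C X : ℝ≥0∞) / numDim C X := by
  have hpos := numDim_pos κ hz
  by_cases h : Module.Finite ℚ (C.CH X)
  · rw [chowDim_of_finite h, ENNReal.le_div_iff_mul_le (Or.inl (by exact_mod_cast hpos.ne'))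
      (Or.inl (ENNReal.natCast_ne_top _)), one_mul, ENat.toENNReal_coe]
    exact_mod_cast numDim_le h
  · rw [chowDim_of_not_finite h, ENat.toENNReal_top, ENNReal.top_div_of_ne_top
      (ENNReal.natCast_ne_top _)]
    exact le_top

lemma ratio_finite (h : Module.Finite ℚ (C.CH X)) (hpos : 0 < numDim C X) :
    (chowDim C X : ℝ≥0∞) / numDim C X =
      ENNReal.ofReal ((Module.finrank ℚ (C.CH X) : ℝ) / numDim C X) := by
  rw [chowDim_of_finite h, ENat.toENNReal_coe, ENNReal.ofReal_div_of_pos (by exact_mod_cast hpos),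
    ENNReal.ofReal_natCast, ENNReal.ofReal_natCast]

include κ in
/-- The law over an algebraically closed coefficient field. -/
theorem law_closed [IsAlgClosed W.K] {z : C.CH X} (hz : C.deg X z = 1) : ∃ N : ℕ∞,
    Tendsto (fun n => (chowDim C (pw X n) : ℝ≥0∞) / numDim C (pw X n)) atTop (𝓝 (N : ℝ≥0∞)) ∧
    (∀ n, chowDim C (pw X (2 * n + 1)) ≤ N * numDim C (pw X (2 * n + 1))) ∧
    (N ≠ ⊤ → (∀ n, Module.Finite ℚ (C.CH (pw X n))) ∧ (∀ n, HomEqNum W (pw X n)) ∧
      ∀ n, ∃ s : ℕ, numIdeal κ (pw X n) ^ s = ⊥) := by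
  have hpos : ∀ n, 0 < numDim C (pw X n) := by
    intro n
    obtain ⟨w, hw⟩ := deg_pw κ hz n
    exact numDim_pos κ hw
  have htop : ∀ n, (⊤ : ℕ∞) * (numDim C (pw X n) : ℕ∞) = ⊤ := by
    intro n
    exact ENat.top_mul (by exact_mod_cast (hpos n).ne')
  by_cases hfin : ∀ n, Module.Finite ℚ (C.CH (pw X n))
  swap
  · push Not at hfin
    obtain ⟨m, hm⟩ := hfin
    refine ⟨⊤, ?_, fun n => ?_, fun h => absurd rfl h⟩
    · apply tendsto_const_nhds.congr'
      filter_upwards [eventually_ge_atTop m] with n hn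
      rw [chowDim_of_not_finite (fun h => hm (finite_pw_of_le hz hn h)), ENat.toENNReal_top,
        ENNReal.top_div_of_ne_top (ENNReal.natCast_ne_top _)]
    · rw [htop]
      exact le_top
  by_cases hD : ∀ n, HomEqNum W (pw X n)
  swap
  · have hnt := nontrivial_of_deg κ hz
    obtain ⟨N, -, h2, -, -, h5⟩ := Pool.Agent.Y133.Half.stable_index (W := W) (X := X)
      (G := fun n => algSpan W (pw X n))
      (Pool.Agent.Y133.Half.stable_of_sys (T := Pool.Agent.Y133.Half.algSys W)
        (fun _ => le_rfl) X) (fun _ => le_rfl)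
    have hN : N = ⊤ := by
      by_contra hN
      exact hD (h5 hN)
    subst hN
    refine ⟨⊤, ?_, fun n => ?_, fun h => absurd rfl h⟩
    · rw [ENat.toENNReal_top] at h2 ⊢
      refine tendsto_nhds_top_mono h2 (Eventually.of_forall fun n => ?_)
      have h3 : Pool.Agent.Y133.Half.cycRank ops (pw X n) = numDim C (pw X n) := by
        rw [← numRank_eq_numDim κ, Pool.Agent.Y129.numRank_eq_sum]
        rfl
      change (Module.finrank W.K (algSpan W (pw X n)) : ℝ≥0∞) /
        Pool.Agent.Y133.Half.cycRank ops (pw X n) ≤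
        (chowDim C (pw X n) : ℝ≥0∞) / numDim C (pw X n)
      rw [h3, chowDim_of_finite (hfin n), ENat.toENNReal_coe]
      refine ENNReal.div_le_div_right ?_ _
      exact_mod_cast finrank_algSpan_le κ (hfin n)
    · rw [htop]
      exact le_top
  rcases law_closed' κ hz hfin hD with ⟨N, h1, h2, h3⟩ | h1
  · refine ⟨N, ?_, fun n => ?_, fun _ => ⟨hfin, hD, h3⟩⟩
    · have h4 := (ENNReal.continuous_ofReal.tendsto (N : ℝ)).comp h2
      rw [ENNReal.ofReal_natCast] at h4
      rw [ENat.toENNReal_coe]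
      refine h4.congr fun n => ?_
      rw [ratio_finite (hfin n) (hpos n)]
      rfl
    · rw [chowDim_of_finite (hfin _)]
      exact_mod_cast h1 n
  · refine ⟨⊤, ?_, fun n => ?_, fun h => absurd rfl h⟩
    · rw [ENat.toENNReal_top]
      refine (ENNReal.tendsto_ofReal_atTop.comp h1).congr fun n => ?_
      rw [ratio_finite (hfin n) (hpos n)]
      rfl
    · rw [htop]
      exact le_top

lemma mem_pow_of_isComposite {s : ℕ} {γ : C.CH (X.prod X)} (h : IsComposite C X s γ) :
    CorrRing.of C X γ ∈ numIdeal κ X ^ s := by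
  induction h with
  | one γ h =>
    rw [Submodule.pow_one (numIdeal κ X)]
    exact h
  | cons s γ δ h _ ih =>
    rw [Submodule.pow_succ (numIdeal κ X)]
    exact Ideal.mul_mem_mul ih h

include κ in
lemma numTriv_of_prod {z : C.CH X} (hz : C.deg X z = 1) (h : numTriv C (X.prod Y) = ⊥) :
    numTriv C Y = ⊥ := by
  rw [eq_bot_iff]
  intro y hy
  have h1 := pull_numTriv κ (snd X Y) hy
  rw [h, Submodule.mem_bot] at h1
  rw [Submodule.mem_bot]
  apply pull_snd_injective (Y := Y) hz
  rw [h1, map_zero]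

end General

/-- **The index law for the Chow groups of the powers of a variety.** -/
theorem index_law (hC : HasDegree C) (W : WeilTheory.{u, v, w} C) {z : C.CH X}
    (hz : C.deg X z = 1) : ∃ N : ℕ∞, 1 ≤ N ∧
    Tendsto (fun n => (chowDim C (pw X n) : ℝ≥0∞) / numDim C (pw X n)) atTop (𝓝 (N : ℝ≥0∞)) ∧
    (∀ n, chowDim C (pw X (2 * n + 1)) ≤ N * numDim C (pw X (2 * n + 1))) ∧
    (N = 1 ↔ ∀ n, numTriv C (pw X n) = ⊥) ∧
    (N ≠ ⊤ → ∀ n, Module.Finite ℚ (C.CH (pw X n)) ∧
      (∀ x ∈ numTriv C (pw X n), W.cl (pw X n) x = 0) ∧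
      ∃ s : ℕ, ∀ γ, IsComposite C (pw X n) s γ → γ = 0) := by
  set W1 := cohOf hC W with hW1
  set κ1 : ClassMap C W1 := classMapOf hC W with hκ1
  set L := AlgebraicClosure W1.K with hL
  set κ2 := κ1.base L with hκ2
  have : IsAlgClosed (baseW W1 L).K := inferInstanceAs (IsAlgClosed L)
  obtain ⟨N, h1, h2, h3⟩ := law_closed κ2 hz
  have hdeg := deg_pw κ2 hz
  have hpos : ∀ n, 0 < numDim C (pw X n) := by
    intro n
    obtain ⟨w, hw⟩ := hdeg n
    exact numDim_pos κ2 hw
  have hone : 1 ≤ N := by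
    have h4 : (1 : ℝ≥0∞) ≤ (N : ℝ≥0∞) := by
      refine ge_of_tendsto h1 (Eventually.of_forall fun n => ?_)
      obtain ⟨w, hw⟩ := hdeg n
      exact one_le_ratio κ2 hw
    rw [← ENat.toENNReal_one] at h4
    exact ENat.toENNReal_le.1 h4
  refine ⟨N, hone, h1, h2, ⟨fun hN => ?_, fun h => ?_⟩, fun hN n => ?_⟩
  · -- the odd powers
    have hodd : ∀ n, numTriv C (pw X (2 * n + 1)) = ⊥ := by
      intro n
      have h4 := h2 n
      have hf : Module.Finite ℚ (C.CH (pw X (2 * n + 1))) := by
        by_contra hf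
        rw [chowDim_of_not_finite hf, hN, one_mul, top_le_iff] at h4
        exact ENat.natCast_ne_top _ h4
      rw [chowDim_of_finite hf, hN, one_mul] at h4
      have h5 : Module.finrank ℚ (C.CH (pw X (2 * n + 1))) ≤ numDim C (pw X (2 * n + 1)) := by
        exact_mod_cast h4
      have h6 := Submodule.finrank_quotient_add_finrank (numTriv C (pw X (2 * n + 1)))
      have h7 : numDim C (pw X (2 * n + 1)) =
        Module.finrank ℚ (C.CH (pw X (2 * n + 1)) ⧸ numTriv C (pw X (2 * n + 1))) := rfl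
      rw [← Submodule.finrank_eq_zero]
      omega
    intro n
    rw [eq_bot_iff]
    intro x hx
    rw [Submodule.mem_bot]
    -- pull back to a higher power
    have h8 : ∀ m n : ℕ, m ≤ n → numTriv C (pw X n) = ⊥ → numTriv C (pw X m) = ⊥ := by
      intro m n hmn
      induction n, hmn using Nat.le_induction with
      | base => exact id
      | succ n _ ih =>
        intro h9
        exact ih (numTriv_of_prod κ2 hz h9)
    have h9 := h8 n (2 * n + 1) (by omega) (hodd n)
    rw [h9, Submodule.mem_bot] at hx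
    exact hx
  · have h4 : ∀ n, (chowDim C (pw X n) : ℝ≥0∞) / numDim C (pw X n) = 1 := by
      intro n
      obtain ⟨r, x, y, hxy⟩ := exists_dualBases κ2 (pw X n)
      have hf0 := hxy.finite
      have hf : Module.Finite ℚ (C.CH (pw X n)) := by
        refine Module.Finite.of_injective (numTriv C (pw X n)).mkQ ?_
        rw [← LinearMap.ker_eq_bot, Submodule.ker_mkQ, h n]
      have h6 := Submodule.finrank_quotient_add_finrank (numTriv C (pw X n))
      have h7 : numDim C (pw X n) =
        Module.finrank ℚ (C.CH (pw X n) ⧸ numTriv C (pw X n)) := rfl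
      have h8 : Module.finrank ℚ (numTriv C (pw X n)) = 0 := by
        rw [h n]
        exact finrank_bot ℚ _
      have h9 : numDim C (pw X n) = Module.finrank ℚ (C.CH (pw X n)) := by omega
      rw [chowDim_of_finite hf, h9, ENat.toENNReal_coe]
      refine ENNReal.div_self ?_ (ENNReal.natCast_ne_top _)
      have := hpos n
      exact_mod_cast (show Module.finrank ℚ (C.CH (pw X n)) ≠ 0 by omega)
    simp only [h4] at h1
    have h5 := tendsto_nhds_unique h1 tendsto_const_nhds
    rw [← ENat.toENNReal_one] at h5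
    exact ENat.toENNReal_inj.1 h5
  · obtain ⟨h4, h5, h6⟩ := h3 hN
    refine ⟨h4 n, fun x hx => ?_, ?_⟩
    · have h7 := homEqNum_algSpan (h5 n) (cl_mem_algSpan κ2 x) (cl_transcendental κ2 hx)
      have h8 : (1 : L) ⊗ₜ[W1.K] (κ1.cl _ x) = 0 := h7
      have hinj : Function.Injective
          (Algebra.TensorProduct.includeRight : W1.H (pw X n) →ₐ[W1.K] L ⊗[W1.K] W1.H (pw X n)) :=
        Algebra.TensorProduct.includeRight_injective (algebraMap W1.K L).injective
      have h9 : κ1.cl _ x = 0 := by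
        apply hinj
        rw [map_zero]
        exact h8
      exact h9
    · obtain ⟨s, hs⟩ := h6 n
      refine ⟨s, fun γ hγ => ?_⟩
      have h7 := mem_pow_of_isComposite κ2 hγ
      rw [hs, Submodule.mem_bot] at h7
      exact h7

end Pool.Agent.K1H14.CI
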