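import Pool.Agent.K1H14.CI.GapDefs
import Pool.Agent.K1H14.CI.Final

/-!
# Systems of correspondences which are dual modulo degenerate correspondences
-/

open CategoryTheory CategoryTheory.Limits AlgebraicGeometry Finset Filter Topology

open scoped TensorProduct ENNReal

universe u v w

namespace Pool.Agent.K1H14.CI

open Pool.Agent.H914 Pool.Agent.H914.VarClass Pool.Agent.H914.VarClass.Obj Pool.Agent.R903
  Pool.Agent.H281R3.HT Pool.Agent.Y129 Pool.Agent.H914.WeilCohomology

variable {k : Type u} [Field k] {𝒱 : VarClass k} {C : ChowTheory.{u, v} 𝒱} {X Y Z : 𝒱.Obj}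

lemma ext_comp (a : C.CH X) (b : C.CH Y) (Γ : C.CH (Y.prod Z)) :
    C.comp (C.ext a b) Γ = C.ext a (C.act Γ b) := by
  have h1 : C.pull (R903.p12 X Y Z) (C.ext a b) * C.pull (snd X (Y.prod Z)) Γ =
      C.pull (R903.p13 X Y Z) (C.pull (fst X Z) a) *
        C.pull (snd X (Y.prod Z)) (C.pull (fst Y Z) b * Γ) := by
    rw [ChowTheory.ext, C.pull_mul, C.pull_mul, ← C.pull_comp, ← C.pull_comp, ← C.pull_comp,
      ← C.pull_comp, p12_fst, p12_snd, p13_fst]
    ring
  rw [ChowTheory.comp, h1, C.mul_push, ← C.bc2, C.act_apply, ChowTheory.ext,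
    mul_comm (C.pull (fst Y Z) b) Γ]

lemma transp_ext (a : C.CH X) (b : C.CH Y) : C.transp (C.ext a b) = C.ext b a := by
  rw [ChowTheory.transp, ChowTheory.ext, C.pull_mul, ← C.pull_comp, ← C.pull_comp,
    R903.swap_fst, R903.swap_snd, mul_comm]
  rfl

lemma transp_transp (γ : C.CH (X.prod Y)) : C.transp (C.transp γ) = γ := by
  have h1 : R903.swap X Y ≫ R903.swap Y X = 𝟙 (X.prod Y) := by
    apply hom_ext_prod <;> simp
  rw [ChowTheory.transp, ChowTheory.transp, ← C.pull_comp, h1, C.pull_id]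

lemma comp_ext (Γ : C.CH (X.prod Y)) (a : C.CH Y) (b : C.CH Z) :
    C.comp Γ (C.ext a b) = C.ext (C.act (C.transp Γ) a) b := by
  rw [← transp_transp (C.comp Γ (C.ext a b)), ← C.comp_transp, transp_ext, ext_comp, transp_ext]

lemma mem_degen_ext (a : C.CH X) (b : C.CH Y) : C.ext a b ∈ degen C X Y :=
  Submodule.mem_sup_right (Submodule.subset_span ⟨a, b, rfl⟩)

lemma mem_degen_num {γ : C.CH (X.prod Y)} (h : γ ∈ numTriv C (X.prod Y)) : γ ∈ degen C X Y :=
  Submodule.mem_sup_left h

/-- Induction for degenerate correspondences. -/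
lemma degen_induction {p : C.CH (X.prod Y) → Prop} (hnum : ∀ γ ∈ numTriv C (X.prod Y), p γ)
    (hext : ∀ a b, p (C.ext a b)) (hadd : ∀ α β, p α → p β → p (α + β))
    (hsmul : ∀ (q : ℚ) α, p α → p (q • α)) {γ : C.CH (X.prod Y)} (h : γ ∈ degen C X Y) : p γ := by
  obtain ⟨α, hα, β, hβ, rfl⟩ := Submodule.mem_sup.1 h
  refine hadd _ _ (hnum _ hα) ?_
  clear h
  induction hβ using Submodule.span_induction with
  | mem x hx =>
    obtain ⟨a, b, rfl⟩ := hx
    exact hext a b
  | zero => exact hnum 0 (Submodule.zero_mem _)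
  | add x y _ _ hx hy => exact hadd _ _ hx hy
  | smul r x _ hx => exact hsmul _ _ hx

section Coh

variable {ops : CycleOps 𝒱} {W : WeilCohomology.{u, w} ops} (κ : ClassMap C W)

include κ in
lemma degen_comp_left {α : C.CH (X.prod Y)} (hα : α ∈ degen C X Y) (β : C.CH (Y.prod Z)) :
    C.comp α β ∈ degen C X Z := by
  refine degen_induction (p := fun α => C.comp α β ∈ degen C X Z) ?_ ?_ ?_ ?_ hα
  · intro γ hγ
    exact mem_degen_num (numTriv_comp_left κ hγ β)
  · intro a b
    rw [ext_comp]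
    exact mem_degen_ext _ _
  · intro α α' h h'
    rw [C.add_comp]
    exact Submodule.add_mem _ h h'
  · intro q α h
    rw [C.smul_comp]
    exact Submodule.smul_mem _ _ h

include κ in
lemma degen_comp_right (α : C.CH (X.prod Y)) {β : C.CH (Y.prod Z)} (hβ : β ∈ degen C Y Z) :
    C.comp α β ∈ degen C X Z := by
  refine degen_induction (p := fun β => C.comp α β ∈ degen C X Z) ?_ ?_ ?_ ?_ hβ
  · intro γ hγ
    exact mem_degen_num (numTriv_comp_right κ α hγ)
  · intro a b
    rw [comp_ext]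
    exact mem_degen_ext _ _
  · intro α α' h h'
    rw [C.comp_add]
    exact Submodule.add_mem _ h h'
  · intro q α h
    rw [C.comp_smul]
    exact Submodule.smul_mem _ _ h

/-- A degenerate correspondence acts on numerically trivial classes as a numerically trivial one. -/
lemma degen_act {γ : C.CH (X.prod Y)} (h : γ ∈ degen C X Y) :
    ∃ ν ∈ numTriv C (X.prod Y), ∀ z ∈ numTriv C X, C.act γ z = C.act ν z := by
  refine degen_induction (p := fun γ => ∃ ν ∈ numTriv C (X.prod Y), ∀ z ∈ numTriv C X,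
    C.act γ z = C.act ν z) ?_ ?_ ?_ ?_ h
  · intro γ hγ
    exact ⟨γ, hγ, fun _ _ => rfl⟩
  · intro a b
    refine ⟨0, Submodule.zero_mem _, fun z hz => ?_⟩
    rw [C.act_ext, mem_numTriv.1 hz a, zero_smul, C.act_zero, LinearMap.zero_apply]
  · rintro α β ⟨ν, hν, h1⟩ ⟨μ, hμ, h2⟩
    refine ⟨ν + μ, Submodule.add_mem _ hν hμ, fun z hz => ?_⟩
    rw [C.act_add, C.act_add, LinearMap.add_apply, LinearMap.add_apply, h1 z hz, h2 z hz]
  · rintro q α ⟨ν, hν, h1⟩
    refine ⟨q • ν, Submodule.smul_mem _ _ hν, fun z hz => ?_⟩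
    rw [C.act_smul, C.act_smul, LinearMap.smul_apply, LinearMap.smul_apply, h1 z hz]

/-! ### the complement of the algebraic part -/

section Pi

variable {r : ℕ} {x y : Fin r → C.CH X}

/-- The transcendental projector given by dual bases. -/
noncomputable def piTr (x y : Fin r → C.CH X) : C.CH (X.prod X) :=
  C.diagC X - ∑ i, C.ext (y i) (x i)

lemma piTr_comp (Γ : C.CH (X.prod Y)) :
    C.comp (piTr x y) Γ = Γ - ∑ i, C.ext (y i) (C.act Γ (x i)) := by
  have h1 : C.comp (piTr x y) Γ + C.comp (∑ i, C.ext (y i) (x i)) Γ = Γ := by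
    rw [← C.add_comp, piTr, sub_add_cancel, C.diagC_comp]
  rw [C.sum_comp] at h1
  simp only [ext_comp] at h1
  exact eq_sub_of_add_eq h1

include κ in
lemma piTr_degen (h : DualBases C X x y) {Γ : C.CH (X.prod Y)} (hΓ : Γ ∈ degen C X Y) :
    C.comp (piTr x y) Γ ∈ numTriv C (X.prod Y) := by
  refine degen_induction (p := fun Γ => C.comp (piTr x y) Γ ∈ numTriv C (X.prod Y)) ?_ ?_ ?_ ?_ hΓ
  · intro γ hγ
    exact numTriv_comp_right κ _ hγ
  · intro a b
    rw [piTr_comp]
    have h1 : C.ext a b - ∑ i, C.ext (y i) (C.act (C.ext a b) (x i)) =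
        C.ext (a - ∑ i, C.deg X (x i * a) • y i) b := by
      simp only [C.act_ext]
      simp only [ChowTheory.ext, map_smul, mul_smul_comm, map_sub, map_sum, sub_mul,
        Finset.sum_mul, smul_mul_assoc]
    rw [h1]
    have h2 : a - ∑ i, C.deg X (x i * a) • y i ∈ numTriv C X := by
      rw [mem_numTriv]
      intro v
      have h3 := mem_numTriv.1 (h.span v) a
      rw [sub_mul, map_sub, Finset.sum_mul, map_sum] at h3 ⊢
      simp only [smul_mul_assoc, map_smul, smul_eq_mul] at h3 ⊢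
      rw [mul_comm a v]
      rw [← h3]
      congr 1
      apply Finset.sum_congr rfl
      intro i _
      rw [mul_comm (y i) v, mul_comm]
    rw [ChowTheory.ext]
    exact numTriv_mul (pull_numTriv κ _ h2) _
  · intro α β h1 h2
    rw [C.comp_add]
    exact Submodule.add_mem _ h1 h2
  · intro q α h1
    rw [C.comp_smul]
    exact Submodule.smul_mem _ _ h1

lemma piTr_sub_mem (Γ : C.CH (X.prod Y)) : Γ - C.comp (piTr x y) Γ ∈ degen C X Y := by
  rw [piTr_comp, sub_sub_cancel]
  exact Submodule.sum_mem _ fun i _ => mem_degen_ext _ _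

end Pi

/-! ### cohomology -/

lemma corr_ext_cl (a : C.CH X) (b : C.CH Y) (h : W.H X) :
    W.corr (κ.cl _ (C.ext a b)) h = W.tr X (κ.cl X a * h) • κ.cl Y b := by
  have h1 : κ.cl _ (C.ext a b) = W.map (H914.swap X Y)
      (W.map (fst Y X) (κ.cl Y b) * W.map (snd Y X) (κ.cl X a)) := by
    rw [← κ.cl_pull, ← κ.cl_pull, ← map_mul, ← κ.cl_pull]
    congr 1
    have := transp_ext b a
    rw [ChowTheory.transp] at this
    exact this.symm
  rw [h1, ← opL_apply, opL_tmul]
  rfl

lemma transcendental_of_perp' (hY : Good W Y X) {c : W.H (X.prod Y)}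
    (hc : c ∈ algSpan W (X.prod Y)) (h : W.corr c ∈ perp (CC W) X Y) :
    c ∈ transcendental W (X.prod Y) := by
  have h1 : W.map (H914.swap Y X) c ∈ transcendental W (Y.prod X) := by
    rw [hY _ (map_algSpan _ hc), opL_apply, Y129.swap_swap]
    exact h
  have h2 := map_transcendental (H914.swap X Y) h1
  rw [Y129.swap_swap] at h2
  exact h2

lemma perp_of_transcendental' (hY : Good W Y X) {c : W.H (X.prod Y)}
    (hc : c ∈ algSpan W (X.prod Y)) (h : c ∈ transcendental W (X.prod Y)) :
    W.corr c ∈ perp (CC W) X Y := by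
  have h1 : W.map (H914.swap Y X) c ∈ transcendental W (Y.prod X) := map_transcendental _ h
  rw [hY _ (map_algSpan _ hc), opL_apply, Y129.swap_swap] at h1
  exact h1

lemma numTriv_iff_perp (hY : Good W Y X) {γ : C.CH (X.prod Y)} :
    γ ∈ numTriv C (X.prod Y) ↔ W.corr (κ.cl _ γ) ∈ perp (CC W) X Y :=
  ⟨fun h => perp_of_transcendental' hY (cl_mem_algSpan κ γ) (cl_transcendental κ h),
    fun h => mem_numTriv_of_cl κ (transcendental_of_perp' hY (cl_mem_algSpan κ γ) h)⟩

include κ in
/-- Nondegeneracy: a correspondence from `X` to `Y` whose composites with the correspondences from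
`Y` to `X` are all degenerate is degenerate. -/
lemma degen_of_comp (hYX : Good W Y X) (hXX : Good W X X) {r : ℕ} {x y : Fin r → C.CH X}
    (h : DualBases C X x y) {G : C.CH (X.prod Y)}
    (hG : ∀ Δ : C.CH (Y.prod X), C.comp G Δ ∈ degen C X X) : G ∈ degen C X Y := by
  have h1 : C.comp (piTr x y) G ∈ numTriv C (X.prod Y) := by
    rw [numTriv_iff_perp κ hYX]
    intro g hg
    obtain ⟨c, hc, rfl⟩ := exists_corr_eq hg
    rw [algSpan_eq κ] at hc
    clear hg
    induction hc using Submodule.span_induction with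
    | mem c hc =>
      obtain ⟨Δ, rfl⟩ := hc
      rw [← κ.corr_comp, C.comp_assoc]
      have h2 : C.comp (piTr x y) (C.comp G Δ) ∈ numTriv C (X.prod X) :=
        piTr_degen κ h (hG Δ)
      rw [numTriv_iff_perp κ hXX] at h2
      have h3 := h2 _ (isCat_CC.id_mem X)
      rw [LinearMap.id_comp] at h3
      exact h3
    | zero => rw [W.corr_zero, LinearMap.zero_comp, map_zero]
    | add a b _ _ ha hb => rw [W.corr_add, LinearMap.add_comp, map_add, ha, hb, add_zero]
    | smul r a _ ha => rw [W.corr_smul, LinearMap.smul_comp, map_smul, ha, smul_zero]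
  have h2 := Submodule.add_mem _ (mem_degen_num h1) (piTr_sub_mem (x := x) (y := y) G)
  rw [add_sub_cancel] at h2
  exact h2

/-! ### systems -/

/-- The correspondences `Γ i` from `X` to `Y` and `Γ' j` from `Y` to `X` are dual modulo degenerate
correspondences. -/
def IsSystem (C : ChowTheory.{u, v} 𝒱) (X Y : 𝒱.Obj) {s : ℕ} (Γ : Fin s → C.CH (X.prod Y))
    (Γ' : Fin s → C.CH (Y.prod X)) : Prop :=
  ∀ i j, C.comp (Γ i) (Γ' j) - (if i = j then C.diagC X else 0) ∈ degen C X X

lemma sub_comp (α α' : C.CH (X.prod Y)) (β : C.CH (Y.prod Z)) :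
    C.comp (α - α') β = C.comp α β - C.comp α' β := by
  rw [eq_sub_iff_add_eq, ← C.add_comp, sub_add_cancel]

lemma comp_sub (α : C.CH (X.prod Y)) (β β' : C.CH (Y.prod Z)) :
    C.comp α (β - β') = C.comp α β - C.comp α β' := by
  rw [eq_sub_iff_add_eq, ← C.comp_add, sub_add_cancel]

include κ in
lemma IsSystem.left {s : ℕ} {Γ : Fin s → C.CH (X.prod Y)} {Γ' : Fin s → C.CH (Y.prod X)}
    (h : IsSystem C X Y Γ Γ') (A : C.CH (Y.prod X)) (i : Fin s) :
    C.comp (Γ i) (A - ∑ l, C.comp (Γ' l) (C.comp (Γ l) A)) ∈ degen C X X := by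
  have h1 : C.comp (Γ i) (A - ∑ l, C.comp (Γ' l) (C.comp (Γ l) A)) =
      - ∑ l, C.comp (C.comp (Γ i) (Γ' l) - if i = l then C.diagC X else 0)
        (C.comp (Γ l) A) := by
    have h2 : ∀ l, C.comp (C.comp (Γ i) (Γ' l) - if i = l then C.diagC X else 0)
        (C.comp (Γ l) A) = C.comp (C.comp (Γ i) (Γ' l)) (C.comp (Γ l) A) -
          if i = l then C.comp (Γ l) A else 0 := by
      intro l
      rw [sub_comp]
      congr 1
      split_ifs
      · rw [C.diagC_comp]
      · rw [C.zero_comp]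
    simp only [h2, Finset.sum_sub_distrib, Finset.sum_ite_eq, Finset.mem_univ, if_true]
    rw [comp_sub, C.comp_sum]
    simp only [C.comp_assoc]
    abel
  rw [h1]
  exact Submodule.neg_mem _ (Submodule.sum_mem _ fun l _ => degen_comp_left κ (h i l) _)

include κ in
lemma IsSystem.right {s : ℕ} {Γ : Fin s → C.CH (X.prod Y)} {Γ' : Fin s → C.CH (Y.prod X)}
    (h : IsSystem C X Y Γ Γ') (A : C.CH (X.prod Y)) (j : Fin s) :
    C.comp (A - ∑ l, C.comp (C.comp A (Γ' l)) (Γ l)) (Γ' j) ∈ degen C X X := by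
  have h1 : C.comp (A - ∑ l, C.comp (C.comp A (Γ' l)) (Γ l)) (Γ' j) =
      - ∑ l, C.comp (C.comp A (Γ' l))
        (C.comp (Γ l) (Γ' j) - if l = j then C.diagC X else 0) := by
    have h2 : ∀ l, C.comp (C.comp A (Γ' l))
        (C.comp (Γ l) (Γ' j) - if l = j then C.diagC X else 0) =
          C.comp (C.comp A (Γ' l)) (C.comp (Γ l) (Γ' j)) -
          if l = j then C.comp A (Γ' l) else 0 := by
      intro l
      rw [comp_sub]
      congr 1
      split_ifs
      · rw [C.comp_diagC]
      · rw [C.comp_zero]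
    simp only [h2, Finset.sum_sub_distrib, Finset.sum_ite_eq', Finset.mem_univ, if_true]
    rw [sub_comp, C.sum_comp]
    simp only [C.comp_assoc]
    abel
  rw [h1]
  exact Submodule.neg_mem _ (Submodule.sum_mem _ fun l _ => degen_comp_right κ _ (h l j))

include κ in
/-- A system which does not generate can be enlarged. -/
lemma IsSystem.enlarge (hdiv : IsDivision C X) (hYX : Good W Y X) (hXX : Good W X X) {s : ℕ}
    {Γ : Fin s → C.CH (X.prod Y)} {Γ' : Fin s → C.CH (Y.prod X)} (h : IsSystem C X Y Γ Γ')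
    {A : C.CH (X.prod Y)} (hA : A - ∑ l, C.comp (C.comp A (Γ' l)) (Γ l) ∉ degen C X Y) :
    ∃ (Δ : Fin (s + 1) → C.CH (X.prod Y)) (Δ' : Fin (s + 1) → C.CH (Y.prod X)),
      IsSystem C X Y Δ Δ' := by
  obtain ⟨r, x, y, hxy⟩ := exists_dualBases κ X
  set G := A - ∑ l, C.comp (C.comp A (Γ' l)) (Γ l) with hG
  have h1 : ∃ Δ : C.CH (Y.prod X), C.comp G Δ ∉ degen C X X := by
    by_contra hcon
    push Not at hcon
    exact hA (degen_of_comp κ hYX hXX hxy hcon)
  obtain ⟨Δ, hΔ⟩ := h1
  obtain ⟨E, hE⟩ := hdiv.inv _ hΔ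
  rw [C.comp_assoc] at hE
  set D := C.comp Δ E with hD
  set D' := D - ∑ l, C.comp (Γ' l) (C.comp (Γ l) D) with hD'
  have h2 : C.comp G D' - C.diagC X ∈ degen C X X := by
    have h3 : C.comp G D' - C.diagC X = (C.comp G D - C.diagC X) -
        ∑ l, C.comp (C.comp G (Γ' l)) (C.comp (Γ l) D) := by
      rw [hD', comp_sub, C.comp_sum]
      simp only [C.comp_assoc]
      abel
    rw [h3]
    refine Submodule.sub_mem _ hE (Submodule.sum_mem _ fun l _ => ?_)
    exact degen_comp_left κ (h.right κ A l) _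
  refine ⟨Fin.snoc Γ G, Fin.snoc Γ' D', ?_⟩
  intro i j
  refine Fin.lastCases ?_ (fun i => ?_) i
  · refine Fin.lastCases ?_ (fun j => ?_) j
    · rw [Fin.snoc_last, Fin.snoc_last, if_pos rfl]
      exact h2
    · rw [Fin.snoc_last, Fin.snoc_castSucc, if_neg (Fin.castSucc_lt_last j).ne', sub_zero]
      exact h.right κ A j
  · refine Fin.lastCases ?_ (fun j => ?_) j
    · rw [Fin.snoc_last, Fin.snoc_castSucc, if_neg (Fin.castSucc_lt_last i).ne, sub_zero]
      exact h.left κ D i
    · rw [Fin.snoc_castSucc, Fin.snoc_castSucc]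
      have h3 := h i j
      simpa using h3

/-! ### the action on numerically trivial classes -/

include κ in
lemma act_numTriv (Γ : C.CH (X.prod Y)) {z : C.CH X} (hz : z ∈ numTriv C X) :
    C.act Γ z ∈ numTriv C Y := by
  rw [mem_numTriv] at hz ⊢
  intro y
  rw [C.act_apply, ← C.push_mul, κ.deg_push, ← κ.deg_push (fst X Y)]
  have h1 : Γ * C.pull (fst X Y) z * C.pull (snd X Y) y =
      C.pull (fst X Y) z * (Γ * C.pull (snd X Y) y) := by ring
  rw [h1, C.mul_push]
  exact hz _

lemma zero_of_nilpotent {s m : ℕ} (hm : numIdeal κ X ^ m = ⊥) {z : Fin s → C.CH X}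
    {ν : Fin s → Fin s → C.CH (X.prod X)} (hν : ∀ i j, ν i j ∈ numTriv C (X.prod X))
    (h : ∀ j, z j = - ∑ i, C.act (ν i j) (z i)) (j : Fin s) : z j = 0 := by
  have key : ∀ k n : ℕ, n + k = m → ∀ a : CorrRing C X, a ∈ numIdeal κ X ^ (n + 1) →
      ∀ j, C.act ((CorrRing.of C X).symm a) (z j) = 0 := by
    intro k
    induction k with
    | zero =>
      intro n hn a ha j
      rw [add_zero] at hn
      subst hn
      rw [Submodule.pow_succ (numIdeal κ X), hm] at ha
      have h1 : a ∈ (⊥ : Ideal (CorrRing C X)) := by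
        have h2 : (⊥ : Ideal (CorrRing C X)) * numIdeal κ X = ⊥ := Ideal.bot_mul _
        rw [← h2]
        exact ha
      rw [Submodule.mem_bot] at h1
      rw [h1, map_zero, C.act_zero, LinearMap.zero_apply]
    | succ k ih =>
      intro n hn a ha j
      rw [h j, map_neg, map_sum, neg_eq_zero]
      refine Finset.sum_eq_zero fun i _ => ?_
      rw [← C.act_comp]
      refine ih (n + 1) (by omega) (CorrRing.of C X (C.comp (ν i j) ((CorrRing.of C X).symm a)))
        ?_ i
      rw [Submodule.pow_succ (numIdeal κ X)]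
      exact Ideal.mul_mem_mul ha (hν i j)
  rcases Nat.eq_zero_or_pos m with h0 | h0
  · subst h0
    have h1 := key 0 0 rfl
    rw [h j, neg_eq_zero]
    refine Finset.sum_eq_zero fun i _ => ?_
    refine h1 (CorrRing.of C X (ν i j)) ?_ i
    rw [zero_add, Submodule.pow_one (numIdeal κ X)]
    exact hν i j
  · have h1 := key m 0 (zero_add m)
    rw [h j, neg_eq_zero]
    refine Finset.sum_eq_zero fun i _ => ?_
    refine h1 (CorrRing.of C X (ν i j)) ?_ i
    rw [zero_add, Submodule.pow_one (numIdeal κ X)]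
    exact hν i j

lemma IsSystem.injective {m : ℕ} (hm : numIdeal κ X ^ m = ⊥) {s : ℕ}
    {Γ : Fin s → C.CH (X.prod Y)} {Γ' : Fin s → C.CH (Y.prod X)} (h : IsSystem C X Y Γ Γ')
    {z : Fin s → C.CH X} (hz : ∀ i, z i ∈ numTriv C X) (h0 : ∑ i, C.act (Γ i) (z i) = 0)
    (j : Fin s) : z j = 0 := by
  choose ν hν hν' using fun i j => degen_act (h i j)
  refine zero_of_nilpotent κ hm hν (fun j => ?_) j
  have h1 : ∑ i, C.act (C.comp (Γ i) (Γ' j)) (z i) = 0 := by
    have h2 := congrArg (C.act (Γ' j)) h0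
    rw [map_sum, map_zero] at h2
    simpa only [C.act_comp] using h2
  have h2 : ∀ i, C.act (C.comp (Γ i) (Γ' j)) (z i) =
      C.act (ν i j) (z i) + if i = j then z i else 0 := by
    intro i
    rw [← hν' i j (z i) (hz i), C.act_sub, LinearMap.sub_apply]
    split_ifs
    · rw [C.act_diagC, sub_add_cancel]
    · rw [C.act_zero, LinearMap.zero_apply, sub_zero, add_zero]
  simp only [h2, Finset.sum_add_distrib, Finset.sum_ite_eq', Finset.mem_univ, if_true] at h1
  rw [add_comm] at h1
  exact eq_neg_of_add_eq_zero_left h1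

lemma IsSystem.mul_le {m : ℕ} (hm : numIdeal κ X ^ m = ⊥) {s : ℕ}
    {Γ : Fin s → C.CH (X.prod Y)} {Γ' : Fin s → C.CH (Y.prod X)} (h : IsSystem C X Y Γ Γ')
    [Module.Finite ℚ (C.CH X)] [Module.Finite ℚ (C.CH Y)] :
    s * Module.finrank ℚ (numTriv C X) ≤ Module.finrank ℚ (numTriv C Y) := by
  set φ : (Fin s → numTriv C X) →ₗ[ℚ] numTriv C Y :=
    LinearMap.codRestrict (numTriv C Y)
      (∑ i, (C.act (Γ i)) ∘ₗ (numTriv C X).subtype ∘ₗ LinearMap.proj i) (fun z => by
        rw [LinearMap.sum_apply]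
        exact Submodule.sum_mem _ fun i _ => act_numTriv κ (Γ i) (z i).2) with hφ
  have h1 : Function.Injective φ := by
    rw [← LinearMap.ker_eq_bot, LinearMap.ker_eq_bot']
    intro z hz
    have h2 : ∑ i, C.act (Γ i) (z i : C.CH X) = 0 := by
      have h3 := congrArg (Submodule.subtype _) hz
      rw [map_zero] at h3
      rw [← h3, hφ]
      simp
    funext j
    exact Subtype.ext (h.injective κ hm (z := fun i => (z i : C.CH X)) (fun i => (z i).2) h2 j)
  have h2 := LinearMap.finrank_le_finrank_of_injective h1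
  rw [Module.finrank_pi_fintype, Finset.sum_const, Finset.card_univ, Fintype.card_fin,
    smul_eq_mul] at h2
  exact h2

include κ in
/-- There are systems which generate modulo degenerate correspondences. -/
lemma exists_generating (hdiv : IsDivision C X) (hYX : Good W Y X) (hXX : Good W X X) {m : ℕ}
    (hm : numIdeal κ X ^ m = ⊥) [Module.Finite ℚ (C.CH X)] [Module.Finite ℚ (C.CH Y)]
    (ht : 0 < Module.finrank ℚ (numTriv C X)) :
    ∃ (s : ℕ) (Γ : Fin s → C.CH (X.prod Y)) (Γ' : Fin s → C.CH (Y.prod X)),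
      IsSystem C X Y Γ Γ' ∧ ∀ A, A - ∑ l, C.comp (C.comp A (Γ' l)) (Γ l) ∈ degen C X Y := by
  by_contra hcon
  push Not at hcon
  have h1 : ∀ s : ℕ, ∃ (Γ : Fin s → C.CH (X.prod Y)) (Γ' : Fin s → C.CH (Y.prod X)),
      IsSystem C X Y Γ Γ' := by
    intro s
    induction s with
    | zero => exact ⟨fun i => i.elim0, fun i => i.elim0, fun i => i.elim0⟩
    | succ s ih =>
      obtain ⟨Γ, Γ', h⟩ := ih
      obtain ⟨A, hA⟩ := hcon s Γ Γ' h
      exact h.enlarge κ hdiv hYX hXX hA
  obtain ⟨Γ, Γ', h⟩ := h1 (Module.finrank ℚ (numTriv C Y) + 1)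
  have h2 := h.mul_le κ hm
  nlinarith

lemma numTriv_le_degen : numTriv C (X.prod Y) ≤ degen C X Y := le_sup_left

include κ in
lemma finite_quot_degen (X Y : 𝒱.Obj) : Module.Finite ℚ (C.CH (X.prod Y) ⧸ degen C X Y) := by
  obtain ⟨r, x, y, hxy⟩ := exists_dualBases κ (X.prod Y)
  have := hxy.finite
  exact Module.Finite.of_surjective (Submodule.factor (numTriv_le_degen (C := C) (X := X) (Y := Y)))
    (Submodule.factor_surjective _)

include κ in
lemma transDim_pos (hdiv : IsDivision C X) : 0 < transDim C X := by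
  have h1 := finite_quot_degen κ X X
  rw [transDim, Module.finrank_pos_iff]
  refine ⟨⟨(degen C X X).mkQ (C.diagC X), 0, fun h => hdiv.one ?_⟩⟩
  rwa [Submodule.mkQ_apply, Submodule.Quotient.mk_eq_zero] at h

/-- The upper bound for the operators on the transcendental part. -/
lemma IsSystem.nd_le (hYX : Good W Y X) {r : ℕ} {x y : Fin r → C.CH X}
    (hxy : DualBases C X x y) {s : ℕ} {Γ : Fin s → C.CH (X.prod Y)}
    {Γ' : Fin s → C.CH (Y.prod X)}
    (hgen : ∀ A, A - ∑ l, C.comp (C.comp A (Γ' l)) (Γ l) ∈ degen C X Y) :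
    nd (CC W) X Y (sand (CC W) X Y LinearMap.id (W.corr (κ.cl _ (piTr x y)))) ≤
      s * transDim C X := by
  have hfin := finite_quot_degen κ X X
  set B := Module.finBasis ℚ (C.CH (X.prod X) ⧸ degen C X X) with hB
  have hb : ∀ l, ∃ b, (degen C X X).mkQ b = B l := fun l => (degen C X X).mkQ_surjective _
  choose b hb using hb
  have hE : ∀ E : C.CH (X.prod X), E - ∑ l, B.repr ((degen C X X).mkQ E) l • b l ∈
      degen C X X := by
    intro E
    rw [← Submodule.Quotient.mk_eq_zero, ← Submodule.mkQ_apply, map_sub, map_sum]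
    simp only [map_smul, hb]
    rw [B.sum_repr, sub_self]
  -- the decomposition
  have hdec : ∀ A : C.CH (X.prod Y), C.comp (piTr x y) A -
      ∑ i, ∑ l, B.repr ((degen C X X).mkQ (C.comp A (Γ' i))) l •
        C.comp (piTr x y) (C.comp (b l) (Γ i)) ∈ numTriv C (X.prod Y) := by
    intro A
    have h1 : C.comp (piTr x y) A -
        ∑ i, ∑ l, B.repr ((degen C X X).mkQ (C.comp A (Γ' i))) l •
          C.comp (piTr x y) (C.comp (b l) (Γ i)) =
        C.comp (piTr x y) ((A - ∑ l, C.comp (C.comp A (Γ' l)) (Γ l)) + ∑ i,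
          C.comp (C.comp A (Γ' i) -
            ∑ l, B.repr ((degen C X X).mkQ (C.comp A (Γ' i))) l • b l) (Γ i)) := by
      have h2 : (A - ∑ l, C.comp (C.comp A (Γ' l)) (Γ l)) + ∑ i,
          C.comp (C.comp A (Γ' i) -
            ∑ l, B.repr ((degen C X X).mkQ (C.comp A (Γ' i))) l • b l) (Γ i) =
          A - ∑ i, ∑ l, B.repr ((degen C X X).mkQ (C.comp A (Γ' i))) l •
            C.comp (b l) (Γ i) := by
        simp only [sub_comp, C.sum_comp, C.smul_comp, Finset.sum_sub_distrib]
        abel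
      rw [h2, comp_sub, C.comp_sum]
      simp only [C.comp_sum, C.comp_smul]
    rw [h1]
    refine piTr_degen κ hxy (Submodule.add_mem _ (hgen A) (Submodule.sum_mem _ fun i _ => ?_))
    exact degen_comp_left κ (hE _) _
  have hle : (sand (CC W) X Y LinearMap.id (W.corr (κ.cl _ (piTr x y)))).map
      (perp (CC W) X Y).mkQ ≤ Submodule.span W.K (Set.range
        fun p : Fin s × Fin (Module.finrank ℚ (C.CH (X.prod X) ⧸ degen C X X)) =>
          (perp (CC W) X Y).mkQ (W.corr (κ.cl _ (C.comp (piTr x y)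
            (C.comp (b p.2) (Γ p.1)))))) := by
    rintro _ ⟨_, ⟨f, hf, rfl⟩, rfl⟩
    obtain ⟨c, hc, rfl⟩ := exists_corr_eq hf
    rw [algSpan_eq κ] at hc
    clear hf
    have h0 : ∀ c : W.H (X.prod Y), (perp (CC W) X Y).mkQ
        (((LinearMap.lcomp W.K (W.H Y) (W.corr (κ.cl _ (piTr x y)))) ∘ₗ
          (LinearMap.llcomp W.K (W.H X) (W.H Y) (W.H Y) LinearMap.id)) (W.corr c)) =
        (perp (CC W) X Y).mkQ (W.corr c ∘ₗ W.corr (κ.cl _ (piTr x y))) := fun c => rfl
    rw [h0]
    induction hc using Submodule.span_induction with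
    | mem c hc =>
      obtain ⟨A, rfl⟩ := hc
      rw [← κ.corr_comp]
      have h1 := (numTriv_iff_perp κ hYX).1 (hdec A)
      have h2 : W.corr (κ.cl _ (C.comp (piTr x y) A -
          ∑ i, ∑ l, B.repr ((degen C X X).mkQ (C.comp A (Γ' i))) l •
            C.comp (piTr x y) (C.comp (b l) (Γ i)))) =
          W.corr (κ.cl _ (C.comp (piTr x y) A)) - ∑ i, ∑ l,
            ((B.repr ((degen C X X).mkQ (C.comp A (Γ' i))) l : ℚ) : W.K) •
            W.corr (κ.cl _ (C.comp (piTr x y) (C.comp (b l) (Γ i)))) := by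
        have h3 := map_sub (Pool.Agent.Y129.Half.corrL W X Y)
          (κ.cl _ (C.comp (piTr x y) A)) (κ.cl _ (∑ i, ∑ l,
            B.repr ((degen C X X).mkQ (C.comp A (Γ' i))) l •
            C.comp (piTr x y) (C.comp (b l) (Γ i))))
        rw [map_sum, map_sum] at h3
        simp only [map_sum, κ.cl_smul, map_smul] at h3
        rw [map_sub, map_sum]
        simp only [map_sum, κ.cl_smul]
        exact h3
      rw [h2, ← Submodule.Quotient.mk_eq_zero, ← Submodule.mkQ_apply, map_sub, map_sum,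
        sub_eq_zero] at h1
      rw [h1]
      refine Submodule.sum_mem _ fun i _ => ?_
      rw [map_sum]
      refine Submodule.sum_mem _ fun l _ => ?_
      rw [map_smul]
      exact Submodule.smul_mem _ _ (Submodule.subset_span ⟨(i, l), rfl⟩)
    | zero =>
      rw [W.corr_zero, LinearMap.zero_comp, map_zero]
      exact Submodule.zero_mem _
    | add a b _ _ ha hb =>
      rw [W.corr_add, LinearMap.add_comp, map_add]
      exact Submodule.add_mem _ ha hb
    | smul q a _ ha =>
      rw [W.corr_smul, LinearMap.smul_comp, map_smul]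
      exact Submodule.smul_mem _ _ ha
  rw [nd]
  refine (Submodule.finrank_mono hle).trans ((finrank_range_le_card _).trans ?_)
  rw [Fintype.card_prod, Fintype.card_fin, Fintype.card_fin]
  rfl

/-! ### the rank of the transcendental projector -/

lemma corr_piTr {r : ℕ} {x y : Fin r → C.CH X} (a : W.H X) :
    W.corr (κ.cl _ (piTr x y)) a = a - ∑ i, W.tr X (κ.cl X (y i) * a) • κ.cl X (x i) := by
  have h3 := map_sub (Pool.Agent.Y129.Half.corrL W X X) (κ.cl _ (C.diagC X))
    (κ.cl _ (∑ i, C.ext (y i) (x i)))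
  have h4 : W.corr (κ.cl _ (piTr x y)) = W.corr (κ.cl _ (C.diagC X)) -
      W.corr (κ.cl _ (∑ i, C.ext (y i) (x i))) := by
    rw [piTr, map_sub]
    exact h3
  rw [h4, κ.corr_diagC, LinearMap.sub_apply, LinearMap.id_apply]
  congr 1
  have h5 := map_sum (Pool.Agent.Y129.Half.corrL W X X) (fun i => κ.cl _ (C.ext (y i) (x i)))
    Finset.univ
  have h6 : W.corr (κ.cl _ (∑ i, C.ext (y i) (x i))) = ∑ i, W.corr (κ.cl _
      (C.ext (y i) (x i))) := by
    rw [map_sum]
    exact h5
  rw [h6, LinearMap.sum_apply]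
  simp only [corr_ext_cl]

lemma idem_piTr {r : ℕ} {x y : Fin r → C.CH X} (h : DualBases C X x y) :
    IsIdempotentElem (W.corr (κ.cl _ (piTr x y)) : Module.End W.K (W.H X)) := by
  have h1 : C.comp (piTr x y) (piTr x y) = piTr x y := by
    rw [piTr_comp]
    have h2 : ∀ i, C.act (piTr x y) (x i) = 0 := by
      intro i
      rw [piTr, C.act_sub, LinearMap.sub_apply, C.act_diagC, C.act_sum, LinearMap.sum_apply]
      simp only [C.act_ext, h.dual, ite_smul, one_smul, zero_smul, Finset.sum_ite_eq,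
        Finset.mem_univ, if_true, sub_self]
    simp only [h2, ChowTheory.ext, map_zero, mul_zero, Finset.sum_const_zero, sub_zero]
  rw [IsIdempotentElem, Module.End.mul_eq_comp, ← κ.corr_comp, h1]

lemma finrank_range_piTr {r : ℕ} {x y : Fin r → C.CH X} (h : DualBases C X x y) :
    Module.finrank W.K (LinearMap.range (W.corr (κ.cl _ (piTr x y)) :
      Module.End W.K (W.H X))) + r = Module.finrank W.K (W.H X) := by
  have h1 := finrank_range_add (idem_piTr κ h)
  have h2 : Module.finrank W.K (LinearMap.range (1 - W.corr (κ.cl _ (piTr x y)) :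
      Module.End W.K (W.H X))) = r := by
    have h3 : LinearMap.range (1 - W.corr (κ.cl _ (piTr x y)) : Module.End W.K (W.H X)) =
        Submodule.span W.K (Set.range fun i => κ.cl X (x i)) := by
      have h4 : ∀ a, (1 - W.corr (κ.cl _ (piTr x y)) : Module.End W.K (W.H X)) a =
          ∑ i, W.tr X (κ.cl X (y i) * a) • κ.cl X (x i) := by
        intro a
        rw [LinearMap.sub_apply, Module.End.one_apply, corr_piTr, sub_sub_cancel]
      apply le_antisymm
      · rintro _ ⟨a, rfl⟩
        rw [h4]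
        exact Submodule.sum_mem _ fun i _ => Submodule.smul_mem _ _
          (Submodule.subset_span ⟨i, rfl⟩)
      · rw [Submodule.span_le]
        rintro _ ⟨j, rfl⟩
        refine ⟨κ.cl X (x j), ?_⟩
        rw [h4]
        have h5 : ∀ i, W.tr X (κ.cl X (y i) * κ.cl X (x j)) = if i = j then 1 else 0 := by
          intro i
          rw [κ.tr_mul, mul_comm, h.dual]
          by_cases hij : i = j
          · rw [if_pos hij, if_pos hij.symm, Rat.cast_one]
          · rw [if_neg hij, if_neg (Ne.symm hij), Rat.cast_zero]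
        simp only [h5, ite_smul, one_smul, zero_smul, Finset.sum_ite_eq', Finset.mem_univ,
          if_true]
    rw [h3, finrank_span_eq_card (linInd_of_dual κ h.dual), Fintype.card_fin]
  omega

end Coh

end Pool.Agent.K1H14.CI
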