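import Pool.Agent.K1H14.CI.Defs

/-!
# The transcendental endomorphism algebra: definitions
-/

open CategoryTheory AlgebraicGeometry

universe u v w

namespace Pool.Agent.K1H14.CI

open Pool.Agent.H914 Pool.Agent.H914.VarClass Pool.Agent.H914.VarClass.Obj Pool.Agent.R903

variable {k : Type u} [Field k] {𝒱 : VarClass k}

/-- The degenerate correspondences from `X` to `Y`: the sums of a numerically trivial class and of
exterior products `a × b`. -/
noncomputable def degen (C : ChowTheory.{u, v} 𝒱) (X Y : 𝒱.Obj) : Submodule ℚ (C.CH (X.prod Y)) :=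
  numTriv C (X.prod Y) ⊔ Submodule.span ℚ
    {γ | ∃ (a : C.CH X) (b : C.CH Y), γ = C.pull (fst X Y) a * C.pull (snd X Y) b}

/-- The dimension of the space of correspondences from `X` to `X` modulo the degenerate ones. -/
noncomputable def transDim (C : ChowTheory.{u, v} 𝒱) (X : 𝒱.Obj) : ℕ :=
  Module.finrank ℚ (C.CH (X.prod X) ⧸ degen C X X)

/-- The correspondences from `X` to `X` modulo the degenerate ones are a division algebra: the
diagonal is not degenerate, and each correspondence which is not degenerate has an inverse modulo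
the degenerate ones. -/
structure IsDivision (C : ChowTheory.{u, v} 𝒱) (X : 𝒱.Obj) : Prop where
  one : C.diagC X ∉ degen C X X
  inv : ∀ γ : C.CH (X.prod X), γ ∉ degen C X X →
    ∃ δ : C.CH (X.prod X), C.comp γ δ - C.diagC X ∈ degen C X X

/-- The zero-cycles of degree zero modulo rational equivalence, with rational coefficients. -/
noncomputable def zeroCyc (C : ChowTheory.{u, v} 𝒱) (X : 𝒱.Obj) : Submodule ℚ (C.CH X) :=
  C.gr X X.dim ⊓ LinearMap.ker (C.deg X)

/-- The dimension of the space of zero-cycles of degree zero modulo rational equivalence, with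
rational coefficients, an element of `ℕ ∪ {∞}`. -/
noncomputable def zeroCycDim (C : ChowTheory.{u, v} 𝒱) (X : 𝒱.Obj) : ℕ∞ :=
  Cardinal.toENat (Module.rank ℚ (zeroCyc C X))

/-- The dimension of `CH^1(X)`, with rational coefficients. -/
noncomputable def picardNumber (C : ChowTheory.{u, v} 𝒱) (X : 𝒱.Obj) : ℕ :=
  Module.finrank ℚ (C.gr X 1)

end Pool.Agent.K1H14.CI
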