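import Pool.Agent.K1H14.CI.Gap

/-!
# The lower bound for the index
-/

open CategoryTheory CategoryTheory.Limits AlgebraicGeometry Finset Filter Topology

open scoped TensorProduct ENNReal

universe u v w

namespace Pool.Agent.K1H14.CI

open Pool.Agent.H914 Pool.Agent.H914.VarClass Pool.Agent.H914.VarClass.Obj Pool.Agent.R903
  Pool.Agent.H281R3.HT Pool.Agent.Y129 Pool.Agent.H914.WeilCohomology

variable {k : Type u} [Field k] {𝒱 : VarClass k} {C : ChowTheory.{u, v} 𝒱} {X Y Z : 𝒱.Obj}

section Closed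

variable {ops : CycleOps 𝒱} {W : WeilCohomology.{u, w} ops} (κ : ClassMap C W)

include κ in
/-- The lower bound over an algebraically closed coefficient field, for finite index. -/
theorem gap_closed' [IsAlgClosed W.K] {z : C.CH X} (hz : C.deg X z = 1) (hdiv : IsDivision C X)
    (hfin : ∀ n, Module.Finite ℚ (C.CH (pw X n))) (hD : ∀ n, HomEqNum W (pw X n))
    {m : ℕ} (hm : numIdeal κ X ^ m = ⊥) {N : ℕ}
    (hN : Tendsto (fun n => (Module.finrank ℚ (C.CH (pw X n)) : ℝ) / numDim C (pw X n)) atTop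
      (𝓝 (N : ℝ))) :
    transDim C X + (Module.finrank W.K (W.H X) - numDim C X) * Module.finrank ℚ (numTriv C X) ≤
      transDim C X * N := by
  have hnt : Nontrivial (W.H X) := nontrivial_of_deg κ hz
  have hS := goodSet_D hD
  have hXS : X ∈ {Y | ∃ n, Nonempty (Y ≅ pw X n)} := ⟨0, ⟨Iso.refl _⟩⟩
  have hP := isPowers hS hXS
  simp only [numRank_eq_numDim κ] at hP
  have hpos : ∀ n, 0 < numDim C (pw X n) := by
    intro n
    obtain ⟨w, hw⟩ := deg_pw κ hz n
    exact numDim_pos κ hw
  have hfinX : Module.Finite ℚ (C.CH X) := hfin 0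
  -- `N ≥ 1`
  have hN1 : 1 ≤ N := by
    have h1 : (1 : ℝ) ≤ N := by
      refine ge_of_tendsto hN (Eventually.of_forall fun n => ?_)
      have := hpos n
      rw [le_div_iff₀ (by exact_mod_cast this), one_mul]
      have h2 := hfin n
      exact_mod_cast numDim_le h2
    exact_mod_cast h1
  set t := Module.finrank ℚ (numTriv C X) with ht
  rcases Nat.eq_zero_or_pos t with ht0 | ht0
  · rw [ht0, mul_zero, add_zero]
    exact Nat.le_mul_of_pos_right _ hN1
  obtain ⟨r, x, y, hxy⟩ := exists_dualBases κ X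
  set ε : Module.End W.K (W.H X) := W.corr (κ.cl _ (piTr x y)) with hε
  have hrank := finrank_range_piTr κ hxy
  have hr := hxy.numDim_eq
  have hR : Module.finrank W.K (W.H X) - numDim C X = Module.finrank W.K (LinearMap.range ε) := by
    rw [hε]
    omega
  rw [hR]
  set R := Module.finrank W.K (LinearMap.range ε) with hRdef
  set d := transDim C X with hd
  -- the lower bound for all `n`
  have hXX : Good W X X := hS.good hXS hXS
  have hlow : ∀ n, nd (CP W X) 0 (n + 1) (sand (CP W X) 0 (n + 1) LinearMap.id ε) * t ≤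
      d * Module.finrank ℚ (numTriv C (pw X (n + 1))) := by
    intro n
    have hfinY := hfin (n + 1)
    have hYX : Good W (pw X (n + 1)) X := hS.good (hS.pw_mem hXS (n + 1)) hXS
    obtain ⟨s, Γ, Γ', hsys, hgen⟩ := exists_generating κ (Y := pw X (n + 1)) hdiv hYX hXX hm
      (by rw [← ht]; exact ht0)
    have h1 := IsSystem.nd_le κ hYX hxy hgen
    have h2 := hsys.mul_le κ hm
    calc _ ≤ (s * d) * t := Nat.mul_le_mul_right _ h1
      _ = d * (s * t) := by ring
      _ ≤ _ := Nat.mul_le_mul_left _ h2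
  have hsum : ∀ n, Module.finrank ℚ (numTriv C (pw X (n + 1))) + numDim C (pw X (n + 1)) =
      Module.finrank ℚ (C.CH (pw X (n + 1))) := by
    intro n
    have h2 := hfin (n + 1)
    rw [add_comm]
    exact Submodule.finrank_quotient_add_finrank (numTriv C (pw X (n + 1)))
  have hεC : ε ∈ CP W X 0 0 := map_corr_mem (cl_mem_algSpan κ _)
  have hεi : IsIdempotentElem ε := idem_piTr κ hxy
  -- the limit
  have hcmp : Tendsto (fun n => (cmp (fun n => numDim C (pw X n)) (Module.finrank W.K (W.H X)) n :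
      ℝ) / numDim C (pw X (n + 1))) atTop (𝓝 1) := by
    have h1 := (hP.tendsto_cmp 0).inv₀ (by simp)
    rw [pow_zero, inv_one] at h1
    refine h1.congr ?_
    intro n
    rw [inv_div, add_zero]
  have hN' := (tendsto_add_atTop_iff_nat 1).2 hN
  have key : ∀ δ : ℝ, 0 < δ → ((R : ℝ) - δ) * t ≤ d * ((N : ℝ) - 1) := by
    intro δ hδ
    have h1 := hP.eventually 0 hεC hεi hδ
    have h2 : Tendsto (fun n => ((R : ℝ) - δ) * t *
        ((cmp (fun n => numDim C (pw X n)) (Module.finrank W.K (W.H X)) n : ℝ) /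
          numDim C (pw X (n + 1)))) atTop (𝓝 (((R : ℝ) - δ) * t)) := by
      have := hcmp.const_mul (((R : ℝ) - δ) * t)
      rw [mul_one] at this
      exact this
    have h3 : Tendsto (fun n => (d : ℝ) * ((Module.finrank ℚ (C.CH (pw X (n + 1))) : ℝ) /
        numDim C (pw X (n + 1)) - 1)) atTop (𝓝 ((d : ℝ) * ((N : ℝ) - 1))) :=
      (hN'.sub_const 1).const_mul _
    refine le_of_tendsto_of_tendsto h2 h3 ?_
    filter_upwards [h1] with n hn
    have hp : (0 : ℝ) < numDim C (pw X (n + 1)) := by exact_mod_cast hpos (n + 1)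
    have h4 : (nd (CP W X) 0 (n + 1) (sand (CP W X) 0 (n + 1) LinearMap.id ε) : ℝ) * t ≤
        d * Module.finrank ℚ (numTriv C (pw X (n + 1))) := by exact_mod_cast hlow n
    have h5 : (Module.finrank ℚ (numTriv C (pw X (n + 1))) : ℝ) =
        Module.finrank ℚ (C.CH (pw X (n + 1))) - numDim C (pw X (n + 1)) := by
      have := hsum n
      rw [eq_sub_iff_add_eq]
      exact_mod_cast this
    have h6 : ((Module.finrank ℚ (C.CH (pw X (n + 1))) : ℝ) /
        numDim C (pw X (n + 1)) - 1) = (Module.finrank ℚ (numTriv C (pw X (n + 1))) : ℝ) /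
          numDim C (pw X (n + 1)) := by
      rw [h5, sub_div, div_self hp.ne']
    rw [h6, mul_div_assoc', mul_div_assoc', div_le_div_iff_of_pos_right hp]
    calc ((R : ℝ) - δ) * t * (cmp (fun n => numDim C (pw X n)) (Module.finrank W.K (W.H X)) n : ℝ)
        = ((R : ℝ) - δ) * (cmp (fun n => numDim C (pw X n)) (Module.finrank W.K (W.H X)) n : ℝ)
            * t := by ring
      _ ≤ (nd (CP W X) 0 (n + 1) (sand (CP W X) 0 (n + 1) LinearMap.id ε) : ℝ) * t :=
          mul_le_mul_of_nonneg_right hn (Nat.cast_nonneg _)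
      _ ≤ _ := h4
  have hfinal : (R : ℝ) * t ≤ d * ((N : ℝ) - 1) := by
    have h1 : Tendsto (fun δ : ℝ => ((R : ℝ) - δ) * t) (𝓝[>] 0) (𝓝 (((R : ℝ) - 0) * t)) := by
      apply Tendsto.mono_left _ nhdsWithin_le_nhds
      exact ((continuous_const.sub continuous_id).mul continuous_const).tendsto 0
    rw [sub_zero] at h1
    refine le_of_tendsto h1 ?_
    filter_upwards [self_mem_nhdsWithin] with δ hδ
    exact key δ hδ
  have h7 : (d : ℝ) + R * t ≤ d * N := by linarith
  exact_mod_cast h7

include κ in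
/-- A nonzero vector space over the division algebra has at least its dimension. -/
lemma transDim_le (hdiv : IsDivision C X) {m : ℕ} (hm : numIdeal κ X ^ m = ⊥)
    [Module.Finite ℚ (C.CH X)] (ht : 0 < Module.finrank ℚ (numTriv C X)) :
    transDim C X ≤ Module.finrank ℚ (numTriv C X) := by
  -- a class killed by all numerically trivial correspondences
  obtain ⟨z, hz, hz0, hkill⟩ : ∃ z ∈ numTriv C X, z ≠ 0 ∧
      ∀ ν ∈ numTriv C (X.prod X), C.act ν z = 0 := by
    by_contra hcon
    push Not at hcon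
    have h1 : ∃ z ∈ numTriv C X, z ≠ 0 := by
      by_contra h2
      push Not at h2
      have h3 : numTriv C X = ⊥ := by
        rw [eq_bot_iff]
        intro z hz
        exact h2 z hz
      rw [h3, finrank_bot] at ht
      exact lt_irrefl _ ht
    obtain ⟨z, hz, hz0⟩ := h1
    have h2 : ∀ j : ℕ, ∃ a : CorrRing C X, a ∈ numIdeal κ X ^ (j + 1) ∧
        C.act ((CorrRing.of C X).symm a) z ≠ 0 := by
      intro j
      induction j with
      | zero =>
        obtain ⟨ν, hν, h3⟩ := hcon z hz hz0
        refine ⟨CorrRing.of C X ν, ?_, h3⟩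
        rw [zero_add, Submodule.pow_one (numIdeal κ X)]
        exact hν
      | succ j ih =>
        obtain ⟨a, ha, h3⟩ := ih
        obtain ⟨ν, hν, h4⟩ := hcon _ (act_numTriv κ ((CorrRing.of C X).symm a) hz) h3
        refine ⟨CorrRing.of C X ν * a, ?_, ?_⟩
        · have h5 : numIdeal κ X ^ (j + 1 + 1) = numIdeal κ X * numIdeal κ X ^ (j + 1) := by
            rw [Submodule.pow_succ' (numIdeal κ X) (Nat.succ_ne_zero j)]
          rw [h5]
          exact Ideal.mul_mem_mul hν ha
        · rw [← C.act_comp] at h4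
          exact h4
    obtain ⟨a, ha, h3⟩ := h2 m
    rw [Submodule.pow_succ (numIdeal κ X), hm] at ha
    have h1 : a ∈ (⊥ : Ideal (CorrRing C X)) := by
      have h2 : (⊥ : Ideal (CorrRing C X)) * numIdeal κ X = ⊥ := Ideal.bot_mul _
      rw [← h2]
      exact ha
    rw [Submodule.mem_bot] at h1
    rw [h1, map_zero, C.act_zero] at h3
    exact h3 rfl
  have hkill' : ∀ γ ∈ degen C X X, C.act γ z = 0 := by
    intro γ hγ
    obtain ⟨ν, hν, h1⟩ := degen_act hγ
    rw [h1 z hz, hkill ν hν]
  set φ : C.CH (X.prod X) →ₗ[ℚ] numTriv C X :=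
    { toFun := fun γ => ⟨C.act γ z, act_numTriv κ γ hz⟩
      map_add' := fun a b => Subtype.ext (by
        change C.act (a + b) z = C.act a z + C.act b z
        rw [C.act_add]
        rfl)
      map_smul' := fun q a => Subtype.ext (by
        change C.act (q • a) z = q • C.act a z
        rw [C.act_smul]
        rfl) } with hφ
  have hφ1 : ∀ γ, (φ γ : C.CH X) = C.act γ z := fun _ => rfl
  have hker : LinearMap.ker φ = degen C X X := by
    ext γ
    rw [LinearMap.mem_ker]
    constructor
    · intro h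
      by_contra hγ
      obtain ⟨δ, hδ⟩ := hdiv.inv γ hγ
      have h1 := hkill' _ hδ
      have h2 : C.act γ z = 0 := by rw [← hφ1, h]; rfl
      rw [C.act_sub, LinearMap.sub_apply, C.act_comp, h2, map_zero, C.act_diagC, zero_sub,
        neg_eq_zero] at h1
      exact hz0 h1
    · intro h
      exact Subtype.ext (hkill' γ h)
  have h1 := LinearMap.finrank_le_finrank_of_injective
    (LinearMap.ker_eq_bot.1 (Submodule.ker_liftQ_eq_bot _ φ hker.ge hker.le))
  exact h1

end Closed

/-- The dimension of the space of numerically trivial classes. -/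
noncomputable def trivDim (C : ChowTheory.{u, v} 𝒱) (X : 𝒱.Obj) : ℕ∞ :=
  Cardinal.toENat (Module.rank ℚ (numTriv C X))

lemma trivDim_of_finite [Module.Finite ℚ (C.CH X)] :
    trivDim C X = (Module.finrank ℚ (numTriv C X) : ℕ∞) := by
  rw [trivDim, ← Module.finrank_eq_rank, Cardinal.toENat_nat]

/-- **The lower bound for the index.** -/
theorem gap (hC : HasDegree C) (W : WeilTheory.{u, v, w} C) {z : C.CH X}
    (hz : C.deg X z = 1) (hdiv : IsDivision C X) {N : ℕ∞}
    (hN : Tendsto (fun n => (chowDim C (pw X n) : ℝ≥0∞) / numDim C (pw X n)) atTop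
      (𝓝 (N : ℝ≥0∞))) :
    (transDim C X : ℕ∞) + ((Module.finrank W.K (W.H X) - numDim C X : ℕ) : ℕ∞) * trivDim C X ≤
      transDim C X * N ∧
    (trivDim C X ≠ 0 → ((Module.finrank W.K (W.H X) - numDim C X : ℕ) : ℕ∞) + 1 ≤ N) := by
  set W1 := cohOf hC W with hW1
  set κ1 : ClassMap C W1 := classMapOf hC W with hκ1
  set L := AlgebraicClosure W1.K with hL
  set κ2 := κ1.base L with hκ2
  have : IsAlgClosed (baseW W1 L).K := inferInstanceAs (IsAlgClosed L)
  have hpos := transDim_pos κ2 hdiv
  by_cases hNtop : N = ⊤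
  · subst hNtop
    refine ⟨?_, fun _ => le_top⟩
    rw [ENat.mul_top (by exact_mod_cast hpos.ne')]
    exact le_top
  obtain ⟨N', h1, -, h3⟩ := law_closed κ2 hz
  have hNN : N = N' := ENat.toENNReal_inj.1 (tendsto_nhds_unique hN h1)
  subst hNN
  obtain ⟨hfin, hD, hnil⟩ := h3 hNtop
  obtain ⟨m, hm⟩ := hnil 0
  have hm' : numIdeal κ2 X ^ m = ⊥ := hm
  obtain ⟨N, rfl⟩ := ENat.ne_top_iff_exists.1 hNtop
  have hposn : ∀ n, 0 < numDim C (pw X n) := by
    intro n
    obtain ⟨w, hw⟩ := deg_pw κ2 hz n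
    exact numDim_pos κ2 hw
  have h4 : Tendsto (fun n => (Module.finrank ℚ (C.CH (pw X n)) : ℝ) / numDim C (pw X n)) atTop
      (𝓝 (N : ℝ)) := by
    have h5 : ∀ n, (Module.finrank ℚ (C.CH (pw X n)) : ℝ) / numDim C (pw X n) =
        ENNReal.toReal ((chowDim C (pw X n) : ℝ≥0∞) / numDim C (pw X n)) := by
      intro n
      rw [ratio_finite (hfin n) (hposn n), ENNReal.toReal_ofReal (by positivity)]
    simp only [h5]
    have h6 := (ENNReal.tendsto_toReal (a := ((N : ℕ∞) : ℝ≥0∞))
      (by rw [ENat.toENNReal_coe]; exact ENNReal.natCast_ne_top _)).comp h1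
    rw [ENat.toENNReal_coe, ENNReal.toReal_natCast] at h6
    exact h6
  have hfinX : Module.Finite ℚ (C.CH X) := hfin 0
  have h5 := gap_closed' κ2 hz hdiv hfin hD hm' h4
  have hfr : Module.finrank (baseW W1 L).K ((baseW W1 L).H X) = Module.finrank W.K (W.H X) :=
    Module.finrank_baseChange (R := L) (S := W1.K) (M' := W1.H X)
  rw [hfr] at h5
  rw [trivDim_of_finite]
  refine ⟨by exact_mod_cast h5, fun ht => ?_⟩
  have ht' : 0 < Module.finrank ℚ (numTriv C X) := by
    by_contra h
    apply ht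
    have : Module.finrank ℚ (numTriv C X) = 0 := by omega
    rw [this]
    rfl
  have h6 := transDim_le κ2 hdiv hm' ht'
  have h7 : transDim C X * (Module.finrank W.K (W.H X) - numDim C X + 1) ≤
      transDim C X * N := by
    calc _ = transDim C X + (Module.finrank W.K (W.H X) - numDim C X) * transDim C X := by ring
      _ ≤ transDim C X + (Module.finrank W.K (W.H X) - numDim C X) *
          Module.finrank ℚ (numTriv C X) :=
        Nat.add_le_add_left (Nat.mul_le_mul_left _ h6) _
      _ ≤ _ := h5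
  exact_mod_cast Nat.le_of_mul_le_mul_left h7 hpos

end Pool.Agent.K1H14.CI
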