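import Pool.Agent.K1H14.CI.Phantom

/-!
# Powers of a variety: finiteness, and the growth in the presence of phantoms
-/

open CategoryTheory CategoryTheory.Limits AlgebraicGeometry Finset Filter Topology

universe u v w

namespace Pool.Agent.K1H14.CI

open Pool.Agent.H914 Pool.Agent.H914.VarClass Pool.Agent.H914.VarClass.Obj Pool.Agent.R903
  Pool.Agent.H281R3.HT Pool.Agent.Y129

variable {k : Type u} [Field k] {𝒱 : VarClass k} {C : ChowTheory.{u, v} 𝒱} {X Y Z : 𝒱.Obj}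

lemma exists_deg_one (h : ∃ z : C.CH X, C.deg X z ≠ 0) : ∃ z : C.CH X, C.deg X z = 1 := by
  obtain ⟨z, hz⟩ := h
  exact ⟨(C.deg X z)⁻¹ • z, by rw [map_smul, smul_eq_mul, inv_mul_cancel₀ hz]⟩

lemma push_snd_section {z : C.CH X} (hz : C.deg X z = 1) (y : C.CH Y) :
    C.push (snd X Y) (C.pull (fst X Y) z * C.pull (snd X Y) y) = y := by
  rw [C.push_mul, C.push_snd_pull_fst, hz, map_one, one_mul]

lemma pull_snd_injective {z : C.CH X} (hz : C.deg X z = 1) :
    Function.Injective (C.pull (snd X Y)) := by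
  intro a b h
  rw [← push_snd_section hz a, h, push_snd_section hz]

lemma finite_of_prod {z : C.CH X} (hz : C.deg X z = 1) (h : Module.Finite ℚ (C.CH (X.prod Y))) :
    Module.Finite ℚ (C.CH Y) :=
  Module.Finite.of_injective (C.pull (snd X Y)).toLinearMap (pull_snd_injective hz)

lemma finite_pw_of_le {z : C.CH X} (hz : C.deg X z = 1) {m n : ℕ} (hmn : m ≤ n)
    (h : Module.Finite ℚ (C.CH (pw X n))) : Module.Finite ℚ (C.CH (pw X m)) := by
  induction n, hmn using Nat.le_induction with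
  | base => exact h
  | succ n _ ih => exact ih (finite_of_prod hz h)

lemma finite_of_iso (i : Y ≅ Z) (h : Module.Finite ℚ (C.CH Z)) : Module.Finite ℚ (C.CH Y) := by
  refine Module.Finite.of_injective (C.pull i.inv).toLinearMap ?_
  intro a b hab
  have h1 := congrArg (C.pull i.hom) hab
  simp only [AlgHom.toLinearMap_apply] at h1
  rwa [← C.pull_comp, ← C.pull_comp, i.hom_inv_id, C.pull_id, C.pull_id] at h1

lemma chowDim_of_finite (h : Module.Finite ℚ (C.CH X)) :
    chowDim C X = (Module.finrank ℚ (C.CH X) : ℕ∞) := by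
  rw [chowDim, ← Module.finrank_eq_rank, Cardinal.toENat_nat]

lemma chowDim_of_not_finite (h : ¬ Module.Finite ℚ (C.CH X)) : chowDim C X = ⊤ := by
  rw [chowDim, Cardinal.toENat_eq_top]
  by_contra h1
  rw [not_le] at h1
  exact h (Module.rank_lt_aleph0_iff.1 h1)

lemma numDim_le (h : Module.Finite ℚ (C.CH X)) : numDim C X ≤ Module.finrank ℚ (C.CH X) :=
  Submodule.finrank_quotient_le _

/-- The varieties isomorphic to powers of `X`. -/
def powSet (X : 𝒱.Obj) : Set 𝒱.Obj := {Y | ∃ n, Nonempty (Y ≅ pw X n)}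

lemma powSet_prod {X Y Z : 𝒱.Obj} (hY : Y ∈ powSet X) (hZ : Z ∈ powSet X) :
    Y.prod Z ∈ powSet X := by
  obtain ⟨a, ⟨i⟩⟩ := hY
  obtain ⟨c, ⟨j⟩⟩ := hZ
  exact ⟨_, prod_iso_pw i j⟩

lemma pw_mem_powSet (X : 𝒱.Obj) (n : ℕ) : pw X n ∈ powSet X := ⟨n, ⟨Iso.refl _⟩⟩

lemma tower_iso (X : 𝒱.Obj) (m j s : ℕ) :
    Nonempty (tower (pw X m) j (pw X s) ≅ pw X (s + j * (m + 1))) := by
  induction j with
  | zero =>
    rw [zero_mul, add_zero]
    exact ⟨Iso.refl _⟩
  | succ j ih =>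
    obtain ⟨i⟩ := ih
    rw [tower_succ]
    obtain ⟨i'⟩ := pw_iso X (s + j * (m + 1)) m (s + (j + 1) * (m + 1)) (by ring)
    exact ⟨(prodIso i (Iso.refl _)).trans i'⟩

section Grow

variable {ops : CycleOps 𝒱} {W : WeilCohomology.{u, w} ops} (κ : ClassMap C W)

include κ in
/-- The growth of the Chow groups of the powers if there is a phantom. -/
lemma phantom_pw (hfin : ∀ n, Module.Finite ℚ (C.CH (pw X n))) {m : ℕ}
    {e : C.CH ((pw X m).prod (pw X m))} (hee : C.comp e e = e) (he0 : e ≠ 0)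
    (hen : e ∈ numTriv C _) (N s : ℕ) :
    N * numDim C (pw X (s + (2 * N - 2) * (m + 1) + 1)) ≤
      Module.finrank ℚ (C.CH (pw X (s + 2 * N * (m + 1) + 1))) := by
  have hfinS : ∀ Y ∈ powSet X, Module.Finite ℚ (C.CH Y) := by
    rintro Y ⟨n, ⟨i⟩⟩
    exact finite_of_iso i (hfin n)
  have h1 := phantom_growth κ (S := powSet X) powSet_prod hfinS hee he0 hen
    (pw_mem_powSet X m) N X (pw X s) (pw_mem_powSet X 0) (pw_mem_powSet X s) (C.diagC X)
    (C.diagC_comp _) (by rw [sub_self]; exact Submodule.zero_mem _)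
  rw [compL_diagC, LinearMap.range_id, finrank_top] at h1
  -- the isomorphisms
  have hiso : ∀ j, ∃ φ : X.prod (tower (pw X m) j (pw X s)) ⟶
      X.prod (pw X (s + j * (m + 1))), IsIso φ := by
    intro j
    obtain ⟨i⟩ := tower_iso X m j s
    exact ⟨(prodIso (Iso.refl X) i).hom, inferInstance⟩
  obtain ⟨φ1, hφ1⟩ := hiso (2 * N - 2)
  obtain ⟨φ2, hφ2⟩ := hiso (2 * N)
  have h2 : numDim C (X.prod (tower (pw X m) (2 * N - 2) (pw X s))) =
      numDim C (pw X (s + (2 * N - 2) * (m + 1) + 1)) := numDim_iso κ φ1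
  have h3 : Module.finrank ℚ (C.CH (X.prod (tower (pw X m) (2 * N) (pw X s)))) =
      Module.finrank ℚ (C.CH (pw X (s + 2 * N * (m + 1) + 1))) :=
    (pullEquiv (C := C) φ2).finrank_eq.symm
  rw [h2, h3] at h1
  exact h1

/-- The sequence of the quotients is unbounded if there is a phantom. -/
lemma tendsto_of_phantom {K : Type*} [Field K] {H : ℕ → Type*} [∀ n, AddCommGroup (H n)]
    [∀ n, Module K (H n)] {Cc : ∀ m n, Submodule K (H m →ₗ[K] H n)} [∀ n, Module.Finite K (H n)]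
    [IsAlgClosed K] [CharZero K] {β c : ℕ → ℕ} {b : ℕ} (hP : IsPowers Cc β b) {d : ℕ}
    (hd : 0 < d) (h : ∀ N s, N * β (s + (2 * N - 2) * d + 1) ≤ c (s + 2 * N * d + 1)) :
    Tendsto (fun n => (c n : ℝ) / β n) atTop atTop := by
  have h1 : ∀ n, ((n + 2 * d) / (2 * d)) * β (n + 1) ≤ c (n + 1 + 2 * d) := by
    intro n
    set N := (n + 2 * d) / (2 * d) with hN
    set s := (n + 2 * d) % (2 * d) with hs
    have h2 : 2 * d * N + s = n + 2 * d := Nat.div_add_mod _ _
    have h3 : 1 ≤ N := by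
      rw [hN, Nat.one_le_div_iff (by omega)]
      omega
    have h4 := h N s
    have h5 : s + 2 * N * d + 1 = n + 1 + 2 * d := by
      have : 2 * N * d = 2 * d * N := by ring
      omega
    have h6 : s + (2 * N - 2) * d + 1 = n + 1 := by
      clear_value N
      obtain ⟨M, rfl⟩ : ∃ M, N = M + 1 := ⟨N - 1, by omega⟩
      have h7 : 2 * (M + 1) - 2 = 2 * M := by omega
      rw [h7]
      have h8 : 2 * d * (M + 1) = 2 * M * d + 2 * d := by ring
      omega
    rw [h5, h6] at h4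
    exact h4
  rw [← tendsto_add_atTop_iff_nat (1 + 2 * d)]
  have hpos : ∀ n, (0 : ℝ) < cmp β b n := fun n => by exact_mod_cast hP.cmp_pos n
  have e1 := (hP.tendsto_cmp 0).eventually (lt_mem_nhds (a := 1 / 2) (by norm_num))
  have e2 := (hP.tendsto_cmp (2 * d)).eventually (gt_mem_nhds
    (lt_add_one ((b : ℝ) ^ (2 * d))))
  rw [tendsto_atTop]
  intro A
  set B : ℝ := max A 0 with hB
  have hB0 : 0 ≤ B := le_max_right _ _
  set L : ℝ := 2 * (B * ((b : ℝ) ^ (2 * d) + 1)) with hL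
  have e3 : ∀ᶠ n : ℕ in atTop, ⌈L⌉₊ ≤ (n + 2 * d) / (2 * d) := by
    filter_upwards [eventually_ge_atTop (⌈L⌉₊ * (2 * d))] with n hn
    rw [Nat.le_div_iff_mul_le (by omega)]
    omega
  have e4 : ∀ᶠ n : ℕ in atTop, (0 : ℝ) < β (n + 1 + 2 * d) := by
    have := (hP.tendsto_cmp (2 * d)).eventually (lt_mem_nhds (a := 0) (by
      have := hP.b_pos
      positivity))
    filter_upwards [this] with n hn
    by_contra hcon
    have h2 : (β (n + 1 + 2 * d) : ℝ) = 0 := le_antisymm (not_lt.1 hcon) (Nat.cast_nonneg _)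
    rw [h2, zero_div] at hn
    exact lt_irrefl _ hn
  filter_upwards [e1, e2, e3, e4] with n h1' h2' h3' h4'
  rw [lt_div_iff₀ (hpos n)] at h1'
  rw [div_lt_iff₀ (hpos n)] at h2'
  rw [add_zero] at h1'
  have h5 : (((n + 2 * d) / (2 * d) : ℕ) : ℝ) * β (n + 1) ≤ c (n + 1 + 2 * d) := by
    exact_mod_cast h1 n
  have h6 : L ≤ (((n + 2 * d) / (2 * d) : ℕ) : ℝ) :=
    (Nat.le_ceil L).trans (by exact_mod_cast h3')
  have h7 : n + (1 + 2 * d) = n + 1 + 2 * d := by ring
  refine (le_max_left A 0).trans ?_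
  rw [← hB, h7, le_div_iff₀ h4']
  have h8 : (0 : ℝ) ≤ β (n + 1) := Nat.cast_nonneg _
  calc B * (β (n + 1 + 2 * d) : ℝ) ≤ B * (((b : ℝ) ^ (2 * d) + 1) * cmp β b n) :=
        mul_le_mul_of_nonneg_left h2'.le hB0
    _ = L * (1 / 2 * cmp β b n) := by rw [hL]; ring
    _ ≤ L * β (n + 1) := mul_le_mul_of_nonneg_left h1'.le (by positivity)
    _ ≤ _ := mul_le_mul_of_nonneg_right h6 h8
    _ ≤ _ := h5

end Grow

end Pool.Agent.K1H14.CI
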