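import Pool.Agent.K1H14.CI.Num
import Pool.Agent.K1H14.CI.Abs
import Pool.Agent.K1H14.CI.Alg

/-!
# The operators on the cohomology and on the Chow groups
-/

open CategoryTheory AlgebraicGeometry Finset

open scoped TensorProduct

universe u v w

namespace Pool.Agent.K1H14.CI

open Pool.Agent.H914 Pool.Agent.H914.VarClass Pool.Agent.H914.VarClass.Obj Pool.Agent.R903
  Pool.Agent.H281R3.HT Pool.Agent.Y129

variable {k : Type u} [Field k] {𝒱 : VarClass k} {C : ChowTheory.{u, v} 𝒱} {X Y Z : 𝒱.Obj}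
  {ops : CycleOps 𝒱} {W : WeilCohomology.{u, w} ops} (κ : ClassMap C W)

lemma ClassMap.cl_even (c : C.CH X) : κ.cl X c ∈ Pool.Agent.Y129.Half.PH W X 0 :=
  (algSys W).even (cl_mem_algSpan κ c)

lemma ClassMap.corr_comp (α : C.CH (X.prod Y)) (β : C.CH (Y.prod Z)) :
    W.corr (κ.cl _ (C.comp α β)) = W.corr (κ.cl _ β) ∘ₗ W.corr (κ.cl _ α) := by
  rw [← Pool.Agent.Y129.Half.corr_comp' _ (κ.cl_even β), ChowTheory.comp, κ.cl_push, map_mul,
    κ.cl_pull, κ.cl_pull]
  rfl

lemma ClassMap.corr_diagC : W.corr (κ.cl _ (C.diagC X)) = LinearMap.id := by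
  rw [ChowTheory.diagC, κ.cl_push, map_one, Pool.Agent.Y129.Half.Sys.corr_diag_one]

include κ in
lemma numTriv_comp_left {α : C.CH (X.prod Y)} (hα : α ∈ numTriv C (X.prod Y))
    (β : C.CH (Y.prod Z)) : C.comp α β ∈ numTriv C (X.prod Z) := by
  rw [mem_numTriv] at hα ⊢
  intro γ
  rw [ChowTheory.comp, ← C.push_mul, κ.deg_push, ← κ.deg_push (R903.p12 X Y Z), mul_assoc,
    C.mul_push]
  exact hα _

include κ in
lemma numTriv_comp_right (α : C.CH (X.prod Y)) {β : C.CH (Y.prod Z)}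
    (hβ : β ∈ numTriv C (Y.prod Z)) : C.comp α β ∈ numTriv C (X.prod Z) := by
  rw [mem_numTriv] at hβ ⊢
  intro γ
  rw [ChowTheory.comp, ← C.push_mul, κ.deg_push, ← κ.deg_push (snd X (Y.prod Z)),
    mul_comm (C.pull (R903.p12 X Y Z) α), mul_assoc, C.mul_push]
  exact hβ _

/-- The left ideal of the numerically trivial correspondences. -/
noncomputable def numIdeal (κ : ClassMap C W) (Y : 𝒱.Obj) : Ideal (CorrRing C Y) where
  carrier := {a | (CorrRing.of C Y).symm a ∈ numTriv C (Y.prod Y)}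
  add_mem' ha hb := (numTriv C (Y.prod Y)).add_mem ha hb
  zero_mem' := (numTriv C (Y.prod Y)).zero_mem
  smul_mem' a _ hb := numTriv_comp_left κ hb ((CorrRing.of C Y).symm a)

lemma mem_numIdeal {a : C.CH (Y.prod Y)} :
    CorrRing.of C Y a ∈ numIdeal κ Y ↔ a ∈ numTriv C (Y.prod Y) := Iff.rfl

/-- The action of a correspondence on the Chow groups with coefficients in the field `K`. -/
noncomputable def actK (K : Type w) [Field K] [CharZero K] (Γ : C.CH (X.prod Y)) :
    (K ⊗[ℚ] C.CH X) →ₗ[K] (K ⊗[ℚ] C.CH Y) :=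
  (C.act Γ).baseChange K

section actK

variable {K : Type w} [Field K] [CharZero K]

lemma actK_add (Γ Δ : C.CH (X.prod Y)) : actK K (Γ + Δ) = actK K Γ + actK K Δ := by
  rw [actK, C.act_add, LinearMap.baseChange_add]
  rfl

lemma actK_smul (q : ℚ) (Γ : C.CH (X.prod Y)) : actK K (q • Γ) = (q : K) • actK K Γ := by
  rw [actK, C.act_smul, LinearMap.baseChange_smul]
  apply LinearMap.ext
  intro x
  rw [LinearMap.smul_apply, LinearMap.smul_apply, Rat.cast_smul_eq_qsmul]
  rfl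

lemma actK_zero : actK K (0 : C.CH (X.prod Y)) = 0 := by
  rw [actK, C.act_zero, LinearMap.baseChange_zero]

lemma actK_comp (α : C.CH (X.prod Y)) (β : C.CH (Y.prod Z)) :
    actK K (C.comp α β) = actK K β ∘ₗ actK K α := by
  rw [actK, actK, actK, ← LinearMap.baseChange_comp]
  congr 1
  apply LinearMap.ext
  intro x
  exact C.act_comp α β x

lemma actK_diagC : actK K (C.diagC X) = LinearMap.id := by
  rw [actK]
  have h1 : C.act (C.diagC X) = LinearMap.id := LinearMap.ext fun x => C.act_diagC x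
  rw [h1, LinearMap.baseChange_id]

/-- The ring homomorphism from correspondences to operators. -/
noncomputable def actHom (C : ChowTheory.{u, v} 𝒱) (K : Type w) [Field K] [CharZero K]
    (Y : 𝒱.Obj) : CorrRing C Y →+* Module.End K (K ⊗[ℚ] C.CH Y) where
  toFun a := actK K ((CorrRing.of C Y).symm a)
  map_one' := actK_diagC
  map_mul' _ _ := actK_comp _ _
  map_zero' := actK_zero
  map_add' _ _ := actK_add _ _

end actK

/-- The operator given by a correspondence on the cohomology and on the Chow groups. -/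
noncomputable def opK (Γ : C.CH (X.prod Y)) :
    (W.H X × (W.K ⊗[ℚ] C.CH X)) →ₗ[W.K] (W.H Y × (W.K ⊗[ℚ] C.CH Y)) :=
  (W.corr (κ.cl _ Γ)).prodMap (actK W.K Γ)

lemma opK_add (Γ Δ : C.CH (X.prod Y)) : opK κ (Γ + Δ) = opK κ Γ + opK κ Δ := by
  rw [opK, map_add, W.corr_add, actK_add]
  rfl

lemma opK_smul (q : ℚ) (Γ : C.CH (X.prod Y)) : opK κ (q • Γ) = (q : W.K) • opK κ Γ := by
  rw [opK, κ.cl_smul, W.corr_smul, actK_smul]
  rfl

lemma opK_zero : opK κ (0 : C.CH (X.prod Y)) = 0 := by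
  rw [opK, map_zero, W.corr_zero, actK_zero]
  rfl

lemma opK_sum {ι : Type*} (s : Finset ι) (Γ : ι → C.CH (X.prod Y)) :
    opK κ (∑ i ∈ s, Γ i) = ∑ i ∈ s, opK κ (Γ i) := by
  classical
  induction s using Finset.induction_on with
  | empty => rw [sum_empty, sum_empty, opK_zero]
  | insert a s ha ih => rw [sum_insert ha, sum_insert ha, opK_add, ih]

lemma opK_comp (α : C.CH (X.prod Y)) (β : C.CH (Y.prod Z)) :
    opK κ (C.comp α β) = opK κ β ∘ₗ opK κ α := by
  rw [opK, κ.corr_comp, actK_comp]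
  rfl

lemma opK_diagC : opK κ (C.diagC X) = LinearMap.id := by
  rw [opK, κ.corr_diagC, actK_diagC, LinearMap.prodMap_id]

/-- The linear combinations of the operators given by correspondences. -/
noncomputable def Dop (κ : ClassMap C W) (X Y : 𝒱.Obj) :
    Submodule W.K ((W.H X × (W.K ⊗[ℚ] C.CH X)) →ₗ[W.K] (W.H Y × (W.K ⊗[ℚ] C.CH Y))) :=
  Submodule.span W.K (Set.range (opK κ))

lemma isCat_Dop : IsCat (Dop κ) where
  id_mem Y := by
    rw [← opK_diagC κ]
    exact Submodule.subset_span ⟨_, rfl⟩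
  comp_mem := by
    intro X Y Z g f hg hf
    induction hg using Submodule.span_induction with
    | mem g hg =>
      obtain ⟨β, rfl⟩ := hg
      induction hf using Submodule.span_induction with
      | mem f hf =>
        obtain ⟨α, rfl⟩ := hf
        rw [← opK_comp]
        exact Submodule.subset_span ⟨_, rfl⟩
      | zero => rw [LinearMap.comp_zero]; exact Submodule.zero_mem _
      | add a b _ _ ha hb => rw [LinearMap.comp_add]; exact Submodule.add_mem _ ha hb
      | smul r a _ ha => rw [LinearMap.comp_smul]; exact Submodule.smul_mem _ _ ha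
    | zero => rw [LinearMap.zero_comp]; exact Submodule.zero_mem _
    | add a b _ _ ha hb => rw [LinearMap.add_comp]; exact Submodule.add_mem _ ha hb
    | smul r a _ ha => rw [LinearMap.smul_comp]; exact Submodule.smul_mem _ _ ha

lemma Dop_diag {f : (W.H X × (W.K ⊗[ℚ] C.CH X)) →ₗ[W.K] (W.H Y × (W.K ⊗[ℚ] C.CH Y))}
    (hf : f ∈ Dop κ X Y) : ∃ g ∈ CC W X Y, ∃ g' : (W.K ⊗[ℚ] C.CH X) →ₗ[W.K] (W.K ⊗[ℚ] C.CH Y),
      f = g.prodMap g' := by
  induction hf using Submodule.span_induction with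
  | mem f hf =>
    obtain ⟨Γ, rfl⟩ := hf
    exact ⟨_, map_corr_mem (cl_mem_algSpan κ Γ), _, rfl⟩
  | zero => exact ⟨0, Submodule.zero_mem _, 0, rfl⟩
  | add a b _ _ ha hb =>
    obtain ⟨g, hg, g', rfl⟩ := ha
    obtain ⟨h, hh, h', rfl⟩ := hb
    exact ⟨g + h, Submodule.add_mem _ hg hh, g' + h', rfl⟩
  | smul r a _ ha =>
    obtain ⟨g, hg, g', rfl⟩ := ha
    exact ⟨r • g, Submodule.smul_mem _ _ hg, r • g', rfl⟩

lemma Dop_surj {g : W.H X →ₗ[W.K] W.H Y} (hg : g ∈ CC W X Y) :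
    ∃ g' : (W.K ⊗[ℚ] C.CH X) →ₗ[W.K] (W.K ⊗[ℚ] C.CH Y), g.prodMap g' ∈ Dop κ X Y := by
  obtain ⟨c, hc, rfl⟩ := exists_corr_eq hg
  rw [algSpan_eq κ] at hc
  induction hc using Submodule.span_induction with
  | mem c hc =>
    obtain ⟨Γ, rfl⟩ := hc
    exact ⟨_, Submodule.subset_span ⟨Γ, rfl⟩⟩
  | zero =>
    refine ⟨0, ?_⟩
    rw [W.corr_zero]
    exact Submodule.zero_mem _
  | add a b ha' hb' ha hb =>
    rw [← algSpan_eq κ] at ha' hb'
    obtain ⟨g', hg'⟩ := ha (map_corr_mem ha')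
    obtain ⟨h', hh'⟩ := hb (map_corr_mem hb')
    refine ⟨g' + h', ?_⟩
    rw [W.corr_add]
    exact Submodule.add_mem _ hg' hh'
  | smul r a ha' ha =>
    rw [← algSpan_eq κ] at ha'
    obtain ⟨g', hg'⟩ := ha (map_corr_mem ha')
    refine ⟨r • g', ?_⟩
    rw [W.corr_smul]
    exact Submodule.smul_mem _ _ hg'

lemma transcendental_of_perp (hY : Good W Y Y) {c : W.H (Y.prod Y)}
    (hc : c ∈ algSpan W (Y.prod Y)) (h : W.corr c ∈ perp (CC W) Y Y) :
    c ∈ transcendental W (Y.prod Y) := by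
  have h1 : W.map (H914.swap Y Y) c ∈ transcendental W (Y.prod Y) := by
    rw [hY _ (map_algSpan _ hc), opL_apply, Y129.swap_swap]
    exact h
  have h2 := map_transcendental (H914.swap Y Y) h1
  rw [Y129.swap_swap] at h2
  exact h2

/-- The combinations of operators given by numerically trivial correspondences. -/
lemma numTriv_span {f : (W.H X × (W.K ⊗[ℚ] C.CH X)) →ₗ[W.K] (W.H Y × (W.K ⊗[ℚ] C.CH Y))}
    (hf : f ∈ Submodule.span W.K (opK κ '' (numTriv C (X.prod Y) : Set (C.CH (X.prod Y))))) :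
    ∃ c ∈ algSpan W (X.prod Y), c ∈ transcendental W (X.prod Y) ∧
      ∃ g' ∈ Submodule.span W.K (actK W.K '' (numTriv C (X.prod Y) : Set (C.CH (X.prod Y)))),
        f = (W.corr c).prodMap g' := by
  induction hf using Submodule.span_induction with
  | mem f hf =>
    obtain ⟨Γ, hΓ, rfl⟩ := hf
    exact ⟨_, cl_mem_algSpan κ Γ, cl_transcendental κ hΓ, _, Submodule.subset_span ⟨Γ, hΓ, rfl⟩,
      rfl⟩
  | zero =>
    refine ⟨0, Submodule.zero_mem _, Submodule.zero_mem _, 0, Submodule.zero_mem _, ?_⟩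
    rw [W.corr_zero]
    rfl
  | add a b _ _ ha hb =>
    obtain ⟨c, hc, hc', g', hg', rfl⟩ := ha
    obtain ⟨d, hd, hd', h', hh', rfl⟩ := hb
    refine ⟨c + d, Submodule.add_mem _ hc hd, Submodule.add_mem _ hc' hd', g' + h',
      Submodule.add_mem _ hg' hh', ?_⟩
    rw [W.corr_add]
    rfl
  | smul r a _ ha =>
    obtain ⟨c, hc, hc', g', hg', rfl⟩ := ha
    refine ⟨r • c, Submodule.smul_mem _ _ hc, Submodule.smul_mem _ _ hc', r • g',
      Submodule.smul_mem _ _ hg', ?_⟩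
    rw [W.corr_smul]
    rfl

lemma Dop_decomp {r : ℕ} {x y : Fin r → C.CH (X.prod Y)} (h : DualBases C (X.prod Y) x y)
    {f : (W.H X × (W.K ⊗[ℚ] C.CH X)) →ₗ[W.K] (W.H Y × (W.K ⊗[ℚ] C.CH Y))}
    (hf : f ∈ Dop κ X Y) : ∃ μ : Fin r → W.K, ∃ f₁ ∈ Submodule.span W.K
      (opK κ '' (numTriv C (X.prod Y) : Set (C.CH (X.prod Y)))),
      f = ∑ i, μ i • opK κ (x i) + f₁ := by
  induction hf using Submodule.span_induction with
  | mem f hf =>
    obtain ⟨Γ, rfl⟩ := hf
    refine ⟨fun i => ((C.deg _ (Γ * y i) : ℚ) : W.K), opK κ (Γ - ∑ i, C.deg _ (Γ * y i) • x i),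
      Submodule.subset_span ⟨_, h.span Γ, rfl⟩, ?_⟩
    simp only [← opK_smul]
    rw [← opK_sum, ← opK_add, add_sub_cancel]
  | zero => exact ⟨0, 0, Submodule.zero_mem _, by simp⟩
  | add a b _ _ ha hb =>
    obtain ⟨μ, f, hf, rfl⟩ := ha
    obtain ⟨ν, g, hg, rfl⟩ := hb
    refine ⟨μ + ν, f + g, Submodule.add_mem _ hf hg, ?_⟩
    simp only [Pi.add_apply, add_smul, sum_add_distrib]
    abel
  | smul r a _ ha =>
    obtain ⟨μ, f, hf, rfl⟩ := ha
    refine ⟨r • μ, r • f, Submodule.smul_mem _ _ hf, ?_⟩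
    rw [smul_add, smul_sum]
    simp only [Pi.smul_apply, smul_eq_mul, mul_smul]

/-- **Numerically trivial operators act as nilpotent operators on the Chow groups**, if the ideal of
numerically trivial correspondences is nilpotent. -/
theorem nil_of (hY : Good W Y Y) {s : ℕ} (hs : numIdeal κ Y ^ s = ⊥)
    {g : Module.End W.K (W.H Y)} {g' : Module.End W.K (W.K ⊗[ℚ] C.CH Y)}
    (h : g.prodMap g' ∈ Dop κ Y Y) (hg : g ∈ perp (CC W) Y Y) : IsNilpotent g' := by
  obtain ⟨r, x, y, hxy⟩ := exists_dualBases κ (Y.prod Y)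
  obtain ⟨μ, f₁, hf₁, hf⟩ := Dop_decomp κ hxy h
  obtain ⟨c₁, hc₁, hc₁', g₁, hg₁, rfl⟩ := numTriv_span κ hf₁
  -- the class of `g`
  have hsum : ∑ i, μ i • opK κ (x i) = (W.corr (∑ i, μ i • κ.cl _ (x i))).prodMap
      (∑ i, μ i • actK W.K (x i)) := by
    have h1 : W.corr (∑ i, μ i • κ.cl _ (x i)) = ∑ i, μ i • W.corr (κ.cl _ (x i)) := by
      have h2 := map_sum (Pool.Agent.Y129.Half.corrL W Y Y) (fun i => μ i • κ.cl _ (x i)) univ
      simp only [map_smul] at h2
      exact h2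
    rw [h1]
    apply LinearMap.ext
    rintro ⟨a, b⟩
    simp only [LinearMap.sum_apply, LinearMap.smul_apply, opK, LinearMap.prodMap_apply,
      Prod.smul_mk]
    rw [Prod.ext_iff]
    constructor
    · simp [Prod.fst_sum]
    · simp [Prod.snd_sum]
  rw [hsum] at hf
  set c := ∑ i, μ i • κ.cl _ (x i) + c₁ with hc
  have hcalg : c ∈ algSpan W (Y.prod Y) := by
    refine Submodule.add_mem _ (Submodule.sum_mem _ fun i _ => ?_) hc₁
    exact Submodule.smul_mem _ _ (cl_mem_algSpan κ (x i))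
  have hgc : g = W.corr c := by
    rw [hc, W.corr_add]
    apply LinearMap.ext
    intro a
    exact congrArg (fun φ : Module.End W.K (W.H Y × (W.K ⊗[ℚ] C.CH Y)) => (φ (a, 0)).1) hf
  rw [hgc] at hg
  have h1 := transcendental_of_perp hY hcalg hg
  have h2 : ∑ i, μ i • κ.cl _ (x i) ∈ transcendental W (Y.prod Y) := by
    have h3 := Submodule.sub_mem _ h1 hc₁'
    rw [hc, add_sub_cancel_right] at h3
    exact h3
  have hμ : ∀ j, μ j = 0 := by
    intro j
    have h3 := (mem_transcendental_cl κ).1 h2 (y j)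
    rw [Finset.mul_sum, map_sum] at h3
    have h4 : ∀ i, W.tr _ (κ.cl _ (y j) * (μ i • κ.cl _ (x i))) = if i = j then μ i else 0 := by
      intro i
      rw [mul_smul_comm, map_smul, κ.tr_mul, mul_comm, hxy.dual]
      split_ifs <;> simp
    simp only [h4, Finset.sum_ite_eq', Finset.mem_univ, if_true] at h3
    exact h3
  have hg' : g' = g₁ := by
    apply LinearMap.ext
    intro b
    have h3 := congrArg (fun φ : Module.End W.K (W.H Y × (W.K ⊗[ℚ] C.CH Y)) => (φ (0, b)).2) hf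
    simp only [hμ, zero_smul, sum_const_zero] at h3
    have h4 : g' b = (0 : Module.End W.K (W.K ⊗[ℚ] C.CH Y)) b + g₁ b := h3
    rw [h4, LinearMap.zero_apply, zero_add]
  rw [hg']
  refine isNilpotent_of_span (K := W.K) hs (actHom C W.K Y) (g := g₁) ?_
  refine Submodule.span_mono ?_ hg₁
  rintro _ ⟨Γ, hΓ, rfl⟩
  exact ⟨CorrRing.of C Y Γ, hΓ, rfl⟩

end Pool.Agent.K1H14.CI
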