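import Pool.Agent.K1H14.CI.Grow
import Pool.Agent.Y133.Half.Index

/-!
# The index of the Chow groups of the powers of a variety
-/

open CategoryTheory CategoryTheory.Limits AlgebraicGeometry Finset Filter Topology

open scoped TensorProduct ENNReal

universe u v w

namespace Pool.Agent.K1H14.CI

open Pool.Agent.H914 Pool.Agent.H914.VarClass Pool.Agent.H914.VarClass.Obj Pool.Agent.R903
  Pool.Agent.H281R3.HT Pool.Agent.Y129 Pool.Agent.H914.WeilCohomology

variable {k : Type u} [Field k] {𝒱 : VarClass k} {C : ChowTheory.{u, v} 𝒱} {X Y Z : 𝒱.Obj}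

section Closed

variable {ops : CycleOps 𝒱} {W : WeilCohomology.{u, w} ops} (κ : ClassMap C W)

lemma isLift [Nontrivial (W.H X)] {S : Set 𝒱.Obj} (hS : GoodSet W S) (hXS : X ∈ S)
    (hnil : ∀ n, ∃ s : ℕ, numIdeal κ (pw X n) ^ s = ⊥) :
    IsLift (H := fun n => W.H (pw X n)) (M := fun n => W.K ⊗[ℚ] C.CH (pw X n)) (CP W X)
      (fun m n => Dop κ (pw X m) (pw X n)) where
  cat := ⟨fun n => (isCat_Dop κ).id_mem (pw X n), fun hg hf => (isCat_Dop κ).comp_mem hg hf⟩
  diag _ _ _ hf := Dop_diag κ hf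
  surj _ _ _ hg := Dop_surj κ hg
  nil m g g' hgg hg := by
    obtain ⟨s, hs⟩ := hnil m
    exact nil_of κ (hS.good (hS.pw_mem hXS m) (hS.pw_mem hXS m)) hs hgg hg

include κ in
/-- The law if the Chow groups of the powers are finite-dimensional, homological and numerical
equivalence agree on them and the coefficient field is algebraically closed. -/
theorem law_closed' [IsAlgClosed W.K] {z : C.CH X} (hz : C.deg X z = 1)
    (hfin : ∀ n, Module.Finite ℚ (C.CH (pw X n))) (hD : ∀ n, HomEqNum W (pw X n)) :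
    (∃ N : ℕ, (∀ n, Module.finrank ℚ (C.CH (pw X (2 * n + 1))) ≤
        N * numDim C (pw X (2 * n + 1))) ∧
      Tendsto (fun n => (Module.finrank ℚ (C.CH (pw X n)) : ℝ) / numDim C (pw X n)) atTop
        (𝓝 (N : ℝ)) ∧ ∀ n, ∃ s : ℕ, numIdeal κ (pw X n) ^ s = ⊥) ∨
    Tendsto (fun n => (Module.finrank ℚ (C.CH (pw X n)) : ℝ) / numDim C (pw X n))
      atTop atTop := by
  have hnt : Nontrivial (W.H X) := by
    refine ⟨⟨κ.cl X z, 0, fun h => ?_⟩⟩
    have h1 := κ.tr_cl X z
    rw [h, map_zero, hz, Rat.cast_one] at h1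
    exact zero_ne_one h1
  have hS := goodSet_D hD
  have hXS : X ∈ {Y | ∃ n, Nonempty (Y ≅ pw X n)} := ⟨0, ⟨Iso.refl _⟩⟩
  have hP := isPowers hS hXS
  simp only [numRank_eq_numDim κ] at hP
  by_cases hph : ∃ m, ∃ e ∈ numTriv C ((pw X m).prod (pw X m)), C.comp e e = e ∧ e ≠ 0
  · right
    obtain ⟨m, e, hen, hee, he0⟩ := hph
    exact tendsto_of_phantom (c := fun n => Module.finrank ℚ (C.CH (pw X n))) hP
      (Nat.succ_pos m) (fun N s => phantom_pw κ hfin hee he0 hen N s)
  push Not at hph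
  have hnil : ∀ n, ∃ s : ℕ, numIdeal κ (pw X n) ^ s = ⊥ := by
    intro n
    have hfin1 : Module.Finite ℚ (CorrRing C (pw X n)) := by
      obtain ⟨i⟩ := pw_iso X n n (2 * n + 1) (by ring)
      exact finite_of_iso i (hfin (2 * n + 1))
    apply exists_pow_eq_bot ℚ
    intro e he hee
    exact hph n ((CorrRing.of C (pw X n)).symm e) he hee
  have hlift := isLift κ hS hXS hnil
  have hfinM : ∀ n, Module.Finite W.K (W.K ⊗[ℚ] C.CH (pw X n)) := fun n => by
    have := hfin n
    infer_instance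
  have hrank : ∀ n, Module.finrank W.K (W.K ⊗[ℚ] C.CH (pw X n)) =
      Module.finrank ℚ (C.CH (pw X n)) := fun n => Module.finrank_baseChange
  have hlaw := hlift.law hP
  simp only [hrank] at hlaw
  rcases hlaw with ⟨N, h1, h2⟩ | h1
  · exact Or.inl ⟨N, h1, h2, hnil⟩
  · exact Or.inr h1

end Closed

end Pool.Agent.K1H14.CI
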