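import Pool.Agent.K1H14.CI.Coh

/-!
# Numerical equivalence: dual bases
-/

open CategoryTheory AlgebraicGeometry

universe u v w

namespace Pool.Agent.K1H14.CI

open Pool.Agent.H914 Pool.Agent.H914.VarClass Pool.Agent.H914.VarClass.Obj Pool.Agent.R903
  Pool.Agent.H281R3.HT

variable {k : Type u} [Field k] {𝒱 : VarClass k} {C : ChowTheory.{u, v} 𝒱} {X Y Z : 𝒱.Obj}

lemma numTriv_mul {x : C.CH X} (hx : x ∈ numTriv C X) (y : C.CH X) : x * y ∈ numTriv C X := by
  rw [mem_numTriv] at hx ⊢
  intro z
  rw [mul_assoc]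
  exact hx _

variable {ops : CycleOps 𝒱} {W : WeilCohomology.{u, w} ops}

lemma ClassMap.deg_push (κ : ClassMap C W) (f : X ⟶ Y) (x : C.CH X) :
    C.deg Y (C.push f x) = C.deg X x := by
  have h1 := W.tr_push f (κ.cl X x) 1
  rw [mul_one, _root_.map_one, mul_one, ← κ.cl_push, κ.tr_cl, κ.tr_cl] at h1
  exact_mod_cast h1

lemma ClassMap.cl_smul (κ : ClassMap C W) (q : ℚ) (x : C.CH X) :
    κ.cl X (q • x) = (q : W.K) • κ.cl X x := by
  have := map_ratCast_smul (κ.cl X) ℚ W.K q x
  simpa using this

lemma ClassMap.tr_mul (κ : ClassMap C W) (x y : C.CH X) :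
    W.tr X (κ.cl X x * κ.cl X y) = (C.deg X (x * y) : W.K) := by
  rw [← map_mul, κ.tr_cl]

/-- The classes `x i` and `y i` form dual bases modulo numerical equivalence. -/
structure DualBases (C : ChowTheory.{u, v} 𝒱) (X : 𝒱.Obj) {r : ℕ} (x y : Fin r → C.CH X) :
    Prop where
  dual : ∀ i j, C.deg X (x i * y j) = if i = j then 1 else 0
  span : ∀ v, v - ∑ i, C.deg X (v * y i) • x i ∈ numTriv C X

section Exists

variable (κ : ClassMap C W)

include κ in
lemma linInd_of_dual {r : ℕ} {x y : Fin r → C.CH X}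
    (h : ∀ i j, C.deg X (x i * y j) = if i = j then 1 else 0) :
    LinearIndependent W.K (fun i => κ.cl X (x i)) := by
  rw [Fintype.linearIndependent_iff]
  intro g hg j
  have h1 := congrArg (fun a => W.tr X (a * κ.cl X (y j))) hg
  simp only [Finset.sum_mul, map_sum, smul_mul_assoc, map_smul, smul_eq_mul, zero_mul,
    map_zero] at h1
  have h2 : ∀ i, W.tr X (κ.cl X (x i) * κ.cl X (y j)) = if i = j then 1 else 0 := by
    intro i
    rw [κ.tr_mul, h]
    split_ifs <;> simp
  simp only [h2, mul_ite, mul_one, mul_zero, Finset.sum_ite_eq', Finset.mem_univ,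
    if_true] at h1
  exact h1

/-- One can enlarge a dual system which is not a pair of dual bases. -/
lemma enlarge {r : ℕ} {x y : Fin r → C.CH X}
    (h : ∀ i j, C.deg X (x i * y j) = if i = j then 1 else 0)
    {v : C.CH X} (hv : v - ∑ i, C.deg X (v * y i) • x i ∉ numTriv C X) :
    ∃ x' y' : Fin (r + 1) → C.CH X, ∀ i j, C.deg X (x' i * y' j) = if i = j then 1 else 0 := by
  set v' := v - ∑ i, C.deg X (v * y i) • x i with hv'
  rw [mem_numTriv] at hv
  push Not at hv
  obtain ⟨w, hw⟩ := hv
  have h1 : ∀ j, C.deg X (v' * y j) = 0 := by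
    intro j
    rw [hv', sub_mul, map_sub, Finset.sum_mul, map_sum]
    simp only [smul_mul_assoc, map_smul, h, smul_eq_mul, mul_ite, mul_one, mul_zero,
      Finset.sum_ite_eq', Finset.mem_univ, if_true]
    rw [sub_self]
  set w' := w - ∑ j, C.deg X (x j * w) • y j with hw'
  have h2 : ∀ i, C.deg X (x i * w') = 0 := by
    intro i
    rw [hw', mul_sub, map_sub, Finset.mul_sum, map_sum]
    simp only [mul_smul_comm, map_smul, h, smul_eq_mul, mul_ite, mul_one, mul_zero,
      Finset.sum_ite_eq, Finset.mem_univ, if_true]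
    rw [sub_self]
  have h3 : C.deg X (v' * w') = C.deg X (v' * w) := by
    rw [hw', mul_sub, map_sub, Finset.mul_sum, map_sum]
    simp only [mul_smul_comm, map_smul, h1, smul_zero, Finset.sum_const_zero, sub_zero]
  refine ⟨Fin.snoc x v', Fin.snoc y ((C.deg X (v' * w))⁻¹ • w'), ?_⟩
  intro i j
  refine Fin.lastCases ?_ (fun i => ?_) i
  · refine Fin.lastCases ?_ (fun j => ?_) j
    · rw [Fin.snoc_last, Fin.snoc_last, mul_smul_comm, map_smul, h3, smul_eq_mul,
        inv_mul_cancel₀ hw, if_pos rfl]
    · rw [Fin.snoc_last, Fin.snoc_castSucc, h1, if_neg]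
      exact (Fin.castSucc_lt_last j).ne'
  · refine Fin.lastCases ?_ (fun j => ?_) j
    · rw [Fin.snoc_last, Fin.snoc_castSucc, mul_smul_comm, map_smul, h2, smul_zero, if_neg]
      exact (Fin.castSucc_lt_last i).ne
    · rw [Fin.snoc_castSucc, Fin.snoc_castSucc, h]
      congr 1
      simp

include κ in
theorem exists_dualBases (X : 𝒱.Obj) : ∃ (r : ℕ) (x y : Fin r → C.CH X), DualBases C X x y := by
  by_contra hcon
  push Not at hcon
  have h1 : ∀ r : ℕ, ∃ x y : Fin r → C.CH X,
      ∀ i j, C.deg X (x i * y j) = if i = j then 1 else 0 := by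
    intro r
    induction r with
    | zero => exact ⟨fun i => i.elim0, fun i => i.elim0, fun i => i.elim0⟩
    | succ r ih =>
      obtain ⟨x, y, h⟩ := ih
      have h2 := hcon r x y
      have h3 : ∃ v, v - ∑ i, C.deg X (v * y i) • x i ∉ numTriv C X := by
        by_contra h4
        push Not at h4
        exact h2 ⟨h, h4⟩
      obtain ⟨v, hv⟩ := h3
      exact enlarge h hv
  obtain ⟨x, y, h⟩ := h1 (Module.finrank W.K (W.H X) + 1)
  have h2 := (linInd_of_dual κ h).fintype_card_le_finrank
  rw [Fintype.card_fin] at h2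
  omega

end Exists

namespace DualBases

variable {r : ℕ} {x y : Fin r → C.CH X}

/-- The basis of the space of classes modulo numerical equivalence. -/
noncomputable def basis (h : DualBases C X x y) :
    Module.Basis (Fin r) ℚ (C.CH X ⧸ numTriv C X) :=
  Module.Basis.mk (v := fun i => (numTriv C X).mkQ (x i)) (by
    rw [Fintype.linearIndependent_iff]
    intro g hg j
    have h1 : (numTriv C X).mkQ (∑ i, g i • x i) = 0 := by
      rw [map_sum]
      simp only [map_smul]
      exact hg
    rw [Submodule.mkQ_apply, Submodule.Quotient.mk_eq_zero] at h1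
    have h2 := mem_numTriv.1 h1 (y j)
    rw [Finset.sum_mul, map_sum] at h2
    simp only [smul_mul_assoc, map_smul, h.dual, smul_eq_mul, mul_ite, mul_one, mul_zero,
      Finset.sum_ite_eq', Finset.mem_univ, if_true] at h2
    exact h2) (by
    rintro c -
    obtain ⟨v, rfl⟩ := (numTriv C X).mkQ_surjective c
    have h1 : (numTriv C X).mkQ v = ∑ i, C.deg X (v * y i) • (numTriv C X).mkQ (x i) := by
      rw [← sub_eq_zero]
      simp only [← map_smul]
      rw [← map_sum, ← map_sub, Submodule.mkQ_apply, Submodule.Quotient.mk_eq_zero]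
      exact h.span v
    rw [h1]
    exact Submodule.sum_mem _ fun i _ => Submodule.smul_mem _ _
      (Submodule.subset_span (Set.mem_range_self i)))

lemma finite (h : DualBases C X x y) : Module.Finite ℚ (C.CH X ⧸ numTriv C X) :=
  Module.Finite.of_basis h.basis

lemma numDim_eq (h : DualBases C X x y) : numDim C X = r := by
  rw [numDim, Module.finrank_eq_card_basis h.basis, Fintype.card_fin]

end DualBases

/-! ### Cohomology -/

section Coh

variable (κ : ClassMap C W)

lemma cl_mem_algSpan (c : C.CH X) : κ.cl X c ∈ algSpan W X := by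
  have h1 : c ∈ ⨆ i, C.gr X i := by
    rw [(C.isInternal X).submodule_iSup_eq_top]
    exact Submodule.mem_top
  refine Submodule.iSup_induction (fun i : ℕ => C.gr X i)
    (motive := fun c => κ.cl X c ∈ algSpan W X) h1 ?_ ?_ ?_
  · intro i x hx
    obtain ⟨z, hz, hzx⟩ := κ.exists_cyc X i x hx
    rw [← hzx]
    exact Submodule.subset_span (Set.mem_iUnion.2 ⟨i, z, hz, rfl⟩)
  · rw [map_zero]
    exact Submodule.zero_mem _
  · intro a b ha hb
    rw [map_add]
    exact Submodule.add_mem _ ha hb

lemma algSpan_eq : algSpan W X = Submodule.span W.K (Set.range (κ.cl X)) := by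
  apply le_antisymm
  · rw [algSpan, Submodule.span_le]
    intro c hc
    obtain ⟨j, z, hz, rfl⟩ := Set.mem_iUnion.1 hc
    obtain ⟨x, hx⟩ := κ.exists_cl X z
    rw [← hx]
    exact Submodule.subset_span ⟨x, rfl⟩
  · rw [Submodule.span_le]
    rintro _ ⟨c, rfl⟩
    exact cl_mem_algSpan κ c

lemma mem_transcendental_cl {a : W.H X} : a ∈ transcendental W X ↔
    ∀ c : C.CH X, W.tr X (κ.cl X c * a) = 0 := by
  rw [Pool.Agent.Y129.mem_transcendental]
  constructor
  · intro h c
    exact h _ (cl_mem_algSpan κ c)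
  · intro h d hd
    rw [algSpan_eq κ] at hd
    induction hd using Submodule.span_induction with
    | mem x hx =>
      obtain ⟨c, rfl⟩ := hx
      exact h c
    | zero => rw [zero_mul, map_zero]
    | add x y _ _ hx hy => rw [add_mul, map_add, hx, hy, add_zero]
    | smul r x _ hx => rw [smul_mul_assoc, map_smul, hx, smul_zero]

lemma cl_transcendental {c : C.CH X} (hc : c ∈ numTriv C X) :
    κ.cl X c ∈ transcendental W X := by
  rw [mem_transcendental_cl κ]
  intro d
  rw [κ.tr_mul, mul_comm, mem_numTriv.1 hc d, Rat.cast_zero]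

lemma mem_numTriv_of_cl {c : C.CH X} (h : κ.cl X c ∈ transcendental W X) :
    c ∈ numTriv C X := by
  rw [mem_transcendental_cl κ] at h
  rw [mem_numTriv]
  intro d
  have h1 := h d
  rw [κ.tr_mul, mul_comm] at h1
  exact_mod_cast h1

include κ in
/-- The dimension of the space of cycles modulo numerical equivalence is the numerical rank. -/
theorem numRank_eq_numDim (X : 𝒱.Obj) : Pool.Agent.Y129.numRank W X = numDim C X := by
  obtain ⟨r, x, y, h⟩ := exists_dualBases κ X
  rw [h.numDim_eq, Pool.Agent.Y129.numRank, Pool.Agent.Y129.na]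
  set T := transcendental W X with hT
  -- the basis
  have hspan : (algSpan W X).map T.mkQ =
      Submodule.span W.K (Set.range fun i => T.mkQ (κ.cl X (x i))) := by
    apply le_antisymm
    · rw [algSpan_eq κ, Submodule.map_span, Submodule.span_le]
      rintro _ ⟨_, ⟨c, rfl⟩, rfl⟩
      have h1 := cl_transcendental κ (h.span c)
      have h2 : T.mkQ (κ.cl X c) =
          ∑ i, ((C.deg X (c * y i) : ℚ) : W.K) • T.mkQ (κ.cl X (x i)) := by
        rw [← sub_eq_zero]
        have h3 : κ.cl X (c - ∑ i, C.deg X (c * y i) • x i) =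
            κ.cl X c - ∑ i, ((C.deg X (c * y i) : ℚ) : W.K) • κ.cl X (x i) := by
          rw [map_sub, map_sum]
          simp only [κ.cl_smul]
        rw [h3, ← Submodule.Quotient.mk_eq_zero, ← Submodule.mkQ_apply, map_sub, map_sum] at h1
        simp only [map_smul] at h1
        exact h1
      rw [SetLike.mem_coe, h2]
      exact Submodule.sum_mem _ fun i _ => Submodule.smul_mem _ _
        (Submodule.subset_span (Set.mem_range_self i))
    · rw [Submodule.span_le]
      rintro _ ⟨i, rfl⟩
      exact ⟨_, cl_mem_algSpan κ (x i), rfl⟩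
  have hlin : LinearIndependent W.K (fun i => T.mkQ (κ.cl X (x i))) := by
    rw [Fintype.linearIndependent_iff]
    intro g hg j
    have h1 : T.mkQ (∑ i, g i • κ.cl X (x i)) = 0 := by
      rw [map_sum]
      simp only [map_smul]
      exact hg
    rw [Submodule.mkQ_apply, Submodule.Quotient.mk_eq_zero] at h1
    have h2 := (mem_transcendental_cl κ).1 h1 (y j)
    rw [Finset.mul_sum, map_sum] at h2
    have h3 : ∀ i, W.tr X (κ.cl X (y j) * (g i • κ.cl X (x i))) =
        if i = j then g i else 0 := by
      intro i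
      rw [mul_smul_comm, map_smul, κ.tr_mul, mul_comm, h.dual]
      split_ifs <;> simp
    simp only [h3, Finset.sum_ite_eq', Finset.mem_univ, if_true] at h2
    exact h2
  rw [hspan, finrank_span_eq_card hlin, Fintype.card_fin]

end Coh

end Pool.Agent.K1H14.CI
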