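import Pool.Agent.K1H14.CI.Lift

/-!
# Phantoms: the growth of the Chow groups
-/

open CategoryTheory CategoryTheory.Limits AlgebraicGeometry Finset

universe u v w

namespace Pool.Agent.K1H14.CI

open Pool.Agent.H914 Pool.Agent.H914.VarClass Pool.Agent.H914.VarClass.Obj Pool.Agent.R903

variable {k : Type u} [Field k] {𝒱 : VarClass k} (C : ChowTheory.{u, v} 𝒱)
  {X Y Z A B P Q T : 𝒱.Obj}

/-! ### composition with spans -/

/-- Composition of a span with a correspondence. -/
lemma comp_span {A' : 𝒱.Obj} (a : Q ⟶ A) (b : Q ⟶ A') (ω : C.CH Q) (z : C.CH (A'.prod T)) :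
    C.comp (C.span a b ω) z = C.push (R903.prodMap a (𝟙 T))
      (C.pull (fst Q T) ω * C.pull (R903.prodMap b (𝟙 T)) z) := by
  have h1 : C.pull (R903.p12 A A' T) (C.push (lift a b) ω) =
      C.push (lift (fst Q T ≫ a) (lift (fst Q T ≫ b) (snd Q T))) (C.pull (fst Q T) ω) := by
    refine C.base_change (T := T) _ _ _ (R903.p12 A A' T) (snd A _ ≫ snd A' T) ?_ isIso_assoc ?_ _
    · apply hom_ext_prod <;> simp
    · have : lift (fst Q T ≫ a) (lift (fst Q T ≫ b) (snd Q T)) ≫ snd A (A'.prod T) ≫
          snd A' T = snd Q T := by simp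
      rw [this]
      exact isIso_lift_fst_snd
  rw [ChowTheory.comp, ChowTheory.span, h1, ← C.push_mul, ← C.push_comp, ← C.pull_comp]
  have e1 : lift (fst Q T ≫ a) (lift (fst Q T ≫ b) (snd Q T)) ≫ R903.p13 A A' T =
      R903.prodMap a (𝟙 T) := by
    apply hom_ext_prod <;> simp
  have e2 : lift (fst Q T ≫ a) (lift (fst Q T ≫ b) (snd Q T)) ≫ snd A (A'.prod T) =
      R903.prodMap b (𝟙 T) := by
    apply hom_ext_prod <;> simp
  rw [e1, e2]

/-- `(B × P) × T → B × (T × P)` -/
noncomputable def shift (B P T : 𝒱.Obj) : (B.prod P).prod T ⟶ B.prod (T.prod P) :=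
  lift (fst _ _ ≫ fst _ _) (lift (snd _ _) (fst _ _ ≫ snd _ _))

instance : IsIso (shift B P T) := by
  refine isIso_of (lift (lift (fst _ _) (snd _ _ ≫ snd _ _)) (snd _ _ ≫ fst _ _)) ?_ ?_
  · rw [shift]
    apply hom_ext_prod
    · apply hom_ext_prod <;> simp
    · simp
  · rw [shift]
    apply hom_ext_prod
    · simp
    · apply hom_ext_prod <;> simp

/-- `(B × (B × P)) × T → (B × B) × (T × P)` -/
noncomputable def shift' (B P T : 𝒱.Obj) :
    (B.prod (B.prod P)).prod T ⟶ (B.prod B).prod (T.prod P) :=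
  lift (lift (fst _ _ ≫ fst _ _) (fst _ _ ≫ snd _ _ ≫ fst _ _))
    (lift (snd _ _) (fst _ _ ≫ snd _ _ ≫ snd _ _))

instance : IsIso (shift' B P T) := by
  refine isIso_of (lift (lift (fst _ _ ≫ fst _ _) (lift (fst _ _ ≫ snd _ _) (snd _ _ ≫ snd _ _)))
    (snd _ _ ≫ fst _ _)) ?_ ?_
  · rw [shift']
    apply hom_ext_prod
    · apply hom_ext_prod
      · simp
      · apply hom_ext_prod <;> simp
    · simp
  · rw [shift']
    apply hom_ext_prod <;> apply hom_ext_prod <;> simp

/-- Moving a factor from the target to the source. -/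
lemma comp_shift (π : C.CH (B.prod B)) (y : C.CH (B.prod (T.prod P))) :
    C.pull (shift B P T) (C.comp π y) =
      C.comp (C.tensor π (C.diagC P)) (C.pull (shift B P T) y) := by
  apply C.push_injective (shift B P T)
  have h0 : C.span (fst B B) (snd B B) π = π := by
    rw [ChowTheory.span, lift_fst_snd, C.push_id]
  have h1 := comp_span C (T := T.prod P) (fst B B) (snd B B) π y
  rw [h0] at h1
  rw [C.push_pull_iso, ← C.opM_eq, ChowTheory.opM, comp_span, ← C.push_comp, h1]
  have e1 : R903.prodMap (R903.p13 B B P) (𝟙 T) ≫ shift B P T =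
      shift' B P T ≫ R903.prodMap (fst B B) (𝟙 (T.prod P)) := by
    rw [shift, shift']
    apply hom_ext_prod
    · simp
    · apply hom_ext_prod <;> simp
  have e2 : R903.prodMap (snd B (B.prod P)) (𝟙 T) ≫ shift B P T =
      shift' B P T ≫ R903.prodMap (snd B B) (𝟙 (T.prod P)) := by
    rw [shift, shift']
    apply hom_ext_prod
    · simp
    · apply hom_ext_prod <;> simp
  have e3 : fst (B.prod (B.prod P)) T ≫ R903.p12 B B P =
      shift' B P T ≫ fst (B.prod B) (T.prod P) := by
    rw [shift']
    apply hom_ext_prod <;> simp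
  rw [← C.pull_comp (fst (B.prod (B.prod P)) T), e3,
    ← C.pull_comp (R903.prodMap (snd B (B.prod P)) (𝟙 T)), e2, C.pull_comp, C.pull_comp,
    ← C.pull_mul, e1, C.push_comp, C.push_pull_iso]

variable {C}

/-- Composition with `π` before. -/
noncomputable def compL (π : C.CH (B.prod B)) (T : 𝒱.Obj) :
    C.CH (B.prod T) →ₗ[ℚ] C.CH (B.prod T) where
  toFun := C.comp π
  map_add' := C.comp_add π
  map_smul' q x := C.comp_smul q π x

lemma compL_apply (π : C.CH (B.prod B)) (x : C.CH (B.prod T)) :
    compL π T x = C.comp π x := rfl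

lemma compL_add (π π' : C.CH (B.prod B)) : compL (π + π') T = compL π T + compL π' T := by
  apply LinearMap.ext
  intro x
  exact C.add_comp π π' x

lemma compL_comp (π π' : C.CH (B.prod B)) :
    compL π T ∘ₗ compL π' T = compL (C.comp π π') T := by
  apply LinearMap.ext
  intro x
  exact (C.comp_assoc π π' x).symm

lemma compL_diagC : compL (C.diagC B) T = LinearMap.id := by
  apply LinearMap.ext
  intro x
  exact C.diagC_comp x

lemma compL_zero : compL (0 : C.CH (B.prod B)) T = 0 := by
  apply LinearMap.ext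
  intro x
  exact C.zero_comp x

lemma finrank_range_add_le {F V : Type*} [Field F] [AddCommGroup V] [Module F V]
    [Module.Finite F V] {p q : V →ₗ[F] V} (hp : p ∘ₗ p = p) (hq : q ∘ₗ q = q)
    (hpq : p ∘ₗ q = 0) (hqp : q ∘ₗ p = 0) :
    Module.finrank F (LinearMap.range p) + Module.finrank F (LinearMap.range q) ≤
      Module.finrank F (LinearMap.range (p + q)) := by
  have h1 : LinearMap.range p ⊓ LinearMap.range q = ⊥ := by
    rw [eq_bot_iff]
    rintro _ ⟨⟨x, rfl⟩, ⟨y, hy⟩⟩
    have h2 : p (p x) = p x := congrArg (fun f => f x) hp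
    have h3 : p (q y) = 0 := congrArg (fun f => f y) hpq
    rw [Submodule.mem_bot, ← h2, ← hy, h3]
  have h2 : LinearMap.range p ⊔ LinearMap.range q ≤ LinearMap.range (p + q) := by
    apply sup_le
    · rintro _ ⟨x, rfl⟩
      refine ⟨p x, ?_⟩
      have h2 : p (p x) = p x := congrArg (fun f => f x) hp
      have h3 : q (p x) = 0 := congrArg (fun f => f x) hqp
      rw [LinearMap.add_apply, h2, h3, add_zero]
    · rintro _ ⟨x, rfl⟩
      refine ⟨q x, ?_⟩
      have h2 : q (q x) = q x := congrArg (fun f => f x) hq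
      have h3 : p (q x) = 0 := congrArg (fun f => f x) hpq
      rw [LinearMap.add_apply, h2, h3, zero_add]
  have h3 := Submodule.finrank_sup_add_finrank_inf_eq (LinearMap.range p) (LinearMap.range q)
  rw [h1, finrank_bot, add_zero] at h3
  rw [← h3]
  exact Submodule.finrank_mono h2

/-! ### tensor products and numerical equivalence -/

section Num

variable {ops : CycleOps 𝒱} {W : WeilCohomology.{u, w} ops} (κ : ClassMap C W)
  {X' Y' : 𝒱.Obj}

include κ in
lemma tensor_numTriv_left {α : C.CH (X.prod X')} (hα : α ∈ numTriv C (X.prod X'))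
    (β : C.CH (Y.prod Y')) : C.tensor α β ∈ numTriv C _ := by
  rw [mem_numTriv] at hα ⊢
  intro z
  rw [ChowTheory.tensor, mul_assoc, ← κ.deg_push (R903.prodMap (fst X Y) (fst X' Y')),
    C.mul_push]
  exact hα _

include κ in
lemma tensor_numTriv_right (α : C.CH (X.prod X')) {β : C.CH (Y.prod Y')}
    (hβ : β ∈ numTriv C (Y.prod Y')) : C.tensor α β ∈ numTriv C _ := by
  rw [mem_numTriv] at hβ ⊢
  intro z
  rw [ChowTheory.tensor, mul_comm (C.pull (R903.prodMap (fst X Y) (fst X' Y')) α), mul_assoc,
    ← κ.deg_push (R903.prodMap (snd X Y) (snd X' Y')), C.mul_push]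
  exact hβ _

/-- If `w ⊗ e = 0` and `e ≠ 0` then `w` is numerically trivial. -/
lemma numTriv_of_tensor {w : C.CH (X.prod X')} {e : C.CH (Y.prod Y')} (he : e ≠ 0)
    (h : C.tensor w e = 0) : w ∈ numTriv C (X.prod X') := by
  rw [mem_numTriv]
  intro z
  have hiso := ChowTheory.isIso_shuffle (X := X) (Y := Y) (X' := X') (Y' := Y')
  set s1 := R903.prodMap (fst X Y) (fst X' Y') with hs1
  set s2 := R903.prodMap (snd X Y) (snd X' Y') with hs2
  have h1 : C.push s2 (C.pull s1 (w * z)) = algebraMap ℚ _ (C.deg _ (w * z)) := by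
    have e1 : s1 = lift s1 s2 ≫ fst _ _ := (Obj.lift_fst _ _).symm
    have e2 : s2 = lift s1 s2 ≫ snd _ _ := (Obj.lift_snd _ _).symm
    calc C.push s2 (C.pull s1 (w * z)) =
        C.push (lift s1 s2 ≫ snd _ _) (C.pull (lift s1 s2 ≫ fst _ _) (w * z)) := by
          rw [← e1, ← e2]
      _ = _ := by
          rw [C.push_comp, C.pull_comp, C.push_pull_iso, C.push_snd_pull_fst]
  have h2 : C.push s2 (C.tensor w e * C.pull s1 z) = C.deg _ (w * z) • e := by
    have h3 : C.tensor w e * C.pull s1 z = C.pull s1 (w * z) * C.pull s2 e := by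
      rw [ChowTheory.tensor, C.pull_mul]
      ring
    rw [h3, C.push_mul, h1, Algebra.smul_def]
  rw [h, zero_mul, map_zero] at h2
  rcases smul_eq_zero.1 h2.symm with h3 | h3
  · exact h3
  · exact absurd h3 he

lemma push_one_iso {A B T : 𝒱.Obj} (φ : A ⟶ B.prod T) [IsIso φ] (x : C.CH A) :
    C.pull φ (C.push φ x) = x := by
  apply C.push_injective φ
  rw [C.push_pull_iso]

include κ in
lemma pull_numTriv (f : X ⟶ Y) {y : C.CH Y} (hy : y ∈ numTriv C Y) :
    C.pull f y ∈ numTriv C X := by
  rw [mem_numTriv] at hy ⊢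
  intro z
  rw [← κ.deg_push f, C.mul_push]
  exact hy _

/-- The equivalence given by an isomorphism to a product. -/
noncomputable def pullEquiv {A B T : 𝒱.Obj} (φ : A ⟶ B.prod T) [IsIso φ] :
    C.CH (B.prod T) ≃ₗ[ℚ] C.CH A :=
  LinearEquiv.ofLinearMap (C.pull φ).toLinearMap (C.push φ)
    (LinearMap.ext fun x => push_one_iso φ x) (LinearMap.ext fun x => C.push_pull_iso φ x)

include κ in
lemma numDim_iso {A B T : 𝒱.Obj} (φ : A ⟶ B.prod T) [IsIso φ] :
    numDim C A = numDim C (B.prod T) := by
  have h1 : (numTriv C (B.prod T)).map (pullEquiv (C := C) φ).toLinearMap = numTriv C A := by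
    apply le_antisymm
    · rintro _ ⟨y, hy, rfl⟩
      exact pull_numTriv κ φ hy
    · intro x hx
      refine ⟨C.push φ x, ?_, push_one_iso φ x⟩
      rw [mem_numTriv] at hx
      rw [SetLike.mem_coe, mem_numTriv]
      intro z
      rw [← C.push_mul, κ.deg_push]
      exact hx _
  exact (Submodule.Quotient.equiv _ _ (pullEquiv (C := C) φ) h1).finrank_eq.symm

end Num

/-! ### the recursion -/

section Rec

variable {ops : CycleOps 𝒱} {W : WeilCohomology.{u, w} ops} (κ : ClassMap C W)

/-- The product of `Z` and `j` copies of `P`. -/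
noncomputable def tower (P : 𝒱.Obj) : ℕ → 𝒱.Obj → 𝒱.Obj
  | 0, Z => Z
  | j + 1, Z => tower P j (Z.prod P)

lemma tower_succ (P Z : 𝒱.Obj) (j : ℕ) : tower P (j + 1) Z = (tower P j Z).prod P := by
  induction j generalizing Z with
  | zero => rfl
  | succ j ih =>
    have h1 : tower P (j + 1 + 1) Z = tower P (j + 1) (Z.prod P) := rfl
    rw [h1, ih]
    rfl

variable {S : Set 𝒱.Obj} (hS : ∀ {X Y : 𝒱.Obj}, X ∈ S → Y ∈ S → X.prod Y ∈ S)

include hS in
lemma tower_mem {P Z : 𝒱.Obj} (hP : P ∈ S) (hZ : Z ∈ S) (j : ℕ) : tower P j Z ∈ S := by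
  induction j with
  | zero => exact hZ
  | succ j ih =>
    rw [tower_succ]
    exact hS ih hP

include κ hS in
/-- The `e`-part. -/
lemma e_part (hfin : ∀ Y ∈ S, Module.Finite ℚ (C.CH Y)) {e : C.CH (P.prod P)}
    (hee : C.comp e e = e) (he0 : e ≠ 0) {π : C.CH (B.prod B)}
    (hπ' : π - C.diagC B ∈ numTriv C (B.prod B)) (hP : P ∈ S) (hB : B ∈ S) {T : 𝒱.Obj}
    (hT : T ∈ S) :
    numDim C (B.prod T) ≤
      Module.finrank ℚ (LinearMap.range (compL (C.tensor π e) (T.prod P))) := by
  -- the map `w ↦ (π w) ⊗ e`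
  let φ : C.CH (B.prod T) →ₗ[ℚ] C.CH ((B.prod P).prod (T.prod P)) :=
    { toFun := fun w => C.tensor (C.comp π w) e
      map_add' := by
        intro a b
        rw [C.comp_add, ChowTheory.tensor, ChowTheory.tensor, ChowTheory.tensor, map_add, add_mul]
      map_smul' := by
        intro q a
        rw [C.comp_smul, ChowTheory.tensor, ChowTheory.tensor, map_smul, smul_mul_assoc]
        rfl }
  have hφ : ∀ w, φ w = C.tensor (C.comp π w) e := fun _ => rfl
  have h1 : LinearMap.range φ ≤ LinearMap.range (compL (C.tensor π e) (T.prod P)) := by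
    rintro _ ⟨w, rfl⟩
    refine ⟨C.tensor w e, ?_⟩
    rw [compL_apply, C.comp_tensor, hee, hφ]
  have h2 : LinearMap.ker φ ≤ numTriv C (B.prod T) := by
    intro w hw
    have h3 : C.comp π w ∈ numTriv C (B.prod T) := numTriv_of_tensor he0 hw
    have h4 : w = C.comp π w - C.comp (π - C.diagC B) w := by
      have h5 : C.comp (π - C.diagC B) w = C.comp π w - w := by
        have h6 := C.add_comp (π - C.diagC B) (C.diagC B) w
        rw [sub_add_cancel, C.diagC_comp] at h6
        rw [h6]
        abel
      rw [h5]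
      abel
    rw [h4]
    exact Submodule.sub_mem _ h3 (numTriv_comp_left κ hπ' w)
  have h3 : numDim C (B.prod T) ≤ Module.finrank ℚ (C.CH (B.prod T) ⧸ LinearMap.ker φ) := by
    have := hfin (B.prod T) (hS hB hT)
    rw [numDim]
    exact LinearMap.finrank_le_finrank_of_surjective
      (f := Submodule.mapQ (LinearMap.ker φ) (numTriv C (B.prod T)) LinearMap.id h2) (by
        intro y
        obtain ⟨x, rfl⟩ := (numTriv C (B.prod T)).mkQ_surjective y
        exact ⟨(LinearMap.ker φ).mkQ x, rfl⟩)
  have := hfin ((B.prod P).prod (T.prod P)) (hS (hS hB hP) (hS hT hP))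
  calc numDim C (B.prod T) ≤ _ := h3
    _ = Module.finrank ℚ (LinearMap.range φ) := φ.quotKerEquivRange.finrank_eq
    _ ≤ _ := Submodule.finrank_mono h1

include κ hS in
/-- The dimensions of the Chow groups in the presence of a phantom `e`. -/
theorem phantom_growth (hfin : ∀ Y ∈ S, Module.Finite ℚ (C.CH Y)) {e : C.CH (P.prod P)}
    (hee : C.comp e e = e) (he0 : e ≠ 0) (hen : e ∈ numTriv C (P.prod P)) (hP : P ∈ S) (N : ℕ) :
    ∀ (B Z : 𝒱.Obj), B ∈ S → Z ∈ S → ∀ π : C.CH (B.prod B), C.comp π π = π →
      π - C.diagC B ∈ numTriv C (B.prod B) →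
      N * numDim C (B.prod (tower P (2 * N - 2) Z)) ≤
        Module.finrank ℚ (LinearMap.range (compL π (tower P (2 * N) Z))) := by
  induction N with
  | zero =>
    intro B Z _ _ π _ _
    rw [zero_mul]
    exact Nat.zero_le _
  | succ N ih =>
    intro B Z hB hZ π hππ hπ'
    have hTS : tower P (2 * N) Z ∈ S := tower_mem hS hP hZ _
    set T := tower P (2 * N) Z with hT
    have hT1 : tower P (2 * N) (Z.prod P) = T.prod P := tower_succ P Z (2 * N)
    have hT2 : tower P (2 * (N + 1)) Z = (T.prod P).prod P := by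
      have h1 : 2 * (N + 1) = 2 * N + 1 + 1 := by ring
      rw [h1, tower_succ, tower_succ]
    have hT0 : tower P (2 * (N + 1) - 2) Z = T := by
      have h1 : 2 * (N + 1) - 2 = 2 * N := by omega
      rw [h1]
    rw [hT0, hT2]
    -- the two projectors
    set f := C.diagC P - e with hf
    have hsum : C.tensor π (C.diagC P) = C.tensor π e + C.tensor π f := by
      rw [← C.tensor_add, hf, add_sub_cancel]
    have hef : C.comp e f = 0 := by
      have h1 := C.comp_add e e f
      rw [hf, add_sub_cancel, C.comp_diagC, hee] at h1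
      rw [hf]
      have h2 := congrArg (fun x => x - e) h1
      simp only [sub_self, add_sub_cancel_left] at h2
      exact h2.symm
    have hfe : C.comp f e = 0 := by
      have h1 := C.add_comp e f e
      rw [hf, add_sub_cancel, C.diagC_comp, hee] at h1
      rw [hf]
      have h2 := congrArg (fun x => x - e) h1
      simp only [sub_self, add_sub_cancel_left] at h2
      exact h2.symm
    have hff : C.comp f f = f := by
      have h1 := C.add_comp e f f
      rw [hef, zero_add] at h1
      rw [← h1, hf, add_sub_cancel, C.diagC_comp]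
    have hfn : C.tensor π f - C.diagC (B.prod P) ∈ numTriv C _ := by
      have h1 : C.tensor π f - C.diagC (B.prod P) =
          C.tensor (π - C.diagC B) f - C.tensor (C.diagC B) e := by
        rw [← C.tensor_diagC]
        have h2 : C.tensor (π - C.diagC B) f = C.tensor π f - C.tensor (C.diagC B) f := by
          rw [ChowTheory.tensor, ChowTheory.tensor, ChowTheory.tensor, map_sub, sub_mul]
        have h3 : C.tensor (C.diagC B) (C.diagC P) =
            C.tensor (C.diagC B) e + C.tensor (C.diagC B) f := by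
          rw [← C.tensor_add, hf, add_sub_cancel]
        rw [h2, h3]
        abel
      rw [h1]
      exact Submodule.sub_mem _ (tensor_numTriv_left κ hπ' f)
        (tensor_numTriv_right κ (C.diagC B) hen)
    -- move one factor
    have hmove : Module.finrank ℚ (LinearMap.range (compL π ((T.prod P).prod P))) =
        Module.finrank ℚ (LinearMap.range (compL (C.tensor π (C.diagC P)) (T.prod P))) := by
      have h1 : (LinearMap.range (compL π ((T.prod P).prod P))).map
          (pullEquiv (C := C) (shift B P (T.prod P))).toLinearMap =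
            LinearMap.range (compL (C.tensor π (C.diagC P)) (T.prod P)) := by
        ext x
        constructor
        · rintro ⟨_, ⟨y, rfl⟩, rfl⟩
          exact ⟨C.pull (shift B P (T.prod P)) y, (comp_shift C π y).symm⟩
        · rintro ⟨z, rfl⟩
          refine ⟨_, ⟨C.push (shift B P (T.prod P)) z, rfl⟩, ?_⟩
          have h2 := comp_shift C π (C.push (shift B P (T.prod P)) z)
          rw [push_one_iso] at h2
          exact h2
      rw [← h1]
      exact (LinearEquiv.finrank_map_eq (pullEquiv (C := C) (shift B P (T.prod P))) _).symm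
    rw [hmove, hsum, compL_add]
    have hfin1 := hfin ((B.prod P).prod (T.prod P)) (hS (hS hB hP) (hS hTS hP))
    have h1 := finrank_range_add_le (p := compL (C.tensor π e) (T.prod P))
      (q := compL (C.tensor π f) (T.prod P))
      (by rw [compL_comp, C.comp_tensor, hππ, hee])
      (by rw [compL_comp, C.comp_tensor, hππ, hff])
      (by rw [compL_comp, C.comp_tensor, hef, C.tensor_zero, compL_zero])
      (by rw [compL_comp, C.comp_tensor, hfe, C.tensor_zero, compL_zero])
    refine le_trans ?_ h1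
    have h2 := e_part κ hS hfin hee he0 hπ' hP hB hTS
    have h3 := ih (B.prod P) (Z.prod P) (hS hB hP) (hS hZ hP) (C.tensor π f) (by rw [C.comp_tensor, hππ, hff]) hfn
    rw [hT1] at h3
    have h4 : N * numDim C (B.prod T) ≤
        N * numDim C ((B.prod P).prod (tower P (2 * N - 2) (Z.prod P))) := by
      rcases Nat.eq_zero_or_pos N with h0 | h0
      · rw [h0, zero_mul, zero_mul]
      · apply le_of_eq
        congr 1
        obtain ⟨m, rfl⟩ : ∃ m, N = m + 1 := ⟨N - 1, by omega⟩
        have h5 : 2 * (m + 1) - 2 = 2 * m := by omega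
        have h6 : tower P (2 * m) (Z.prod P) = tower P (2 * m + 1) Z := rfl
        have h7 : T = (tower P (2 * m + 1) Z).prod P := by
          rw [hT]
          have h8 : 2 * (m + 1) = 2 * m + 1 + 1 := by ring
          rw [h8, tower_succ]
        rw [h5, h6, h7]
        exact (numDim_iso κ (shift B P (tower P (2 * m + 1) Z))).symm
    calc (N + 1) * numDim C (B.prod T) = numDim C (B.prod T) + N * numDim C (B.prod T) := by ring
      _ ≤ _ := Nat.add_le_add h2 (h4.trans h3)

end Rec

end Pool.Agent.K1H14.CI
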