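import Pool.Agent.K1H14.CI.GapMain

/-!
# Surfaces without numerically trivial divisor classes
-/

open CategoryTheory CategoryTheory.Limits AlgebraicGeometry Finset Filter Topology

open scoped TensorProduct ENNReal

universe u v w

namespace Pool.Agent.K1H14.CI

open Pool.Agent.H914 Pool.Agent.H914.VarClass Pool.Agent.H914.VarClass.Obj Pool.Agent.R903
  Pool.Agent.H281R3.HT Pool.Agent.Y129 Pool.Agent.H914.WeilCohomology

variable {k : Type u} [Field k] {𝒱 : VarClass k} {C : ChowTheory.{u, v} 𝒱} {X Y Z : 𝒱.Obj}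

lemma eq_genericPoint {x : X.V.X} (h : Order.coheight x = 0) : x = genericPoint X.V.X := by
  rw [Order.coheight_eq_zero] at h
  have h1 : x ≤ genericPoint X.V.X := genericPoint_specializes x
  have h2 : genericPoint X.V.X ≤ x := h h1
  have h3 : x ⤳ genericPoint X.V.X := h2
  exact (h3.antisymm (genericPoint_specializes x)).eq

/-- The classes of codimension zero are the multiples of the class of the variety. -/
lemma gr_zero_eq {x : C.CH X} (hx : x ∈ C.gr X 0) : ∃ q : ℚ, x = q • 1 := by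
  obtain ⟨z, hz, rfl⟩ := C.mem_gr.1 hx
  obtain ⟨v, rfl⟩ := exists_toCyc z
  rw [linear_eq_sum (C.cls X) v]
  refine ⟨∑ x ∈ v.support, v x, ?_⟩
  rw [Finset.sum_smul]
  apply Finset.sum_congr rfl
  intro x hx
  have h1 : Order.coheight x = 0 := by
    have := isCyc_toCyc hz hx
    exact_mod_cast this
  rw [eq_genericPoint h1]
  congr 1
  exact C.cls_fund X

lemma deg_eq_zero (W : WeilTheory.{u, v, w} C) {x : C.CH X} {p : ℕ} (hx : x ∈ C.gr X p)
    (hp : p ≠ X.dim) : C.deg X x = 0 := by
  have h1 := W.tr_cl x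
  rw [W.tr_eq_zero (W.cl_mem hx) (by omega)] at h1
  exact_mod_cast h1.symm

lemma deg_mul_eq_zero (W : WeilTheory.{u, v, w} C) {x y : C.CH X} {p q : ℕ} (hx : x ∈ C.gr X p)
    (hy : y ∈ C.gr X q) (hp : p + q ≠ X.dim) : C.deg X (x * y) = 0 :=
  deg_eq_zero W (C.mul_mem hx hy) hp

/-- The decomposition of the Chow ring of a surface. -/
lemma surf_decomp (hdim : X.dim = 2) (x : C.CH X) : ∃ (a : ℚ) (D z : C.CH X), D ∈ C.gr X 1 ∧
    z ∈ C.gr X 2 ∧ x = a • 1 + D + z := by
  have h1 : x ∈ ⨆ i, C.gr X i := by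
    rw [(C.isInternal X).submodule_iSup_eq_top]
    exact Submodule.mem_top
  refine Submodule.iSup_induction (fun i : ℕ => C.gr X i)
    (motive := fun x => ∃ (a : ℚ) (D z : C.CH X), D ∈ C.gr X 1 ∧
      z ∈ C.gr X 2 ∧ x = a • 1 + D + z) h1 ?_ ?_ ?_
  · intro i x hx
    match i, hx with
    | 0, hx =>
      obtain ⟨q, rfl⟩ := gr_zero_eq hx
      exact ⟨q, 0, 0, Submodule.zero_mem _, Submodule.zero_mem _, by simp⟩
    | 1, hx => exact ⟨0, x, 0, hx, Submodule.zero_mem _, by simp⟩
    | 2, hx => exact ⟨0, 0, x, Submodule.zero_mem _, hx, by simp⟩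
    | i + 3, hx =>
      rw [C.gr_eq_bot X (i + 3) (by omega), Submodule.mem_bot] at hx
      exact ⟨0, 0, 0, Submodule.zero_mem _, Submodule.zero_mem _, by simp [hx]⟩
  · exact ⟨0, 0, 0, Submodule.zero_mem _, Submodule.zero_mem _, by simp⟩
  · rintro x y ⟨a, D, z, hD, hz, rfl⟩ ⟨a', D', z', hD', hz', rfl⟩
    exact ⟨a + a', D + D', z + z', Submodule.add_mem _ hD hD', Submodule.add_mem _ hz hz', by
      rw [add_smul]; abel⟩

section Surf

variable (W : WeilTheory.{u, v, w} C) (hC : HasDegree C) (hdim : X.dim = 2)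
  (hpic : ∀ D ∈ C.gr X 1, D ∈ numTriv C X → D = 0)

include W hdim in
/-- The degree of a product on a surface. -/
lemma deg_surf {a b : ℚ} {D E z w : C.CH X} (hD : D ∈ C.gr X 1) (hE : E ∈ C.gr X 1)
    (hz : z ∈ C.gr X 2) (hw : w ∈ C.gr X 2) :
    C.deg X ((a • 1 + D + z) * (b • 1 + E + w)) =
      a * C.deg X w + C.deg X (D * E) + b * C.deg X z := by
  have h0 : (1 : C.CH X) ∈ C.gr X 0 := C.one_mem X
  have e1 : C.deg X 1 = 0 := deg_eq_zero W h0 (by omega)
  have e2 : C.deg X D = 0 := deg_eq_zero W hD (by omega)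
  have e3 : C.deg X E = 0 := deg_eq_zero W hE (by omega)
  have e4 : C.deg X (D * w) = 0 := deg_mul_eq_zero W hD hw (by omega)
  have e5 : C.deg X (z * E) = 0 := deg_mul_eq_zero W hz hE (by omega)
  have e6 : C.deg X (z * w) = 0 := deg_mul_eq_zero W hz hw (by omega)
  have e : (a • (1 : C.CH X) + D + z) * (b • 1 + E + w) =
      (a * b) • 1 + a • E + a • w + b • D + D * E + D * w + b • z + z * E + z * w := by
    simp only [Algebra.smul_def, map_mul]
    ring
  rw [e]
  simp only [map_add, map_smul, e1, e2, e3, e4, e5, e6, smul_eq_mul, mul_zero, add_zero, zero_add]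

include W hC hdim hpic in
/-- The numerically trivial classes on a surface without numerically trivial divisor classes. -/
lemma numTriv_surf : numTriv C X = zeroCyc C X := by
  obtain ⟨p, hp, hp0⟩ := hC.exists_ne X
  rw [hdim] at hp
  ext x
  rw [zeroCyc, Submodule.mem_inf, LinearMap.mem_ker, hdim]
  obtain ⟨a, D, z, hD, hz, rfl⟩ := surf_decomp hdim x
  constructor
  · intro h
    have h1 : a = 0 := by
      have h2 := mem_numTriv.1 h p
      have h3 := deg_surf W hdim (a := a) (b := 0) hD (Submodule.zero_mem _) hz hp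
      rw [zero_smul, zero_add, zero_add, h2] at h3
      simp only [mul_zero, map_zero, add_zero, zero_mul] at h3
      rcases mul_eq_zero.1 h3.symm with h4 | h4
      · exact h4
      · exact absurd h4 hp0
    have h2 : D = 0 := by
      apply hpic D hD
      rw [mem_numTriv]
      intro y
      obtain ⟨b, E, w, hE, hw, rfl⟩ := surf_decomp hdim y
      have h2 := mem_numTriv.1 h E
      have h3 := deg_surf W hdim (a := a) (b := 0) hD hE hz (Submodule.zero_mem _)
      rw [zero_smul, zero_add, add_zero, h2] at h3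
      simp only [map_zero, mul_zero, zero_mul, add_zero, zero_add] at h3
      have h4 := deg_surf W hdim (a := 0) (b := b) hD hE (Submodule.zero_mem _) hw
      rw [zero_smul, zero_add, add_zero] at h4
      rw [h4, ← h3]
      simp
    subst h1
    subst h2
    have h3 := mem_numTriv.1 h 1
    rw [mul_one] at h3
    rw [zero_smul, zero_add, zero_add] at h3 ⊢
    exact ⟨hz, h3⟩
  · rintro ⟨h1, h2⟩
    rw [mem_numTriv]
    intro y
    obtain ⟨b, E, w, hE, hw, rfl⟩ := surf_decomp hdim y
    set s := a • (1 : C.CH X) + D + z with hs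
    have h3 := deg_surf W hdim (a := 0) (b := b) (Submodule.zero_mem _) hE h1 hw
    rw [zero_smul, zero_add, zero_add, h2] at h3
    rw [h3]
    simp

include W hC hdim hpic in
/-- The dimension of the Chow groups modulo numerical equivalence of a surface without numerically
trivial divisor classes. -/
lemma numDim_surf : numDim C X = picardNumber C X + 2 := by
  obtain ⟨p', hp', hp0'⟩ := hC.exists_ne X
  rw [hdim] at hp'
  set p := (C.deg X p')⁻¹ • p' with hpdef
  have hp : p ∈ C.gr X 2 := Submodule.smul_mem _ _ hp'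
  have hp1 : C.deg X p = 1 := by
    rw [hpdef, map_smul, smul_eq_mul, inv_mul_cancel₀ hp0']
  set φ : (ℚ × C.gr X 1 × ℚ) →ₗ[ℚ] (C.CH X ⧸ numTriv C X) :=
    (numTriv C X).mkQ ∘ₗ (((LinearMap.id : ℚ →ₗ[ℚ] ℚ).smulRight (1 : C.CH X)).coprod
      ((C.gr X 1).subtype.coprod ((LinearMap.id : ℚ →ₗ[ℚ] ℚ).smulRight p))) with hφ
  have hφ1 : ∀ a D b, φ (a, D, b) = (numTriv C X).mkQ (a • 1 + (D : C.CH X) + b • p) := by
    intro a D b
    rw [hφ]
    simp [add_assoc]
  have hinj : Function.Injective φ := by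
    rw [← LinearMap.ker_eq_bot, LinearMap.ker_eq_bot']
    rintro ⟨a, D, b⟩ h
    rw [hφ1, Submodule.mkQ_apply, Submodule.Quotient.mk_eq_zero] at h
    have hbp : b • p ∈ C.gr X 2 := Submodule.smul_mem _ _ hp
    have ha : a = 0 := by
      have h2 := mem_numTriv.1 h p
      have h3 := deg_surf W hdim (a := a) (b := 0) D.2 (Submodule.zero_mem _) hbp hp
      rw [zero_smul, zero_add, zero_add, h2] at h3
      simp only [mul_zero, map_zero, add_zero, zero_mul, hp1, mul_one] at h3
      exact h3.symm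
    have hb : b = 0 := by
      have h2 := mem_numTriv.1 h 1
      have h3 := deg_surf W hdim (a := a) (b := 1) D.2 (Submodule.zero_mem _) hbp
        (Submodule.zero_mem _)
      rw [one_smul, add_zero, add_zero, h2] at h3
      simp only [mul_zero, map_zero, add_zero, zero_add, one_mul, map_smul, hp1, smul_eq_mul,
        mul_one] at h3
      exact h3.symm
    subst ha
    subst hb
    rw [zero_smul, zero_smul, zero_add, add_zero] at h
    have hD : D = 0 := Subtype.ext (hpic _ D.2 h)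
    rw [hD]
    rfl
  have hsurj : Function.Surjective φ := by
    intro c
    obtain ⟨x, rfl⟩ := (numTriv C X).mkQ_surjective c
    obtain ⟨a, D, z, hD, hz, rfl⟩ := surf_decomp hdim x
    refine ⟨(a, ⟨D, hD⟩, C.deg X z), ?_⟩
    rw [hφ1, ← sub_eq_zero, ← map_sub, Submodule.mkQ_apply, Submodule.Quotient.mk_eq_zero]
    have h1 : a • 1 + D + C.deg X z • p - (a • 1 + D + z) = C.deg X z • p - z := by abel
    change a • 1 + D + C.deg X z • p - (a • 1 + D + z) ∈ numTriv C X
    rw [h1, numTriv_surf W hC hdim hpic, zeroCyc, Submodule.mem_inf, LinearMap.mem_ker, hdim]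
    refine ⟨Submodule.sub_mem _ (Submodule.smul_mem _ _ hp) hz, ?_⟩
    rw [map_sub, map_smul, hp1, smul_eq_mul, mul_one, sub_self]
  have hfinq : Module.Finite ℚ (C.CH X ⧸ numTriv C X) := by
    obtain ⟨r, x, y, hxy⟩ := exists_dualBases (classMapOf hC W) X
    exact hxy.finite
  have hfin1 : Module.Finite ℚ (C.gr X 1) := by
    refine Module.Finite.of_injective ((numTriv C X).mkQ ∘ₗ (C.gr X 1).subtype) ?_
    rw [← LinearMap.ker_eq_bot, LinearMap.ker_eq_bot']
    intro D h
    rw [LinearMap.comp_apply, Submodule.mkQ_apply, Submodule.Quotient.mk_eq_zero] at h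
    exact Subtype.ext (hpic _ D.2 h)
  have h1 := (LinearEquiv.ofBijective φ ⟨hinj, hsurj⟩).finrank_eq
  rw [Module.finrank_prod, Module.finrank_prod, Module.finrank_self] at h1
  rw [numDim, ← h1, picardNumber]
  ring

end Surf

/-- **The gap theorem for zero-cycles on surfaces.** -/
theorem surf_gap (hC : HasDegree C) (W : WeilTheory.{u, v, w} C) (hdim : X.dim = 2)
    (hpic : ∀ D ∈ C.gr X 1, D ∈ numTriv C X → D = 0) (hdiv : IsDivision C X) :
    ∃ N : ℕ∞, Tendsto (fun n => (chowDim C (pw X n) : ℝ≥0∞) / numDim C (pw X n)) atTop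
      (𝓝 (N : ℝ≥0∞)) ∧
    (transDim C X : ℕ∞) + ((Module.finrank W.K (W.H X) - (picardNumber C X + 2) : ℕ) : ℕ∞) *
      zeroCycDim C X ≤ transDim C X * N ∧
    (zeroCyc C X ≠ ⊥ →
      ((Module.finrank W.K (W.H X) - (picardNumber C X + 2) : ℕ) : ℕ∞) + 1 ≤ N) := by
  obtain ⟨y, -, hy⟩ := hC.exists_ne X
  obtain ⟨z, hz⟩ := exists_deg_one ⟨y, hy⟩
  obtain ⟨N, -, hN, -⟩ := index_law hC W hz
  obtain ⟨h1, h2⟩ := gap hC W hz hdiv hN
  rw [numDim_surf W hC hdim hpic] at h1 h2
  have h3 : trivDim C X = zeroCycDim C X := by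
    rw [trivDim, zeroCycDim, numTriv_surf W hC hdim hpic]
  rw [h3] at h1 h2
  refine ⟨N, hN, h1, fun h => h2 ?_⟩
  intro h4
  apply h
  rw [zeroCycDim, Cardinal.toENat_eq_zero] at h4
  exact Submodule.rank_eq_zero.1 h4

end Pool.Agent.K1H14.CI
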